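import Pool.Agent.LIN.M.M0

/-!
# [LIN-MA1] words and their numbers
-/

namespace Pool.Agent.LIN.MM

/-- `pre X n = pre Y n` iff the first `n` values agree (`List.map_congr_left`, `List.range`). -/
theorem pre_eq_iff (X Y : ℕ → Bool) (n : ℕ) : pre X n = pre Y n ↔ ∀ k < n, X k = Y k := by
  unfold pre
  rw [List.map_inj_left]
  simp only [List.mem_range]

theorem length_pre (X : ℕ → Bool) (n : ℕ) : (pre X n).length = n := by
  unfold pre
  rw [List.length_map, List.length_range]

theorem pow_le_Wd (X : ℕ → Bool) (n : ℕ) : 2 ^ n ≤ Wd X n := by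
  induction n with
  | zero => exact le_rfl
  | succ n ih =>
    show 2 ^ (n + 1) ≤ 2 * Wd X n + (X n).toNat
    rw [pow_succ]
    omega

theorem ma1_Wd_lt (X : ℕ → Bool) (n : ℕ) : Wd X n < 2 ^ (n + 1) := by
  induction n with
  | zero => exact Nat.one_lt_two
  | succ n ih =>
    show 2 * Wd X n + (X n).toNat < 2 ^ (n + 1 + 1)
    have h1 := Bool.toNat_le (X n)
    rw [pow_succ]
    omega

theorem lt_Wd (X : ℕ → Bool) (n : ℕ) : n < Wd X n :=
  lt_of_lt_of_le Nat.lt_two_pow_self (pow_le_Wd X n)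

/-- Induction on `j`. -/
theorem Wd_div (X : ℕ → Bool) (n j : ℕ) : Wd X (n + j) / 2 ^ j = Wd X n := by
  induction j with
  | zero =>
    rw [add_zero, pow_zero, Nat.div_one]
  | succ j ih =>
    have h1 : Wd X (n + (j + 1)) / 2 = Wd X (n + j) := by
      show (2 * Wd X (n + j) + (X (n + j)).toNat) / 2 = Wd X (n + j)
      have h1 := Bool.toNat_le (X (n + j))
      omega
    rw [pow_succ, mul_comm, ← Nat.div_div_eq_div_mul, h1, ih]

/-- If `w < 2 ^ (n+1)`, `2 ^ j <= w ...`: every `j` with `1 ≤ Wd X n / 2 ^ j` is `≤ n`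
(`Wd X n < 2 ^ (n + 1)`). -/
theorem le_of_one_le (X : ℕ → Bool) (n j : ℕ) (h : 1 ≤ Wd X n / 2 ^ j) : j ≤ n := by
  by_contra hlt
  push Not at hlt
  have h1 : Wd X n < 2 ^ j := lt_of_lt_of_le (ma1_Wd_lt X n) (Nat.pow_le_pow_right two_pos hlt)
  rw [Nat.div_eq_of_lt h1] at h
  omega

/-- One step of the decoding. -/
def decStep (p : ℕ × List Bool) : ℕ × List Bool :=
  if p.1 ≤ 1 then p else (p.1 / 2, decide (p.1 % 2 = 1) :: p.2)

/-- The word with the number `w`. -/
def dec (w : ℕ) : List Bool := (decStep^[w] (w, [])).2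

/-- `Primrec.nat_iterate`, `Primrec.ite`, `Primrec.list_cons`, `Primrec.nat_div`, .. -/
theorem primrec_dec : Primrec dec := by
  have h1 : Primrec decStep := by
    unfold decStep
    refine Primrec.ite (Primrec.nat_le.comp Primrec.fst (Primrec.const 1)) Primrec.id ?_
    refine Primrec.pair (Primrec.nat_div.comp Primrec.fst (Primrec.const 2)) ?_
    refine Primrec.list_cons.comp ?_ Primrec.snd
    exact (Primrec.eq.comp (Primrec.nat_mod.comp Primrec.fst (Primrec.const 2))
      (Primrec.const 1)).decide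
  have h2 : Primrec fun w : ℕ => decStep^[w] (w, []) :=
    Primrec.nat_iterate (f := fun w : ℕ => w) (g := fun w : ℕ => (w, ([] : List Bool)))
      (h := fun _ p => decStep p) Primrec.id (Primrec.pair Primrec.id (Primrec.const []))
      (h1.comp Primrec.snd)
  exact Primrec.snd.comp h2

theorem ma1_step (X : ℕ → Bool) (m : ℕ) (l : List Bool) :
    decStep (Wd X (m + 1), l) = (Wd X m, X m :: l) := by
  have h0 : Wd X (m + 1) = 2 * Wd X m + (X m).toNat := rfl
  have h1 := Bool.toNat_le (X m)
  have h2 : 1 ≤ Wd X m := le_trans Nat.one_le_two_pow (pow_le_Wd X m)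
  unfold decStep
  rw [if_neg (by show ¬ (Wd X (m + 1) ≤ 1); omega)]
  have h3 : Wd X (m + 1) / 2 = Wd X m := by omega
  have h4 : Wd X (m + 1) % 2 = (X m).toNat := by omega
  show (Wd X (m + 1) / 2, decide (Wd X (m + 1) % 2 = 1) :: l) = (Wd X m, X m :: l)
  rw [h3, h4]
  cases X m <;> rfl

theorem ma1_steps (X : ℕ → Bool) (m j : ℕ) (l : List Bool) :
    decStep^[j] (Wd X (m + j), l) = (Wd X m, (List.range' m j).map X ++ l) := by
  induction j generalizing l with
  | zero => rfl
  | succ j ih =>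
    rw [Function.iterate_succ_apply, ← add_assoc, ma1_step, ih, List.range'_1_concat,
      List.map_append, List.append_assoc]
    rfl

/-- After `j ≤ n` steps from `(Wd X n, [])` the pair is `(Wd X (n - j), [X (n-j), ..., X (n-1)])`,
after `n` steps `(1, pre X n)`, which is a fixed point; and `n < Wd X n`. -/
theorem dec_Wd (X : ℕ → Bool) (n : ℕ) : dec (Wd X n) = pre X n := by
  have h1 := ma1_steps X 0 n []
  rw [zero_add, List.append_nil, ← List.range_eq_range'] at h1
  have h2 : decStep^[Wd X n] (Wd X n, []) = (1, pre X n) := by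
    obtain ⟨d, hd⟩ := Nat.exists_eq_add_of_lt (lt_Wd X n)
    have h3 : decStep^[(d + 1) + n] (Wd X n, []) = (1, pre X n) := by
      rw [Function.iterate_add_apply, h1]
      exact Function.iterate_fixed (f := decStep) (x := (1, pre X n)) rfl (d + 1)
    have h4 : Wd X n = (d + 1) + n := by omega
    rw [← h4] at h3
    exact h3
  unfold dec
  rw [h2]

end Pool.Agent.LIN.MM
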