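import Pool.Agent.LIN.M.A1

/-!
# [LIN-MA2] every computable tree predicate has a primitive recursive test function
-/

namespace Pool.Agent.LIN.MM

/-- The program `c` reports a violation at the number `w`: some prefix `w / 2 ^ j` is rejected
within `w` steps. -/
def Viol (c : Nat.Partrec.Code) (w : ℕ) : Prop :=
  ∃ j < w, 1 ≤ w / 2 ^ j ∧
    Nat.Partrec.Code.evaln w c (Encodable.encode (dec (w / 2 ^ j))) =
      some (Encodable.encode false)

theorem ma2_pow2 : Primrec (fun j : ℕ => 2 ^ j) := by
  have h : Primrec (fun j : ℕ => Nat.rec (motive := fun _ => ℕ) 1 (fun _ z => 2 * z) j) :=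
    Primrec.nat_rec₁ 1 (Primrec.nat_mul.comp (Primrec.const 2) Primrec.snd).to₂
  refine h.of_eq ?_
  intro j
  induction j with
  | zero => rfl
  | succ j ih =>
    show 2 * _ = 2 ^ (j + 1)
    rw [ih, pow_succ, Nat.mul_comm]

theorem ma2_rel (c : Nat.Partrec.Code) : PrimrecRel (fun j w : ℕ => 1 ≤ w / 2 ^ j ∧
    Nat.Partrec.Code.evaln w c (Encodable.encode (dec (w / 2 ^ j))) =
      some (Encodable.encode false)) := by
  have hdiv : Primrec (fun p : ℕ × ℕ => p.2 / 2 ^ p.1) :=
    Primrec.nat_div.comp Primrec.snd (ma2_pow2.comp Primrec.fst)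
  have h1 : PrimrecPred (fun p : ℕ × ℕ => 1 ≤ p.2 / 2 ^ p.1) :=
    Primrec.nat_le.comp (Primrec.const 1) hdiv
  have h2 : Primrec (fun p : ℕ × ℕ => Nat.Partrec.Code.evaln p.2 c
      (Encodable.encode (dec (p.2 / 2 ^ p.1)))) :=
    Nat.Partrec.Code.primrec_evaln.comp
      (Primrec.pair (Primrec.pair Primrec.snd (Primrec.const c))
        (Primrec.encode.comp (primrec_dec.comp hdiv)))
  have h3 : PrimrecPred (fun p : ℕ × ℕ => Nat.Partrec.Code.evaln p.2 c
      (Encodable.encode (dec (p.2 / 2 ^ p.1))) = some (Encodable.encode false)) :=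
    Primrec.eq.comp h2 (Primrec.const _)
  exact h1.and h3

/-- `Nat.Partrec.Code.primrec_evaln`, `primrec_dec`, bounded existential quantifier
(`PrimrecRel.exists_lt` or `PrimrecPred.exists_mem_list` over `List.range w`), `Nat` powers of 2
by `Primrec.nat_rec`. -/
theorem primrec_viol (c : Nat.Partrec.Code) : PrimrecPred (Viol c) := by
  exact (ma2_rel c).exists_lt.comp Primrec.id Primrec.id

/-- Normal form. `R` is decided by a code `c`: `encode (decide (R l)) ∈ c.eval (encode l)`
(`Nat.Partrec.Code.exists_code` applied to the `Nat.Partrec` function of the computable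
function `decide R`). `f w = if Viol c w then 1 else 0`.
(→) if all `R (pre X n)` then no violation: `Wd X (n+1) / 2 ^ j = Wd X (n+1-j)` for `j ≤ n + 1`
(`le_of_one_le`, `Wd_div`), `dec_Wd`, `Nat.Partrec.Code.evaln_sound`, and
`encode true ≠ encode false`.
(←) if `¬ R (pre X k)` then by `Nat.Partrec.Code.evaln_complete` there is `s` with
`encode false ∈ evaln s c (encode (pre X k))`; take `n = max k s`: the number `w = Wd X (n+1)` is
`> n + 1 ≥ s`, `evaln_mono`; `j = n + 1 - k < w`, `w / 2 ^ j = Wd X k ≥ 1`. -/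
theorem normal (R : List Bool → Prop) (hR : ComputablePred R) :
    ∃ f : ℕ → ℕ, Primrec f ∧ ∀ X : ℕ → Bool, (∀ n, R (pre X n)) ↔ CF f X := by
  classical
  obtain ⟨hd, hc⟩ := hR
  obtain ⟨c, hcode⟩ := Nat.Partrec.Code.exists_code.1 hc
  have hev : ∀ l : List Bool, Nat.Partrec.Code.eval c (Encodable.encode l) =
      Part.some (Encodable.encode (decide (R l))) := by
    intro l
    rw [hcode]
    simp
  refine ⟨fun w => if Viol c w then 1 else 0,
    Primrec.ite (primrec_viol c) (Primrec.const 1) (Primrec.const 0), ?_⟩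
  intro X
  constructor
  · intro hall n
    show (if Viol c (Wd X (n + 1)) then 1 else 0) = 0
    rw [if_neg]
    rintro ⟨j, hj, h1, h2⟩
    have hjn : j ≤ n + 1 := le_of_one_le X (n + 1) j h1
    obtain ⟨k, hk⟩ := Nat.exists_eq_add_of_le hjn
    have hw : Wd X (n + 1) / 2 ^ j = Wd X k := by
      rw [hk, Nat.add_comm j k, Wd_div]
    rw [hw, dec_Wd] at h2
    have h3 := Nat.Partrec.Code.evaln_sound (k := Wd X (n + 1)) (c := c) (Option.mem_def.2 h2)
    rw [hev, Part.mem_some_iff] at h3
    have h4 := Encodable.encode_injective h3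
    rw [eq_comm, decide_eq_false_iff_not] at h4
    exact h4 (hall k)
  · intro hcf k
    by_contra hk
    have h1 : Encodable.encode false ∈ Nat.Partrec.Code.eval c (Encodable.encode (pre X k)) := by
      rw [hev, Part.mem_some_iff, decide_eq_false hk]
    obtain ⟨s, hs⟩ := Nat.Partrec.Code.evaln_complete.1 h1
    have hw := hcf (max k s)
    have hv : Viol c (Wd X (max k s + 1)) := by
      have hlt := lt_Wd X (max k s + 1)
      have hks : k ≤ max k s := Nat.le_max_left _ _
      have hss : s ≤ max k s := Nat.le_max_right _ _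
      have hdiv : Wd X (max k s + 1) / 2 ^ (max k s + 1 - k) = Wd X k := by
        have := Wd_div X k (max k s + 1 - k)
        rwa [show k + (max k s + 1 - k) = max k s + 1 by omega] at this
      refine ⟨max k s + 1 - k, by omega, ?_, ?_⟩
      · rw [hdiv]
        have := lt_Wd X k
        omega
      · rw [hdiv, dec_Wd]
        exact Option.mem_def.1 (Nat.Partrec.Code.evaln_mono (by omega) hs)
    have hw2 : (if Viol c (Wd X (max k s + 1)) then 1 else 0) = 0 := hw
    rw [if_pos hv] at hw2
    exact absurd hw2 one_ne_zero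

end Pool.Agent.LIN.MM
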