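import Pool.Agent.LIN.M.A2

/-!
# [LIN-MA3] the balanced class: `X` is replaced by `X 0, ¬ X 0, X 1, ¬ X 1, ...`
-/

namespace Pool.Agent.LIN.MM

/-- The sequence `X 0, ¬ X 0, X 1, ¬ X 1, ...`. -/
def dbl (X : ℕ → Bool) (n : ℕ) : Bool := if n % 2 = 0 then X (n / 2) else !X (n / 2)

theorem dbl_even (X : ℕ → Bool) (n : ℕ) : dbl X (2 * n) = X n := by
  unfold dbl
  rw [if_pos (by omega), show 2 * n / 2 = n by omega]

theorem dbl_odd (X : ℕ → Bool) (n : ℕ) : dbl X (2 * n + 1) = !X n := by
  unfold dbl
  rw [if_neg (by omega), show (2 * n + 1) / 2 = n by omega]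

theorem dbl_computable (X : ℕ → Bool) : Computable X ↔ Computable (dbl X) := by
  constructor
  · intro h
    have h2 : Computable (fun n : ℕ => X n.div2) := h.comp Primrec.nat_div2.to_comp
    have h3 : Computable (fun n : ℕ => !X n.div2) := Primrec.not.to_comp.comp h2
    refine (Computable.cond Primrec.nat_bodd.to_comp h3 h2).of_eq fun n => ?_
    unfold dbl
    rw [Nat.div2_val]
    rcases hb : n.bodd with _ | _
    · have : n % 2 = 0 := by rw [Nat.mod_two_of_bodd, hb]; rfl
      simp [this]
    · have : n % 2 = 1 := by rw [Nat.mod_two_of_bodd, hb]; rfl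
      simp [this]
  · intro h
    refine (h.comp Primrec.nat_double.to_comp).of_eq fun n => ?_
    exact dbl_even X n

/-- `dbl X` takes both values in every pair of places `2 n, 2 n + 1`. -/
theorem bal_dbl (X : ℕ → Bool) : Bal (dbl X) := by
  constructor
  · intro N
    rcases h : X N with _ | _
    · exact ⟨2 * N + 1, by omega, by rw [dbl_odd, h]; rfl⟩
    · exact ⟨2 * N, by omega, by rw [dbl_even, h]⟩
  · intro N
    rcases h : X N with _ | _
    · exact ⟨2 * N, by omega, by rw [dbl_even, h]⟩
    · exact ⟨2 * N + 1, by omega, by rw [dbl_odd, h]; rfl⟩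

/-- The predicate for the doubled class. -/
def RD (R : List Bool → Prop) (l : List Bool) : Prop :=
  (∀ i < l.length / 2, l.getD (2 * i + 1) false = !(l.getD (2 * i) false)) ∧
    R ((List.range (l.length / 2)).map (fun i => l.getD (2 * i) false))

/-- Computable: bounded quantifier, `Primrec.list_getD`, `Primrec.list_range`,
`Primrec.list_map`; conjunction of computable predicates (`Bool.and` of the two decisions). -/
theorem computable_RD (R : List Bool → Prop) (hR : ComputablePred R) : ComputablePred (RD R) := by
  classical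
  have hlen : Primrec (fun l : List Bool => List.range (l.length / 2)) :=
    Primrec.list_range.comp (Primrec.nat_div.comp Primrec.list_length (Primrec.const 2))
  have hget : Primrec₂ (fun (l : List Bool) (i : ℕ) => l.getD (2 * i) false) :=
    (Primrec.list_getD false).comp Primrec.fst (Primrec.nat_double.comp Primrec.snd)
  have hget' : Primrec₂ (fun (l : List Bool) (i : ℕ) => l.getD (2 * i + 1) false) :=
    (Primrec.list_getD false).comp Primrec.fst
      (Primrec.succ.comp (Primrec.nat_double.comp Primrec.snd))
  have h1 : PrimrecRel (fun (i : ℕ) (l : List Bool) =>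
      l.getD (2 * i + 1) false = !(l.getD (2 * i) false)) := by
    have : PrimrecPred (fun x : ℕ × List Bool =>
        x.2.getD (2 * x.1 + 1) false = !(x.2.getD (2 * x.1) false)) :=
      Primrec.eq.comp (hget'.comp Primrec.snd Primrec.fst)
        (Primrec.not.comp (hget.comp Primrec.snd Primrec.fst))
    exact this
  have h2 : PrimrecPred (fun l : List Bool =>
      ∀ i ∈ List.range (l.length / 2), l.getD (2 * i + 1) false = !(l.getD (2 * i) false)) :=
    (PrimrecRel.forall_mem_list h1).comp hlen Primrec.id
  have h3 : Primrec (fun l : List Bool =>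
      (List.range (l.length / 2)).map (fun i => l.getD (2 * i) false)) :=
    Primrec.list_map hlen hget
  have h4 : Computable (fun l : List Bool =>
      decide (R ((List.range (l.length / 2)).map (fun i => l.getD (2 * i) false)))) :=
    hR.decide.comp h3.to_comp
  have h5 := h2.computablePred.decide
  refine ComputablePred.computable_iff.2 ⟨_, Primrec.and.to_comp.comp h5 h4, ?_⟩
  funext l
  simp only [Bool.and_eq_true, decide_eq_true_eq, RD, List.mem_range]

theorem A3_getD (Y : ℕ → Bool) {n i : ℕ} (h : i < n) : (pre Y n).getD i false = Y i := by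
  unfold pre
  rw [List.getD_eq_getElem?_getD, List.getElem?_map, List.getElem?_range h]
  rfl

theorem A3_map (Y : ℕ → Bool) {n m : ℕ} (h : 2 * m ≤ n) :
    (List.range m).map (fun i => (pre Y n).getD (2 * i) false) = pre (fun i => Y (2 * i)) m := by
  conv_rhs => unfold pre
  apply List.map_congr_left
  intro i hi
  rw [List.mem_range] at hi
  exact A3_getD Y (by omega)

/-- `Y` is in the doubled class iff `Y = dbl X` for some `X` in the class of `R`, namely
`X i = Y (2 i)`. -/
theorem cls_RD (R : List Bool → Prop) (Y : ℕ → Bool) :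
    (∀ n, RD R (pre Y n)) ↔ ∃ X : ℕ → Bool, (∀ n, R (pre X n)) ∧ Y = dbl X := by
  constructor
  · intro h
    refine ⟨fun i => Y (2 * i), fun n => ?_, ?_⟩
    · have h1 := (h (2 * n)).2
      rw [length_pre, show 2 * n / 2 = n by omega, A3_map Y le_rfl] at h1
      exact h1
    · funext n
      unfold dbl
      split_ifs with hn
      · change Y n = Y (2 * (n / 2))
        rw [show 2 * (n / 2) = n by omega]
      · change Y n = !Y (2 * (n / 2))
        have h1 := (h (n + 1)).1 (n / 2) (by rw [length_pre]; omega)
        rw [A3_getD Y (by omega), A3_getD Y (by omega)] at h1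
        rw [show 2 * (n / 2) + 1 = n by omega] at h1
        exact h1
  · rintro ⟨X, hX, rfl⟩ n
    refine ⟨fun i hi => ?_, ?_⟩
    · rw [length_pre] at hi
      rw [A3_getD _ (by omega), A3_getD _ (by omega), dbl_odd, dbl_even]
    · rw [length_pre, A3_map _ (by omega)]
      have : (fun i => dbl X (2 * i)) = X := funext fun i => dbl_even X i
      rw [this]
      exact hX _

/-- The class of `R` is (by doubling) the class of a primitive recursive test function, all
members of which are balanced: apply `normal` to `RD R`. -/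
theorem classEquiv (R : List Bool → Prop) (hR : ComputablePred R) :
    ∃ (f : ℕ → ℕ) (_ : Primrec f) (e : Cls R ≃ {Y : ℕ → Bool // CF f Y}),
      (∀ Y, CF f Y → Bal Y) ∧ ∀ X : Cls R, (e X).1 = dbl X.1 := by
  obtain ⟨f, hf, hfX⟩ := normal (RD R) (computable_RD R hR)
  have hb : Function.Bijective (fun X : Cls R =>
      (⟨dbl X.1, (hfX _).1 ((cls_RD R _).2 ⟨X.1, X.2, rfl⟩)⟩ : {Y : ℕ → Bool // CF f Y})) := by
    constructor
    · intro X X' h
      have h1 : dbl X.1 = dbl X'.1 := congrArg Subtype.val h
      apply Subtype.ext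
      funext i
      rw [← dbl_even X.1 i, h1, dbl_even]
    · rintro ⟨Y, hY⟩
      obtain ⟨X, hX, rfl⟩ := (cls_RD R Y).1 ((hfX Y).2 hY)
      exact ⟨⟨X, hX⟩, rfl⟩
  refine ⟨f, hf, Equiv.ofBijective _ hb, ?_, fun X => rfl⟩
  intro Y hY
  obtain ⟨X, -, rfl⟩ := (cls_RD R Y).1 ((hfX Y).2 hY)
  exact bal_dbl X

end Pool.Agent.LIN.MM
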