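import Pool.Agent.LIN.M.M0

/-!
# [LIN-MB1] semantics of commands: unused registers, renaming
-/

namespace Pool.Agent.LIN.MM

namespace Cmd

variable {K K' : Type} [DecidableEq K] [DecidableEq K']

/-- Induction on `c` (`Function.update_comm`, `Function.Semiconj.iterate_right` or induction on
the number of iterations). -/
theorem sem_comm (c : Cmd K) {i : K} (h : i ∉ c.uses) (x : K → ℕ) (v : ℕ) :
    c.sem (Function.update x i v) = Function.update (c.sem x) i v := by
  induction c generalizing x v with
  | skip => rfl
  | inc j =>
    have hij : i ≠ j := fun e => h (by rw [e]; exact Set.mem_singleton j)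
    show Function.update (Function.update x i v) j (Function.update x i v j + 1) =
      Function.update (Function.update x j (x j + 1)) i v
    rw [Function.update_of_ne (Ne.symm hij), Function.update_comm hij]
  | seq c d ihc ihd =>
    have h1 : i ∉ c.uses := fun h' => h (Or.inl h')
    have h2 : i ∉ d.uses := fun h' => h (Or.inr h')
    show d.sem (c.sem (Function.update x i v)) = Function.update (d.sem (c.sem x)) i v
    rw [ihc h1, ihd h2]
  | wh j c ih =>
    have hij : i ≠ j := fun e => h (Or.inl (by rw [e]; exact Set.mem_singleton j))
    have h1 : i ∉ c.uses := fun h' => h (Or.inr h')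
    have hit : ∀ (n : ℕ) (y : K → ℕ), (c.sem)^[n] (Function.update y i v) =
        Function.update ((c.sem)^[n] y) i v := by
      intro n
      induction n with
      | zero => intro y; rfl
      | succ n ihn =>
        intro y
        rw [Function.iterate_succ_apply, Function.iterate_succ_apply, ih h1, ihn]
    show (c.sem)^[Function.update x i v j] (Function.update (Function.update x i v) j 0) =
      Function.update ((c.sem)^[x j] (Function.update x j 0)) i v
    rw [Function.update_of_ne (Ne.symm hij), Function.update_comm hij, hit]

theorem sem_of_not_mem (c : Cmd K) {i : K} (h : i ∉ c.uses) (x : K → ℕ) : c.sem x i = x i := by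
  have h1 := sem_comm c h x (x i)
  rw [Function.update_eq_self] at h1
  have h2 := congrFun h1 i
  rw [Function.update_self] at h2
  exact h2

theorem uses_map (φ : K → K') (c : Cmd K) : (c.map φ).uses = φ '' c.uses := by
  induction c with
  | skip => exact (Set.image_empty φ).symm
  | inc j => exact Set.image_singleton.symm
  | seq c d ihc ihd =>
    show (c.map φ).uses ∪ (d.map φ).uses = φ '' (c.uses ∪ d.uses)
    rw [ihc, ihd, Set.image_union]
  | wh j c ih =>
    show {φ j} ∪ (c.map φ).uses = φ '' ({j} ∪ c.uses)
    rw [ih, Set.image_union, Set.image_singleton]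

theorem WF_map {φ : K → K'} (hφ : Function.Injective φ) {c : Cmd K} (h : c.WF) :
    (c.map φ).WF := by
  induction c with
  | skip => trivial
  | inc j => trivial
  | seq c d ihc ihd => exact ⟨ihc h.1, ihd h.2⟩
  | wh j c ih =>
    refine ⟨?_, ih h.2⟩
    rw [uses_map, hφ.mem_set_image]
    exact h.1

/-- Renaming: the renamed command acts on the registers `φ i` as `c` does. -/
theorem sem_map {φ : K → K'} (hφ : Function.Injective φ) (c : Cmd K) (x : K' → ℕ) (i : K) :
    (c.map φ).sem x (φ i) = c.sem (fun j => x (φ j)) i := by
  have key : ∀ (x : K' → ℕ), (fun j => (c.map φ).sem x (φ j)) = c.sem (fun j => x (φ j)) := by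
    induction c with
    | skip => intro x; rfl
    | inc k =>
      intro x
      funext j
      show Function.update x (φ k) (x (φ k) + 1) (φ j) =
        Function.update (fun j => x (φ j)) k (x (φ k) + 1) j
      by_cases hj : j = k
      · rw [hj, Function.update_self, Function.update_self]
      · rw [Function.update_of_ne hj, Function.update_of_ne (fun e => hj (hφ e))]
    | seq c d ihc ihd =>
      intro x
      show (fun j => (d.map φ).sem ((c.map φ).sem x) (φ j)) = d.sem (c.sem fun j => x (φ j))
      rw [ihd, ihc]
    | wh k c ih =>
      intro x
      have hit : ∀ (n : ℕ) (y : K' → ℕ), (fun j => ((c.map φ).sem)^[n] y (φ j)) =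
          (c.sem)^[n] (fun j => y (φ j)) := by
        intro n
        induction n with
        | zero => intro y; rfl
        | succ n ihn =>
          intro y
          rw [Function.iterate_succ_apply, Function.iterate_succ_apply, ← ih, ← ihn]
      show (fun j => ((c.map φ).sem)^[x (φ k)] (Function.update x (φ k) 0) (φ j)) =
        (c.sem)^[x (φ k)] (Function.update (fun j => x (φ j)) k 0)
      rw [hit]
      congr 1
      funext j
      by_cases hj : j = k
      · rw [hj, Function.update_self, Function.update_self]
      · rw [Function.update_of_ne hj, Function.update_of_ne (fun e => hj (hφ e))]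
  exact congrFun (key x) i

theorem sem_map_of_not_mem {φ : K → K'} (c : Cmd K) (x : K' → ℕ) {k : K'}
    (hk : k ∉ Set.range φ) : (c.map φ).sem x k = x k := by
  apply sem_of_not_mem
  rw [uses_map]
  rintro ⟨j, -, hj⟩
  exact hk ⟨j, hj⟩

/-- The value of a loop (for a well formed command): if the loop register is positive, one
iteration can be done first. -/
theorem sem_wh_succ {i : K} {c : Cmd K} (h : i ∉ c.uses) (x : K → ℕ) (v : ℕ) (hx : x i = v + 1) :
    (wh i c).sem x = (wh i c).sem (c.sem (Function.update x i v)) := by
  have h1 : c.sem (Function.update x i v) i = v := by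
    rw [sem_of_not_mem c h, Function.update_self]
  show (c.sem)^[x i] (Function.update x i 0) =
    (c.sem)^[c.sem (Function.update x i v) i] (Function.update (c.sem (Function.update x i v)) i 0)
  rw [h1, hx, Function.iterate_succ_apply, ← sem_comm c h, Function.update_idem]

theorem sem_wh_zero {i : K} {c : Cmd K} (x : K → ℕ) (hx : x i = 0) : (wh i c).sem x = x := by
  show (c.sem)^[x i] (Function.update x i 0) = x
  rw [hx, Function.iterate_zero_apply, ← hx, Function.update_eq_self]

end Cmd

end Pool.Agent.LIN.MM
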