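import Pool.Agent.LIN.M.B1

/-!
# [LIN-MB2] copying; zero, successor, projections are computed by commands
-/

set_option linter.unusedSimpArgs false
set_option linter.unusedSectionVars false

namespace Pool.Agent.LIN.MM

namespace Cmd

variable {K : Type} [DecidableEq K]

/-- Copy the register `a` to `b` with the help of `t`. -/
def cpy (a b t : K) : Cmd K :=
  .seq (.wh b .skip) (.seq (.wh t .skip)
    (.seq (.wh a (.seq (.inc b) (.inc t))) (.wh t (.inc a))))

theorem WF_cpy {a b t : K} (hab : a ≠ b) (hat : a ≠ t) : (cpy a b t).WF := by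
  refine ⟨⟨fun h => h, trivial⟩, ⟨fun h => h, trivial⟩, ⟨?_, trivial, trivial⟩, ?_, trivial⟩
  · rintro (h | h)
    · exact hab h
    · exact hat h
  · intro h
    exact hat h.symm

theorem mb2_skip (n : ℕ) (z : K → ℕ) : ((skip : Cmd K).sem)^[n] z = z := by
  induction n with
  | zero => rfl
  | succ n ih =>
    rw [Function.iterate_succ_apply]
    exact ih

theorem mb2_inc (a : K) (n : ℕ) (z : K → ℕ) :
    ((inc a : Cmd K).sem)^[n] z = Function.update z a (z a + n) := by
  induction n with
  | zero => simp
  | succ n ih =>
    rw [Function.iterate_succ_apply', ih]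
    show Function.update (Function.update z a (z a + n)) a (Function.update z a (z a + n) a + 1) = _
    rw [Function.update_self, Function.update_idem]
    rfl

theorem mb2_inc2 {b t : K} (hbt : b ≠ t) (n : ℕ) (z : K → ℕ) :
    ((seq (inc b) (inc t) : Cmd K).sem)^[n] z =
      Function.update (Function.update z b (z b + n)) t (z t + n) := by
  induction n with
  | zero => simp
  | succ n ih =>
    rw [Function.iterate_succ_apply', ih]
    funext k
    simp only [sem]
    by_cases hk : k = t
    · subst hk
      simp [Function.update_apply, Ne.symm hbt]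
      omega
    · by_cases hk2 : k = b
      · subst hk2
        simp [Function.update_apply, hk]
        omega
      · simp [Function.update_apply, hk, hk2]

/-- The loops are iterations of updates; induction on the value of the loop register. -/
theorem sem_cpy {a b t : K} (hab : a ≠ b) (hat : a ≠ t) (hbt : b ≠ t) (x : K → ℕ) :
    (cpy a b t).sem x = Function.update (Function.update x b (x a)) t 0 := by
  have h1 : (wh b skip : Cmd K).sem x = Function.update x b 0 := mb2_skip _ _
  have h2 : (wh t skip : Cmd K).sem (Function.update x b 0) =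
      Function.update (Function.update x b 0) t 0 := mb2_skip _ _
  have h3 : ∀ y : K → ℕ, (wh a (.seq (.inc b) (.inc t)) : Cmd K).sem y =
      Function.update (Function.update (Function.update y a 0) b ((Function.update y a 0) b + y a)) t
        ((Function.update y a 0) t + y a) := fun y => mb2_inc2 hbt _ _
  have h4 : ∀ y : K → ℕ, (wh t (.inc a) : Cmd K).sem y =
      Function.update (Function.update y t 0) a ((Function.update y t 0) a + y t) :=
    fun y => mb2_inc _ _ _
  show (wh t (.inc a) : Cmd K).sem ((wh a (.seq (.inc b) (.inc t)) : Cmd K).sem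
    ((wh t skip : Cmd K).sem ((wh b skip : Cmd K).sem x))) = _
  rw [h1, h2, h3, h4]
  have hab' := Ne.symm hab
  have hat' := Ne.symm hat
  have hbt' := Ne.symm hbt
  funext k
  by_cases hka : k = a
  · subst hka
    simp [Function.update_apply, hab, hat, hbt, hab', hat', hbt']
  · by_cases hkb : k = b
    · subst hkb
      simp [Function.update_apply, hab, hat, hbt, hab', hat', hbt', hka]
    · by_cases hkt : k = t
      · subst hkt
        simp [Function.update_apply, hab, hat, hbt, hab', hat', hbt', hka, hkb]
      · simp [Function.update_apply, hab, hat, hbt, hab', hat', hbt', hka, hkb, hkt]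

end Cmd

/-- The command `wh out skip`. -/
theorem comp_zero : Computes (fun _ : List.Vector ℕ 0 => 0) := by
  refine ⟨Unit, inferInstance, inferInstance, .wh (Sum.inr none) .skip, ⟨fun h => h, trivial⟩,
    fun x => ⟨fun i => i.elim0, ?_⟩⟩
  have h1 : (Cmd.wh (Sum.inr none) .skip : Cmd (Fin 0 ⊕ Option Unit)).sem x =
      Function.update x (Sum.inr none) 0 := Cmd.mb2_skip _ _
  rw [h1, Function.update_self]

/-- `cpy (inl 0) (inr none) (inr (some ()))` and then `inc (inr none)`; `S = Unit`. -/
theorem comp_succ : Computes (fun v : List.Vector ℕ 1 => Nat.succ v.head) := by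
  refine ⟨Unit, inferInstance, inferInstance,
    .seq (Cmd.cpy (Sum.inl 0) (Sum.inr none) (Sum.inr (some ()))) (.inc (Sum.inr none)),
    ⟨Cmd.WF_cpy (by simp) (by simp), trivial⟩, fun x => ?_⟩
  have h1 : (Cmd.seq (Cmd.cpy (Sum.inl 0) (Sum.inr none) (Sum.inr (some ())))
      (.inc (Sum.inr none)) : Cmd (Fin 1 ⊕ Option Unit)).sem x =
      Function.update ((Cmd.cpy (Sum.inl 0) (Sum.inr none) (Sum.inr (some ())) :
        Cmd (Fin 1 ⊕ Option Unit)).sem x) (Sum.inr none)
        ((Cmd.cpy (Sum.inl 0) (Sum.inr none) (Sum.inr (some ())) :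
          Cmd (Fin 1 ⊕ Option Unit)).sem x (Sum.inr none) + 1) := rfl
  rw [h1, Cmd.sem_cpy (by simp) (by simp) (by simp)]
  refine ⟨fun i => ?_, ?_⟩
  · simp
  · have h2 : (List.Vector.ofFn fun i : Fin 1 => x (Sum.inl i)).head = x (Sum.inl 0) := rfl
    show _ = Nat.succ (List.Vector.ofFn fun i : Fin 1 => x (Sum.inl i)).head
    rw [h2]
    simp

theorem comp_get {n : ℕ} (i : Fin n) : Computes (fun v : List.Vector ℕ n => v.get i) := by
  refine ⟨Unit, inferInstance, inferInstance,
    Cmd.cpy (Sum.inl i) (Sum.inr none) (Sum.inr (some ())),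
    Cmd.WF_cpy (by simp) (by simp), fun x => ?_⟩
  rw [Cmd.sem_cpy (by simp) (by simp) (by simp)]
  refine ⟨fun j => ?_, ?_⟩
  · simp
  · show _ = (List.Vector.ofFn fun i => x (Sum.inl i)).get i
    rw [List.Vector.get_ofFn]
    simp

end Pool.Agent.LIN.MM
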