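import Pool.Agent.LIN.M.B2

/-!
# [LIN-MB3] composition
-/

namespace Pool.Agent.LIN.MM

/-- Sequence of the commands of a list. -/
def Cmd.seqL {K : Type} : List (Cmd K) → Cmd K
  | [] => Cmd.skip
  | c :: l => Cmd.seq c (Cmd.seqL l)

section mb3

variable {m n : ℕ} {S : Fin n → Type} {S' : Type}

/-- the scratch registers of the composition -/
abbrev mb3_T (n : ℕ) (S : Fin n → Type) (S' : Type) : Type := Fin n ⊕ ((Σ i, S i) ⊕ S')

/-- renaming of the registers of the command of `g i` -/
def mb3_phi (i : Fin n) : Fin m ⊕ Option (S i) → Fin m ⊕ Option (mb3_T n S S')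
  | Sum.inl j => Sum.inl j
  | Sum.inr none => Sum.inr (some (Sum.inl i))
  | Sum.inr (some s) => Sum.inr (some (Sum.inr (Sum.inl ⟨i, s⟩)))

/-- renaming of the registers of the command of `f` -/
def mb3_psi : Fin n ⊕ Option S' → Fin m ⊕ Option (mb3_T n S S')
  | Sum.inl i => Sum.inr (some (Sum.inl i))
  | Sum.inr none => Sum.inr none
  | Sum.inr (some s) => Sum.inr (some (Sum.inr (Sum.inr s)))

theorem mb3_phi_inj (i : Fin n) :
    Function.Injective (mb3_phi (m := m) (S := S) (S' := S') i) := by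
  rintro (a | _ | a) (b | _ | b) h
  · simpa [mb3_phi] using h
  · simp [mb3_phi] at h
  · simp [mb3_phi] at h
  · simp [mb3_phi] at h
  · rfl
  · simp [mb3_phi] at h
  · simp [mb3_phi] at h
  · simp [mb3_phi] at h
  · simpa [mb3_phi] using h

theorem mb3_psi_inj : Function.Injective (mb3_psi (m := m) (S := S) (S' := S')) := by
  rintro (a | _ | a) (b | _ | b) h
  · simpa [mb3_psi] using h
  · simp [mb3_psi] at h
  · simp [mb3_psi] at h
  · simp [mb3_psi] at h
  · rfl
  · simp [mb3_psi] at h
  · simp [mb3_psi] at h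
  · simp [mb3_psi] at h
  · simpa [mb3_psi] using h

theorem mb3_phi_range {i k : Fin n} (h : k ≠ i) :
    (Sum.inr (some (Sum.inl k)) : Fin m ⊕ Option (mb3_T n S S')) ∉
      Set.range (mb3_phi (m := m) (S := S) (S' := S') i) := by
  rintro ⟨(a | _ | a), ha⟩
  · simp [mb3_phi] at ha
  · simp [mb3_phi] at ha
    exact h ha.symm
  · simp [mb3_phi] at ha

theorem mb3_psi_range (j : Fin m) :
    (Sum.inl j : Fin m ⊕ Option (mb3_T n S S')) ∉
      Set.range (mb3_psi (m := m) (S := S) (S' := S')) := by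
  rintro ⟨(a | _ | a), ha⟩
  · simp [mb3_psi] at ha
  · simp [mb3_psi] at ha
  · simp [mb3_psi] at ha

theorem mb3_WF {K : Type} (l : List (Cmd K)) (h : ∀ c ∈ l, c.WF) : (Cmd.seqL l).WF := by
  induction l with
  | nil => trivial
  | cons c l ih =>
    exact ⟨h c (List.mem_cons_self ..), ih fun d hd => h d (List.mem_cons_of_mem _ hd)⟩

variable [∀ i, DecidableEq (S i)] [DecidableEq (mb3_T n S S')]

theorem mb3_main (g : Fin n → List.Vector ℕ m → ℕ) (c : ∀ i, Cmd (Fin m ⊕ Option (S i)))
    (hc : ∀ i, ∀ x, (∀ j, (c i).sem x (Sum.inl j) = x (Sum.inl j)) ∧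
      (c i).sem x (Sum.inr none) = g i (List.Vector.ofFn fun j => x (Sum.inl j)))
    (L : List (Fin n)) (x : Fin m ⊕ Option (mb3_T n S S') → ℕ) :
    (∀ j, (Cmd.seqL (L.map fun i => (c i).map (mb3_phi i))).sem x (Sum.inl j) = x (Sum.inl j)) ∧
    (∀ k ∈ L, (Cmd.seqL (L.map fun i => (c i).map (mb3_phi i))).sem x
      (Sum.inr (some (Sum.inl k))) = g k (List.Vector.ofFn fun j => x (Sum.inl j))) ∧
    (∀ k ∉ L, (Cmd.seqL (L.map fun i => (c i).map (mb3_phi i))).sem x
      (Sum.inr (some (Sum.inl k))) = x (Sum.inr (some (Sum.inl k)))) := by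
  induction L generalizing x with
  | nil => exact ⟨fun j => rfl, fun k hk => absurd hk (List.not_mem_nil), fun k _ => rfl⟩
  | cons i L ih =>
    have hsem : (Cmd.seqL ((i :: L).map fun i => (c i).map (mb3_phi (S' := S') i))).sem x =
        (Cmd.seqL (L.map fun i => (c i).map (mb3_phi i))).sem
          (((c i).map (mb3_phi i)).sem x) := rfl
    rw [hsem]
    obtain ⟨h1, h2, h3⟩ := ih (((c i).map (mb3_phi i)).sem x)
    have hin : ∀ j, ((c i).map (mb3_phi (S' := S') i)).sem x (Sum.inl j) = x (Sum.inl j) := by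
      intro j
      have h := Cmd.sem_map (mb3_phi_inj i) (c i) x (Sum.inl j)
      rw [(hc i _).1 j] at h
      exact h
    have hinf : (fun j => ((c i).map (mb3_phi (S' := S') i)).sem x (Sum.inl j)) =
        fun j => x (Sum.inl j) := funext hin
    refine ⟨fun j => (h1 j).trans (hin j), fun k hk => ?_, fun k hk => ?_⟩
    · by_cases hkL : k ∈ L
      · rw [h2 k hkL, hinf]
      · have hki : k = i := by
          rcases List.mem_cons.1 hk with h | h
          · exact h
          · exact absurd h hkL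
        subst hki
        rw [h3 k hkL]
        have h := Cmd.sem_map (mb3_phi_inj k) (c k) x (Sum.inr none)
        rw [(hc k _).2] at h
        exact h
    · have hki : k ≠ i := fun h => hk (h ▸ List.mem_cons_self ..)
      have hkL : k ∉ L := fun h => hk (List.mem_cons_of_mem _ h)
      rw [h3 k hkL]
      exact Cmd.sem_map_of_not_mem (c i) x (mb3_phi_range hki)

end mb3

/-- Let `S i`, `c i` be the data for `g i` and `S'`, `c'` the data for `f`. New scratch type
`T = Fin n ⊕ (Σ i, S i) ⊕ S'`. Rename `c i` by `inl j ↦ inl j`, `inr none ↦ inr (some (inl i))`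
(the register `y i`), `inr (some s) ↦ inr (some (inr (inl ⟨i, s⟩)))`; rename `c'` by
`inl i ↦ inr (some (inl i))`, `inr none ↦ inr none`, `inr (some s) ↦ inr (some (inr (inr s)))`
(both renamings are injective). The command is `seq (seqL (List.ofFn fun i => (c i).map (φ i)))
(c'.map φ')`. Invariant after the first commands `0, .., i - 1` (induction on the list
`List.finRange n` or on `i`): inputs unchanged, `y j = g j (inputs)` for `j < i`
(`Cmd.sem_map`, `Cmd.sem_map_of_not_mem`). -/
theorem comp_comp {m n : ℕ} {f : List.Vector ℕ n → ℕ} (g : Fin n → List.Vector ℕ m → ℕ)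
    (hf : Computes f) (hg : ∀ i, Computes (g i)) :
    Computes (fun a => f (List.Vector.ofFn fun i => g i a)) := by
  classical
  choose S iF iD c hWF hc using hg
  obtain ⟨S', iF', iD', c', hWF', hc'⟩ := hf
  refine ⟨mb3_T n S S', inferInstance, inferInstance,
    Cmd.seq (Cmd.seqL ((List.finRange n).map fun i => (c i).map (mb3_phi i))) (c'.map mb3_psi),
    ⟨mb3_WF _ ?_, Cmd.WF_map mb3_psi_inj hWF'⟩, ?_⟩
  · intro d hd
    obtain ⟨i, _, rfl⟩ := List.mem_map.1 hd
    exact Cmd.WF_map (mb3_phi_inj i) (hWF i)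
  · intro x
    obtain ⟨h1, h2, -⟩ := mb3_main g c hc (List.finRange n) x
    refine ⟨fun j => ?_, ?_⟩
    · show (c'.map mb3_psi).sem _ (Sum.inl j) = x (Sum.inl j)
      rw [Cmd.sem_map_of_not_mem c' _ (mb3_psi_range j)]
      exact h1 j
    · have h := Cmd.sem_map mb3_psi_inj c'
        ((Cmd.seqL ((List.finRange n).map fun i => (c i).map (mb3_phi i))).sem x) (Sum.inr none)
      rw [(hc' _).2] at h
      refine h.trans ?_
      refine congrArg f (congrArg List.Vector.ofFn ?_)
      funext i
      exact h2 i (List.mem_finRange i)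

end Pool.Agent.LIN.MM
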