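import Pool.Agent.LIN.M.B2

/-!
# [LIN-MB4] primitive recursion
-/

namespace Pool.Agent.LIN.MM

section mb4

variable {n : ℕ} {Sf Sg : Type}

/-- the register with the number of the iteration -/
def mb4_cnt : Fin (n + 1) ⊕ Option ((Sf ⊕ Sg) ⊕ Fin 4) := Sum.inr (some (Sum.inr 0))
/-- the loop register -/
def mb4_lp : Fin (n + 1) ⊕ Option ((Sf ⊕ Sg) ⊕ Fin 4) := Sum.inr (some (Sum.inr 1))
/-- a scratch register -/
def mb4_t : Fin (n + 1) ⊕ Option ((Sf ⊕ Sg) ⊕ Fin 4) := Sum.inr (some (Sum.inr 2))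
/-- the new value -/
def mb4_tmp : Fin (n + 1) ⊕ Option ((Sf ⊕ Sg) ⊕ Fin 4) := Sum.inr (some (Sum.inr 3))
/-- the output -/
def mb4_out : Fin (n + 1) ⊕ Option ((Sf ⊕ Sg) ⊕ Fin 4) := Sum.inr none

/-- the renaming of the registers of `f` -/
def mb4_phi : Fin n ⊕ Option Sf → Fin (n + 1) ⊕ Option ((Sf ⊕ Sg) ⊕ Fin 4)
  | Sum.inl i => Sum.inl i.succ
  | Sum.inr none => Sum.inr none
  | Sum.inr (some s) => Sum.inr (some (Sum.inl (Sum.inl s)))

/-- the renaming of the registers of `g` -/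
def mb4_psi : Fin (n + 2) ⊕ Option Sg → Fin (n + 1) ⊕ Option ((Sf ⊕ Sg) ⊕ Fin 4)
  | Sum.inl i => Fin.cases (motive := fun _ => Fin (n + 1) ⊕ Option ((Sf ⊕ Sg) ⊕ Fin 4)) mb4_cnt
      (fun j => Fin.cases (motive := fun _ => Fin (n + 1) ⊕ Option ((Sf ⊕ Sg) ⊕ Fin 4)) mb4_out
        (fun k => Sum.inl k.succ) j) i
  | Sum.inr none => mb4_tmp
  | Sum.inr (some s) => Sum.inr (some (Sum.inl (Sum.inr s)))

theorem mb4_phi_inj : Function.Injective (mb4_phi (n := n) (Sf := Sf) (Sg := Sg)) := by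
  rintro (i | _ | s) (i' | _ | s') h
  · have h1 : i.succ = i'.succ := Sum.inl_injective h
    rw [Fin.succ_injective _ h1]
  · exact absurd h Sum.inl_ne_inr
  · exact absurd h Sum.inl_ne_inr
  · exact absurd h Sum.inr_ne_inl
  · rfl
  · exact absurd (Sum.inr_injective h) (by intro h'; cases h')
  · exact absurd h Sum.inr_ne_inl
  · exact absurd (Sum.inr_injective h) (by intro h'; cases h')
  · have h1 := Sum.inl_injective (Sum.inl_injective (Option.some_injective _ (Sum.inr_injective h)))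
    rw [h1]

theorem mb4_psi_inj : Function.Injective (mb4_psi (n := n) (Sf := Sf) (Sg := Sg)) := by
  have hr : ∀ a b : (Sf ⊕ Sg) ⊕ Fin 4, (Sum.inr (some a) : Fin (n + 1) ⊕ Option ((Sf ⊕ Sg) ⊕ Fin 4)) =
      Sum.inr (some b) → a = b := fun a b h => Option.some_injective _ (Sum.inr_injective h)
  rintro (i | _ | s) (i' | _ | s') h
  · refine Fin.cases (fun h => ?_) (fun j h => ?_) i h
    · refine Fin.cases (fun _ => rfl) (fun j' h => ?_) i' h
      refine Fin.cases (fun h => ?_) (fun k' h => ?_) j' h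
      · exact absurd (Sum.inr_injective h) (by intro h'; cases h')
      · exact absurd h Sum.inr_ne_inl
    · refine Fin.cases (fun h => ?_) (fun k h => ?_) j h
      · refine Fin.cases (fun h => ?_) (fun j' h => ?_) i' h
        · exact absurd (Sum.inr_injective h) (by intro h'; cases h')
        · refine Fin.cases (fun _ => rfl) (fun k' h => ?_) j' h
          exact absurd h Sum.inr_ne_inl
      · refine Fin.cases (fun h => ?_) (fun j' h => ?_) i' h
        · exact absurd h Sum.inl_ne_inr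
        · refine Fin.cases (fun h => ?_) (fun k' h => ?_) j' h
          · exact absurd h Sum.inl_ne_inr
          · have h1 : k.succ = k'.succ := Sum.inl_injective h
            rw [Fin.succ_injective _ h1]
  · refine Fin.cases (fun h => ?_) (fun j h => ?_) i h
    · have h1 : (0 : Fin 4) = 3 := Sum.inr_injective (hr _ _ h)
      exact absurd h1 (by decide)
    · refine Fin.cases (fun h => ?_) (fun k h => ?_) j h
      · exact absurd (Sum.inr_injective h) (by intro h'; cases h')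
      · exact absurd h Sum.inl_ne_inr
  · refine Fin.cases (fun h => ?_) (fun j h => ?_) i h
    · exact absurd (hr _ _ h) Sum.inr_ne_inl
    · refine Fin.cases (fun h => ?_) (fun k h => ?_) j h
      · exact absurd (Sum.inr_injective h) (by intro h'; cases h')
      · exact absurd h Sum.inl_ne_inr
  · refine Fin.cases (fun h => ?_) (fun j h => ?_) i' h
    · have h1 : (3 : Fin 4) = 0 := Sum.inr_injective (hr _ _ h)
      exact absurd h1 (by decide)
    · refine Fin.cases (fun h => ?_) (fun k h => ?_) j h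
      · exact absurd (Sum.inr_injective h) (by intro h'; cases h')
      · exact absurd h Sum.inr_ne_inl
  · rfl
  · exact absurd (hr _ _ h) Sum.inr_ne_inl
  · refine Fin.cases (fun h => ?_) (fun j h => ?_) i' h
    · exact absurd (hr _ _ h) Sum.inl_ne_inr
    · refine Fin.cases (fun h => ?_) (fun k h => ?_) j h
      · exact absurd (Sum.inr_injective h) (by intro h'; cases h')
      · exact absurd h Sum.inr_ne_inl
  · exact absurd (hr _ _ h) Sum.inl_ne_inr
  · have h1 := Sum.inr_injective (Sum.inl_injective (hr _ _ h))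
    rw [h1]

theorem mb4_phi_zero : (Sum.inl 0 : Fin (n + 1) ⊕ Option ((Sf ⊕ Sg) ⊕ Fin 4)) ∉
    Set.range (mb4_phi (n := n) (Sf := Sf) (Sg := Sg)) := by
  rintro ⟨i | _ | s, h⟩
  · exact Fin.succ_ne_zero i (Sum.inl_injective h)
  · exact Sum.inr_ne_inl h
  · exact Sum.inr_ne_inl h

theorem mb4_psi_zero : (Sum.inl 0 : Fin (n + 1) ⊕ Option ((Sf ⊕ Sg) ⊕ Fin 4)) ∉
    Set.range (mb4_psi (n := n) (Sf := Sf) (Sg := Sg)) := by
  rintro ⟨i | _ | s, h⟩
  · refine Fin.cases (fun h => ?_) (fun j h => ?_) i h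
    · exact Sum.inr_ne_inl h
    · refine Fin.cases (fun h => ?_) (fun k h => ?_) j h
      · exact Sum.inr_ne_inl h
      · exact Fin.succ_ne_zero k (Sum.inl_injective h)
  · exact Sum.inr_ne_inl h
  · exact Sum.inr_ne_inl h

theorem mb4_psi_lp : (mb4_lp : Fin (n + 1) ⊕ Option ((Sf ⊕ Sg) ⊕ Fin 4)) ∉
    Set.range (mb4_psi (n := n) (Sf := Sf) (Sg := Sg)) := by
  have hr : ∀ a b : (Sf ⊕ Sg) ⊕ Fin 4, (Sum.inr (some a) : Fin (n + 1) ⊕ Option ((Sf ⊕ Sg) ⊕ Fin 4)) =
      Sum.inr (some b) → a = b := fun a b h => Option.some_injective _ (Sum.inr_injective h)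
  rintro ⟨i | _ | s, h⟩
  · refine Fin.cases (fun h => ?_) (fun j h => ?_) i h
    · have h1 : (0 : Fin 4) = 1 := Sum.inr_injective (hr _ _ h)
      exact absurd h1 (by decide)
    · refine Fin.cases (fun h => ?_) (fun k h => ?_) j h
      · exact absurd (Sum.inr_injective h) (by intro h'; cases h')
      · exact Sum.inl_ne_inr h
  · have h1 : (3 : Fin 4) = 1 := Sum.inr_injective (hr _ _ h)
    exact absurd h1 (by decide)
  · exact Sum.inl_ne_inr (hr _ _ h)

theorem mb4_ne (a b : Fin 4) (h : a ≠ b) :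
    (Sum.inr (some (Sum.inr a)) : Fin (n + 1) ⊕ Option ((Sf ⊕ Sg) ⊕ Fin 4)) ≠
      Sum.inr (some (Sum.inr b)) := fun h' =>
  h (Sum.inr_injective (Option.some_injective _ (Sum.inr_injective h')))

theorem mb4_ne_out (a : Fin 4) :
    (Sum.inr (some (Sum.inr a)) : Fin (n + 1) ⊕ Option ((Sf ⊕ Sg) ⊕ Fin 4)) ≠ Sum.inr none :=
  fun h' => absurd (Sum.inr_injective h') (by intro h''; cases h'')

theorem mb4_cpy_uses {K : Type} {a b t k : K} (h : k ∈ (Cmd.cpy a b t).uses) :
    k = a ∨ k = b ∨ k = t := by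
  simp only [Cmd.cpy, Cmd.uses, Set.mem_union, Set.mem_singleton_iff, Set.mem_empty_iff_false,
    or_false] at h
  tauto

end mb4

/-- Let `Sf`, `cf` be the data for `f` and `Sg`, `cg` the data for `g`. New scratch type
`T = (Sf ⊕ Sg) ⊕ Fin 4`, the last four are `cnt, lp, t, tmp`. Renaming of `cf`: `inl i ↦ inl i.succ`,
`inr none ↦ inr none` (the output register `out` is the accumulator), scratch to scratch; renaming
of `cg`: `inl 0 ↦ cnt`, `inl 1 ↦ out`, `inl (i + 2) ↦ inl i.succ`, `inr none ↦ tmp`, scratch to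
scratch. The command: `cf' ; wh cnt skip ; cpy (inl 0) lp t ; wh lp (cg' ; cpy tmp out t ; inc cnt)`.
Invariant after `j` iterations (induction on `j`): the inputs are unchanged, `cnt = j`, `out = rec j`
(the recursion with the tail of the inputs). `lp` does not occur in the body
(`Cmd.uses_map`, `Cmd.WF_map`). -/
theorem comp_prec {n : ℕ} {f : List.Vector ℕ n → ℕ} {g : List.Vector ℕ (n + 2) → ℕ}
    (hf : Computes f) (hg : Computes g) :
    Computes (fun v : List.Vector ℕ (n + 1) =>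
      v.head.rec (f v.tail) fun y IH => g (y ::ᵥ IH ::ᵥ v.tail)) := by
  obtain ⟨Sf, _, _, cf, wf, hf⟩ := hf
  obtain ⟨Sg, _, _, cg, wg, hg⟩ := hg
  let K := Fin (n + 1) ⊕ Option ((Sf ⊕ Sg) ⊕ Fin 4)
  let body : Cmd K := .seq (cg.map mb4_psi) (.seq (Cmd.cpy mb4_tmp mb4_out mb4_t) (.inc mb4_cnt))
  let cmd : Cmd K := .seq (cf.map mb4_phi) (.seq (.wh mb4_cnt .skip)
    (.seq (Cmd.cpy (Sum.inl 0) mb4_lp mb4_t) (.wh mb4_lp body)))
  have e1 : (mb4_tmp : K) ≠ mb4_out := mb4_ne_out 3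
  have e2 : (mb4_tmp : K) ≠ mb4_t := mb4_ne 3 2 (by decide)
  have e3 : (mb4_out : K) ≠ mb4_t := (mb4_ne_out 2).symm
  have e4 : (Sum.inl 0 : K) ≠ mb4_lp := Sum.inl_ne_inr
  have e5 : (Sum.inl 0 : K) ≠ mb4_t := Sum.inl_ne_inr
  have e6 : (mb4_lp : K) ≠ mb4_t := mb4_ne 1 2 (by decide)
  have e7 : (mb4_cnt : K) ≠ mb4_t := mb4_ne 0 2 (by decide)
  have e8 : (mb4_cnt : K) ≠ mb4_out := mb4_ne_out 0
  have e9 : (mb4_cnt : K) ≠ mb4_lp := mb4_ne 0 1 (by decide)
  have e10 : (mb4_out : K) ≠ mb4_lp := (mb4_ne_out 1).symm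
  have i1 : ∀ i, (Sum.inl i : K) ≠ mb4_lp := fun _ => Sum.inl_ne_inr
  have i2 : ∀ i, (Sum.inl i : K) ≠ mb4_t := fun _ => Sum.inl_ne_inr
  have i3 : ∀ i, (Sum.inl i : K) ≠ mb4_cnt := fun _ => Sum.inl_ne_inr
  have i4 : ∀ i, (Sum.inl i : K) ≠ mb4_out := fun _ => Sum.inl_ne_inr
  have hlp : (mb4_lp : K) ∉ body.uses := by
    intro h
    have h1 : (mb4_lp : K) ∈ (cg.map (mb4_psi (n := n) (Sf := Sf) (Sg := Sg))).uses ∪
        ((Cmd.cpy (mb4_tmp : K) mb4_out mb4_t).uses ∪ {mb4_cnt}) := h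
    rcases h1 with h1 | h1 | h1
    · rw [Cmd.uses_map] at h1
      exact mb4_psi_lp (Set.image_subset_range _ _ h1)
    · rcases mb4_cpy_uses h1 with h2 | h2 | h2
      · exact mb4_ne 1 3 (by decide) h2
      · exact e10 h2.symm
      · exact e6 h2
    · exact e9 (Set.mem_singleton_iff.1 h1).symm
  refine ⟨(Sf ⊕ Sg) ⊕ Fin 4, inferInstance, inferInstance, cmd, ?_, fun x => ?_⟩
  · refine ⟨Cmd.WF_map mb4_phi_inj wf, ⟨fun h => h, trivial⟩, Cmd.WF_cpy e4 e5, hlp,
      Cmd.WF_map mb4_psi_inj wg, Cmd.WF_cpy e1 e2, trivial⟩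
  · obtain ⟨x1, hx1⟩ : ∃ x1, x1 = (cf.map (mb4_phi (n := n) (Sf := Sf) (Sg := Sg))).sem x := ⟨_, rfl⟩
    obtain ⟨w, hw⟩ : ∃ w : List.Vector ℕ n, w = List.Vector.ofFn fun i => x (Sum.inl i.succ) :=
      ⟨_, rfl⟩
    obtain ⟨R, hR⟩ : ∃ R : ℕ → ℕ, ∀ j, R j = Nat.rec (f w) (fun y IH => g (y ::ᵥ IH ::ᵥ w)) j :=
      ⟨_, fun _ => rfl⟩
    have h1i : ∀ i, x1 (Sum.inl i) = x (Sum.inl i) := by
      intro i
      rw [hx1]
      refine Fin.cases ?_ (fun i => ?_) i
      · exact Cmd.sem_map_of_not_mem cf x mb4_phi_zero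
      · exact (Cmd.sem_map mb4_phi_inj cf x (Sum.inl i)).trans ((hf _).1 i)
    have h1o : x1 mb4_out = R 0 := by
      rw [hx1, hR, hw]
      exact (Cmd.sem_map mb4_phi_inj cf x (Sum.inr none)).trans (hf _).2
    obtain ⟨x3, hx3⟩ : ∃ x3, x3 = (Cmd.cpy (Sum.inl 0 : K) mb4_lp mb4_t).sem
        (Function.update x1 mb4_cnt 0) := ⟨_, rfl⟩
    have hfin : cmd.sem x = (body.sem)^[x3 mb4_lp] (Function.update x3 mb4_lp 0) := by
      show (Cmd.wh mb4_lp body).sem ((Cmd.cpy (Sum.inl 0 : K) mb4_lp mb4_t).sem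
        ((Cmd.wh mb4_cnt Cmd.skip).sem ((cf.map (mb4_phi (n := n) (Sf := Sf) (Sg := Sg))).sem x))) = _
      have h2 : (Cmd.wh mb4_cnt Cmd.skip).sem x1 = Function.update x1 mb4_cnt 0 := by
        show (fun y => y)^[x1 mb4_cnt] (Function.update x1 mb4_cnt 0) = _
        exact congrFun (Function.iterate_id _) _
      rw [← hx1, h2, ← hx3]
      rfl
    rw [Cmd.sem_cpy e4 e5 e6] at hx3
    have h3i : ∀ i, x3 (Sum.inl i) = x (Sum.inl i) := by
      intro i
      rw [hx3, Function.update_of_ne (i2 i), Function.update_of_ne (i1 i),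
        Function.update_of_ne (i3 i), h1i]
    have h3o : x3 mb4_out = R 0 := by
      rw [hx3, Function.update_of_ne e3, Function.update_of_ne e10,
        Function.update_of_ne e8.symm, h1o]
    have h3c : x3 mb4_cnt = 0 := by
      rw [hx3, Function.update_of_ne e7, Function.update_of_ne e9, Function.update_self]
    have h3l : x3 mb4_lp = x (Sum.inl 0) := by
      rw [hx3, Function.update_of_ne e6, Function.update_self,
        Function.update_of_ne (i3 0), h1i]
    have hstep : ∀ (j : ℕ) (y : K → ℕ), (∀ i, y (Sum.inl i) = x (Sum.inl i)) → y mb4_cnt = j →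
        y mb4_out = R j → (∀ i, body.sem y (Sum.inl i) = x (Sum.inl i)) ∧
        body.sem y mb4_cnt = j + 1 ∧ body.sem y mb4_out = R (j + 1) := by
      intro j y hy1 hy2 hy3
      obtain ⟨y1, hY1⟩ : ∃ y1, y1 = (cg.map (mb4_psi (n := n) (Sf := Sf) (Sg := Sg))).sem y :=
        ⟨_, rfl⟩
      have hb : body.sem y = Function.update (Function.update (Function.update y1 mb4_out
          (y1 mb4_tmp)) mb4_t 0) mb4_cnt (y1 mb4_cnt + 1) := by
        show (Cmd.inc (mb4_cnt : K)).sem ((Cmd.cpy (mb4_tmp : K) mb4_out mb4_t).sem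
          ((cg.map (mb4_psi (n := n) (Sf := Sf) (Sg := Sg))).sem y)) = _
        rw [← hY1, Cmd.sem_cpy e1 e2 e3]
        show Function.update (Function.update (Function.update y1 mb4_out
          (y1 mb4_tmp)) mb4_t 0) (mb4_cnt : K) (Function.update (Function.update y1 mb4_out
          (y1 mb4_tmp)) mb4_t 0 mb4_cnt + 1) = _
        rw [Function.update_of_ne e7, Function.update_of_ne e8]
      have g1 : ∀ i, y1 (Sum.inl i) = y (Sum.inl i) := by
        intro i
        rw [hY1]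
        refine Fin.cases ?_ (fun i => ?_) i
        · exact Cmd.sem_map_of_not_mem cg y mb4_psi_zero
        · exact (Cmd.sem_map mb4_psi_inj cg y (Sum.inl i.succ.succ)).trans ((hg _).1 i.succ.succ)
      have g2 : y1 mb4_cnt = y mb4_cnt := by
        rw [hY1]
        exact (Cmd.sem_map mb4_psi_inj cg y (Sum.inl 0)).trans ((hg _).1 0)
      have g3 : y1 mb4_tmp = R (j + 1) := by
        rw [hY1]
        refine (Cmd.sem_map mb4_psi_inj cg y (Sum.inr none)).trans ((hg _).2.trans ?_)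
        rw [hR]
        show _ = g (j ::ᵥ (Nat.rec (f w) (fun y IH => g (y ::ᵥ IH ::ᵥ w)) j) ::ᵥ w)
        rw [← hR]
        have h4 : (List.Vector.ofFn fun i : Fin (n + 2) =>
            y (mb4_psi (n := n) (Sf := Sf) (Sg := Sg) (Sum.inl i))) =
            y mb4_cnt ::ᵥ y mb4_out ::ᵥ List.Vector.ofFn fun i : Fin n => y (Sum.inl i.succ) := rfl
        rw [h4, hy2, hy3, hw]
        congr 3
        refine congrArg _ (funext fun i => hy1 _)
      refine ⟨fun i => ?_, ?_, ?_⟩
      · rw [hb, Function.update_of_ne (i3 i), Function.update_of_ne (i2 i),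
          Function.update_of_ne (i4 i), g1, hy1]
      · rw [hb, Function.update_self, g2, hy2]
      · rw [hb, Function.update_of_ne e8.symm, Function.update_of_ne e3, Function.update_self, g3]
    have hiter : ∀ (j : ℕ), (∀ i, (body.sem)^[j] (Function.update x3 mb4_lp 0) (Sum.inl i) =
        x (Sum.inl i)) ∧ (body.sem)^[j] (Function.update x3 mb4_lp 0) mb4_cnt = j ∧
        (body.sem)^[j] (Function.update x3 mb4_lp 0) mb4_out = R j := by
      intro j
      induction j with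
      | zero =>
        refine ⟨fun i => ?_, ?_, ?_⟩
        · show Function.update x3 mb4_lp 0 (Sum.inl i) = _
          rw [Function.update_of_ne (i1 i), h3i]
        · show Function.update x3 mb4_lp 0 mb4_cnt = 0
          rw [Function.update_of_ne e9, h3c]
        · show Function.update x3 mb4_lp 0 mb4_out = R 0
          rw [Function.update_of_ne e10, h3o]
      | succ j ih =>
        rw [Function.iterate_succ_apply']
        exact hstep j _ ih.1 ih.2.1 ih.2.2
    have hlast := hiter (x (Sum.inl 0))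
    rw [← h3l, ← hfin] at hlast
    refine ⟨hlast.1, ?_⟩
    refine hlast.2.2.trans ?_
    rw [h3l, hR, hw]
    rfl

end Pool.Agent.LIN.MM
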