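import Pool.Agent.LIN.M.M0

/-!
# [LIN] block M: the machine (definitions)

Registers: `C` = number of real rounds, `W` = the real word, `T` = auxiliary, `D` = number of the
dummy calls that remain (`0` during the real computation), `X i` = the registers of the test
program `P`, which reads `X u` and writes `X o`.

One real round (state `n`): `W := 2 W`, `X u := 2 W`, `C := C + 1`, guess (if the outcome is `true` then
`W := W + 1`, `X u := X u + 1`), run `P`, test `X o`: if positive and `D = 0`: dead. Otherwise clear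
all `X i`, go to `h`. At `h` with `D = 0`: `D := C`. At `h` with `D > 0`: `D := D - 1`.
At `L`: `D = 0`: next real round. `D = b + 1`: all `X i := b` and jump to the target number
`C mod N` of the code of `P` (or of the test of `X o`, or of the test of `D`).
-/

namespace Pool.Agent.LIN.MM

/-- The registers of the machine. -/
inductive Rg (KP : Type) : Type
  | C | W | T | D
  | X (i : KP)
deriving DecidableEq

section

variable {KP : Type} [Fintype KP] [DecidableEq KP]

/-- The register contents. -/
def rf (c w t d : ℕ) (x : KP → ℕ) : Rg KP → ℕ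
  | Rg.C => c
  | Rg.W => w
  | Rg.T => t
  | Rg.D => d
  | Rg.X i => x i

/-- Increment all `X i` for `i` in the list. -/
def incL : List KP → Cmd (Rg KP)
  | [] => Cmd.skip
  | i :: l => Cmd.seq (Cmd.inc (Rg.X i)) (incL l)

/-- Clear all `X i` for `i` in the list. -/
def clrL : List KP → Cmd (Rg KP)
  | [] => Cmd.skip
  | i :: l => Cmd.seq (Cmd.wh (Rg.X i) Cmd.skip) (clrL l)

/-- Beginning of the real round. -/
def B1 (u : KP) : Cmd (Rg KP) :=
  .seq (.wh .W (.inc .T))
    (.seq (.wh .T (.seq (.inc .W) (.seq (.inc .W) (.seq (.inc (.X u)) (.inc (.X u)))))) (.inc .C))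

/-- After the guess `true`. -/
def B2 (u : KP) : Cmd (Rg KP) := .seq (.inc .W) (.inc (.X u))

/-- The test program. -/
def B3 (P : Cmd KP) : Cmd (Rg KP) := P.map Rg.X

/-- Clear all registers of the test program. -/
noncomputable def B5 : Cmd (Rg KP) := clrL (Finset.univ : Finset KP).toList

/-- `D := C` (with `D = T = 0` at the start). -/
def B6 : Cmd (Rg KP) := .seq (.wh .C (.seq (.inc .T) (.inc .D))) (.wh .T (.inc .C))

/-- Prepare a dummy call. -/
noncomputable def B7 : Cmd (Rg KP) :=
  .seq (.wh .D (.seq (.inc .T) (incL (Finset.univ : Finset KP).toList)))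
    (.seq (.wh .T (.inc .D)) (.seq (.inc .D) (.wh .C (.inc .T))))

/-- The states of the machine; `N` is the number of the targets. -/
inductive St (P : Cmd KP) (u : KP) (N : ℕ) : Type
  | b1 (p : (B1 u).Pos)
  | g
  | b2 (p : (B2 u).Pos)
  | b3 (p : (B3 P).Pos)
  | tst
  | rA
  | b4
  | b5 (p : (B5 (KP := KP)).Pos)
  | h
  | b6 (p : (B6 (KP := KP)).Pos)
  | L
  | b7 (p : (B7 (KP := KP)).Pos)
  | z (j : Fin N)
  | y (j : Fin N)

variable (P : Cmd KP) (u o : KP) {N : ℕ} [NeZero N] (σ : Fin N → Option (Option (B3 P).Pos))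

/-- The targets of the dummy calls. -/
def tgt : Option (Option (B3 P).Pos) → St P u N
  | none => St.tst
  | some none => St.rA
  | some (some p) => St.b3 p

/-- The program. -/
noncomputable def prog : St P u N → Ins (St P u N) (Rg KP)
  | St.b1 p => (B1 u).code St.g St.b1 p
  | St.g => Ins.guess ((B3 P).entry St.tst St.b3) ((B2 u).entry ((B3 P).entry St.tst St.b3) St.b2)
  | St.b2 p => (B2 u).code ((B3 P).entry St.tst St.b3) St.b2 p
  | St.b3 p => (B3 P).code St.tst St.b3 p
  | St.tst => Ins.test (Rg.X o) (some (B5.entry St.h St.b5)) (some St.rA)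
  | St.rA => Ins.test Rg.D none (some St.b4)
  | St.b4 => Ins.inc Rg.D (B5.entry St.h St.b5)
  | St.b5 p => B5.code St.h St.b5 p
  | St.h => Ins.test Rg.D (some (B6.entry St.L St.b6)) (some St.L)
  | St.b6 p => B6.code St.L St.b6 p
  | St.L => Ins.test Rg.D (some ((B1 u).entry St.g St.b1)) (some (B7.entry (St.z 0) St.b7))
  | St.b7 p => B7.code (St.z 0) St.b7 p
  | St.z j => Ins.test Rg.T (some (tgt P u (σ j))) (some (St.y j))
  | St.y j => Ins.inc Rg.C (St.z (j + 1))

/-- The configuration at the beginning of the real round number `n`. -/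
def start (Y : ℕ → Bool) (n : ℕ) : Gf (St P u N) (Rg KP) :=
  ((B1 u).entry St.g St.b1, rf n (Wd Y n) 0 0 (fun _ => 0), n)

/-- `P` computes `f` (from `x u`, all other registers `0`, to `x o`). -/
def Tests (f : ℕ → ℕ) : Prop :=
  P.WF ∧ ∀ w : ℕ, P.sem (Function.update (fun _ => 0) u w) o = f w

end

end Pool.Agent.LIN.MM
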