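import Pool.Agent.LIN.M.B3
import Pool.Agent.LIN.M.B4
import Pool.Agent.LIN.M.D0

/-!
# [LIN-MB5] every primitive recursive function is computed by a command
-/

namespace Pool.Agent.LIN.MM

/-- Induction. -/
theorem computes_of_primrec' {n : ℕ} {f : List.Vector ℕ n → ℕ} (hf : Nat.Primrec' f) :
    Computes f := by
  induction hf with
  | zero => exact comp_zero
  | succ => exact comp_succ
  | get i => exact comp_get i
  | comp g _ _ hf hg => exact comp_comp g hf hg
  | prec _ _ hf hg => exact comp_prec hf hg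

/-- `Nat.Primrec'.of_prim` (or `Nat.Primrec'.prim_iff₁`) for `f`, then the registers are
`KP = Fin 1 ⊕ Option S`, `u = inl 0`, `o = inr none`. -/
theorem tests_of_primrec {f : ℕ → ℕ} (hf : Primrec f) :
    ∃ (KP : Type) (_ : Fintype KP) (_ : DecidableEq KP) (P : Cmd KP) (u o : KP),
      Tests P u o f := by
  obtain ⟨S, hS1, hS2, c, hW, hc⟩ := computes_of_primrec' (Nat.Primrec'.prim_iff₁.2 hf)
  refine ⟨Fin 1 ⊕ Option S, inferInstance, inferInstance, c, Sum.inl 0, Sum.inr none, hW,
    fun w => ?_⟩
  rw [(hc _).2]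
  have h1 : (List.Vector.ofFn fun i : Fin 1 =>
      Function.update (fun _ : Fin 1 ⊕ Option S => 0) (Sum.inl 0) w (Sum.inl i)).head = w := by
    rw [← List.Vector.get_zero, List.Vector.get_ofFn]
    exact Function.update_self _ _ _
  exact congrArg f h1

end Pool.Agent.LIN.MM
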