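import Pool.Agent.LIN.M.B1

/-!
# [LIN-MC1] correctness of the compilation of commands
-/

namespace Pool.Agent.LIN.MM

section

variable {Q K : Type} [DecidableEq K] {prog : Q → Ins Q K} {Y : ℕ → Bool}

theorem Go.rfl' (c : Gf Q K) : Go prog Y c c := Relation.ReflTransGen.refl

theorem Go.trans' {a b c : Gf Q K} (h : Go prog Y a b) (h' : Go prog Y b c) : Go prog Y a c :=
  Relation.ReflTransGen.trans h h'

theorem Go.one {a b : Gf Q K} (h : nxg prog Y a = some b) : Go prog Y a b :=
  Relation.ReflTransGen.single h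

theorem nxg_inc {q q' : Q} {i : K} (h : prog q = Ins.inc i q') (x : K → ℕ) (k : ℕ) :
    nxg prog Y (q, x, k) = some (q', Function.update x i (x i + 1), k) := by
  simp [nxg, h]

theorem nxg_zero {q q' : Q} {i : K} {p : Option Q} (h : prog q = Ins.test i (some q') p)
    (x : K → ℕ) (k : ℕ) (hx : x i = 0) : nxg prog Y (q, x, k) = some (q', x, k) := by
  simp [nxg, h, hx]

theorem nxg_pos {q q' : Q} {i : K} {z : Option Q} (h : prog q = Ins.test i z (some q'))
    (x : K → ℕ) (k : ℕ) (hx : x i ≠ 0) :
    nxg prog Y (q, x, k) = some (q', Function.update x i (x i - 1), k) := by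
  simp [nxg, h, hx]

/-- The loop head: from `x i = v` the head is reached again with every smaller value, finally with
the value `0` and the registers `(wh i c).sem x`. (Induction on `v`, `Cmd.sem_wh_succ`,
`Cmd.sem_of_not_mem`.) The hypothesis `body` is the correctness of the body. -/
theorem go_loop {i : K} {c : Cmd K} (hi : i ∉ c.uses) {q ent : Q} {z : Option Q}
    (hq : prog q = Ins.test i z (some ent))
    (body : ∀ (x : K → ℕ) (k : ℕ), Go prog Y (ent, x, k) (q, c.sem x, k))
    (x : K → ℕ) (k : ℕ) :
    Go prog Y (q, x, k) (q, (Cmd.wh i c).sem x, k) ∧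
      ∀ v ≤ x i, ∃ y, Go prog Y (q, x, k) (q, y, k) ∧ y i = v := by
  have key : ∀ n (x : K → ℕ), x i = n → Go prog Y (q, x, k) (q, (Cmd.wh i c).sem x, k) ∧
      ∀ v ≤ n, ∃ y, Go prog Y (q, x, k) (q, y, k) ∧ y i = v := by
    intro n
    induction n with
    | zero =>
      intro x hx
      refine ⟨?_, fun v hv => ⟨x, Go.rfl' _, by omega⟩⟩
      rw [Cmd.sem_wh_zero x hx]
      exact Go.rfl' _
    | succ n ih =>
      intro x hx
      have h1 : Go prog Y (q, x, k) (ent, Function.update x i (x i - 1), k) :=
        Go.one (nxg_pos hq x k (by omega))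
      have h2 : Go prog Y (q, x, k) (q, c.sem (Function.update x i n), k) := by
        have h3 := h1.trans' (body (Function.update x i (x i - 1)) k)
        rwa [show x i - 1 = n by omega] at h3
      have h4 : c.sem (Function.update x i n) i = n := by
        rw [Cmd.sem_of_not_mem c hi, Function.update_self]
      obtain ⟨h5, h6⟩ := ih _ h4
      refine ⟨?_, fun v hv => ?_⟩
      · rw [Cmd.sem_wh_succ hi x n hx]
        exact h2.trans' h5
      · rcases Nat.lt_or_ge n v with h | h
        · exact ⟨x, Go.rfl' _, by omega⟩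
        · obtain ⟨y, hy, hy'⟩ := h6 v h
          exact ⟨y, h2.trans' hy, hy'⟩
  obtain ⟨h1, h2⟩ := key (x i) x rfl
  exact ⟨h1, h2⟩

theorem C1_iter {i : K} {c : Cmd K} (hi : i ∉ c.uses) (n : ℕ) (y : K → ℕ) :
    (c.sem)^[n] y i = y i := by
  induction n generalizing y with
  | zero => rfl
  | succ n ih => rw [Function.iterate_succ_apply, ih, Cmd.sem_of_not_mem c hi]

theorem C1_wh_zero {i : K} {c : Cmd K} (hi : i ∉ c.uses) (x : K → ℕ) :
    (Cmd.wh i c).sem x i = 0 := by
  change (c.sem)^[x i] (Function.update x i 0) i = 0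
  rw [C1_iter hi, Function.update_self]

/-- Correctness of the compilation (induction on `c`, generalizing `ex e x k`). For `wh`: `go_loop`,
then the zero branch of the test (`(wh i c).sem x i = 0`). -/
theorem go_cmd (c : Cmd K) (hc : c.WF) (ex : Q) (e : c.Pos → Q)
    (h : ∀ p, prog (e p) = c.code ex e p) (x : K → ℕ) (k : ℕ) :
    Go prog Y (c.entry ex e, x, k) (ex, c.sem x, k) := by
  induction c generalizing ex x k with
  | skip => exact Go.rfl' _
  | inc i => exact Go.one (nxg_inc (h ()) x k)
  | seq c d ihc ihd =>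
    have h1 := ihc hc.1 (d.entry ex (fun p => e (Sum.inr p))) (fun p => e (Sum.inl p))
      (fun p => h (Sum.inl p)) x k
    have h2 := ihd hc.2 ex (fun p => e (Sum.inr p)) (fun p => h (Sum.inr p)) (c.sem x) k
    exact h1.trans' h2
  | wh i c ihc =>
    have hq : prog (e none) = Ins.test i (some ex) (some (c.entry (e none) (fun p => e (some p)))) :=
      h none
    have h1 := (go_loop hc.1 hq (fun x k => ihc hc.2 (e none) (fun p => e (some p))
      (fun p => h (some p)) x k) x k).1
    exact h1.trans' (Go.one (nxg_zero hq _ k (C1_wh_zero hc.1 x)))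

end

end Pool.Agent.LIN.MM
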