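import Pool.Agent.LIN.M.C1

/-!
# [LIN-MC2] termination from every position; visits of all positions
-/

namespace Pool.Agent.LIN.MM

section

variable {Q K : Type} [DecidableEq K] {prog : Q → Ins Q K} {Y : ℕ → Bool}

/-- From every position with arbitrary registers the exit is reached; registers that do not occur
in `c` are unchanged. Induction on `c`: for `seq c d` at a position of `c` use the induction
hypothesis for `c` and `go_cmd` for `d`; for `wh i c` at the head: `go_cmd` of `wh i c`; at a position
of the body: first to the head. (`Cmd.sem_of_not_mem`.) -/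
theorem go_pos (c : Cmd K) (hc : c.WF) (ex : Q) (e : c.Pos → Q)
    (h : ∀ p, prog (e p) = c.code ex e p) (p : c.Pos) (x : K → ℕ) (k : ℕ) :
    ∃ y, Go prog Y (e p, x, k) (ex, y, k) ∧ ∀ i ∉ c.uses, y i = x i := by
  induction c generalizing ex x with
  | skip => exact p.elim
  | inc i =>
    refine ⟨Function.update x i (x i + 1), Go.one (nxg_inc (h p) x k), fun j hj => ?_⟩
    exact Function.update_of_ne hj _ _
  | seq c d ihc ihd =>
    rcases p with p | p
    · obtain ⟨y, hy, hu⟩ := ihc hc.1 (d.entry ex fun p => e (Sum.inr p)) (fun p => e (Sum.inl p))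
        (fun p => h (Sum.inl p)) p x
      have h2 := go_cmd (prog := prog) (Y := Y) d hc.2 ex (fun p => e (Sum.inr p))
        (fun p => h (Sum.inr p)) y k
      refine ⟨d.sem y, hy.trans' h2, fun i hi => ?_⟩
      rw [Cmd.sem_of_not_mem d (fun hd => hi (Or.inr hd))]
      exact hu i fun hd => hi (Or.inl hd)
    · obtain ⟨y, hy, hu⟩ := ihd hc.2 ex (fun p => e (Sum.inr p)) (fun p => h (Sum.inr p)) p x
      exact ⟨y, hy, fun i hi => hu i fun hd => hi (Or.inr hd)⟩
  | wh i c ih =>
    rcases p with _ | p
    · refine ⟨(Cmd.wh i c).sem x, go_cmd (Cmd.wh i c) hc ex e h x k, fun j hj => ?_⟩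
      exact Cmd.sem_of_not_mem (Cmd.wh i c) hj x
    · obtain ⟨y, hy, hu⟩ := ih hc.2 (e none) (fun p => e (some p)) (fun p => h (some p)) p x
      refine ⟨(Cmd.wh i c).sem y, hy.trans' (go_cmd (Cmd.wh i c) hc ex e h y k), fun j hj => ?_⟩
      rw [Cmd.sem_of_not_mem (Cmd.wh i c) hj y]
      exact hu j fun hd => hj (Or.inr hd)

/-- If every loop is entered with a value `≥ d` (`Cmd.Big`) then every position is visited and
every loop head is visited with all values `≤ d`. Induction on `c`; `go_loop`, `go_cmd`. (For a position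
of the body of a loop: go to the first iteration, `x i ≥ 1`.) -/
theorem big_visit (d : ℕ) (c : Cmd K) (hc : c.WF) (ex : Q) (e : c.Pos → Q)
    (h : ∀ p, prog (e p) = c.code ex e p) (x : K → ℕ) (k : ℕ) (hb : c.Big d x) (p : c.Pos) :
    (∃ y, Go prog Y (c.entry ex e, x, k) (e p, y, k)) ∧
      ∀ i z q, c.code ex e p = Ins.test i z q → ∀ v ≤ d,
        ∃ y, Go prog Y (c.entry ex e, x, k) (e p, y, k) ∧ y i = v := by
  induction c generalizing ex x with
  | skip => exact p.elim
  | inc i =>
    refine ⟨⟨x, Go.rfl' _⟩, fun j z q hz => ?_⟩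
    have hz' : Ins.inc i ex = Ins.test j z q := hz
    injection hz'
  | seq c d' ihc ihd =>
    rcases p with p | p
    · exact ihc hc.1 (d'.entry ex fun p => e (Sum.inr p)) (fun p => e (Sum.inl p))
        (fun p => h (Sum.inl p)) x hb.1 p
    · have h1 := go_cmd (prog := prog) (Y := Y) c hc.1 (d'.entry ex fun p => e (Sum.inr p))
        (fun p => e (Sum.inl p)) (fun p => h (Sum.inl p)) x k
      obtain ⟨⟨y, hy⟩, h2⟩ := ihd hc.2 ex (fun p => e (Sum.inr p)) (fun p => h (Sum.inr p))
        (c.sem x) hb.2 p
      refine ⟨⟨y, h1.trans' hy⟩, fun i z q hz v hv => ?_⟩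
      obtain ⟨y', hy', hv'⟩ := h2 i z q hz v hv
      exact ⟨y', h1.trans' hy', hv'⟩
  | wh i c ih =>
    rcases p with _ | p
    · refine ⟨⟨x, Go.rfl' _⟩, fun j z q hz v hv => ?_⟩
      have hz' : Ins.test i (some ex) (some (c.entry (e none) fun p => e (some p))) =
        Ins.test j z q := hz
      have hij : i = j := by
        injection hz'
      subst hij
      exact (go_loop (prog := prog) (Y := Y) hc.1 (h none) (fun x k => go_cmd c hc.2 (e none)
        (fun p => e (some p)) (fun p => h (some p)) x k) x k).2 v (hv.trans hb.1)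
    · have h1 : Go prog Y (e none, x, k)
          (c.entry (e none) (fun p => e (some p)), Function.update x i (x i - 1), k) :=
        Go.one (nxg_pos (h none) x k (by have := hb.2.1; omega))
      obtain ⟨⟨y, hy⟩, h2⟩ := ih hc.2 (e none) (fun p => e (some p)) (fun p => h (some p))
        (Function.update x i (x i - 1)) hb.2.2 p
      refine ⟨⟨y, h1.trans' hy⟩, fun j z q hz v hv => ?_⟩
      obtain ⟨y', hy', hv'⟩ := h2 j z q hz v hv
      exact ⟨y', h1.trans' hy', hv'⟩

omit [DecidableEq K] in
/-- The code of a command contains no guess. -/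
theorem code_ne_guess (c : Cmd K) (ex : Q) (e : c.Pos → Q) (p : c.Pos) (a b : Q) :
    c.code ex e p ≠ Ins.guess a b := by
  induction c generalizing ex with
  | skip => exact p.elim
  | inc i =>
    show Ins.inc i ex ≠ Ins.guess a b
    intro hf
    injection hf
  | seq c d ihc ihd =>
    rcases p with p | p
    · exact ihc _ _ p
    · exact ihd _ _ p
  | wh i c ih =>
    rcases p with _ | p
    · show Ins.test i (some ex) (some (c.entry (e none) fun p => e (some p))) ≠ Ins.guess a b
      intro hf
      injection hf
    · exact ih _ _ p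

omit [DecidableEq K] in
/-- The registers tested by the code of a renamed command are of the form `φ i`. -/
theorem code_map_test {K' : Type} (φ : K' → K) (c : Cmd K') (ex : Q) (e : (c.map φ).Pos → Q)
    (p : (c.map φ).Pos) (i : K) (z q : Option Q) (h : (c.map φ).code ex e p = Ins.test i z q) :
    ∃ j, i = φ j := by
  induction c generalizing ex with
  | skip => exact p.elim
  | inc j =>
    have hf : Ins.inc (φ j) ex = Ins.test i z q := h
    injection hf
  | seq c d ihc ihd =>
    rcases p with p | p
    · exact ihc _ _ p h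
    · exact ihd _ _ p h
  | wh j c ih =>
    rcases p with _ | p
    · have hf : Ins.test (φ j) (some ex)
          (some ((c.map φ).entry (e none) fun p => e (some p))) = Ins.test i z q := h
      injection hf with h1
      exact ⟨j, h1.symm⟩
    · exact ih _ _ p h

end

end Pool.Agent.LIN.MM
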