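import Pool.Agent.LIN.M.D0
import Pool.Agent.LIN.M.B1

/-!
# [LIN-MD1] semantics of the blocks of the machine
-/

namespace Pool.Agent.LIN.MM

section

variable {KP : Type} [DecidableEq KP]

/-! ### updates of the register contents -/

theorem rf_C (c w t d v : ℕ) (x : KP → ℕ) :
    Function.update (rf c w t d x) Rg.C v = rf v w t d x := by
  funext r
  cases r <;> simp [Function.update, rf]

theorem rf_W (c w t d v : ℕ) (x : KP → ℕ) :
    Function.update (rf c w t d x) Rg.W v = rf c v t d x := by
  funext r
  cases r <;> simp [Function.update, rf]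

theorem rf_T (c w t d v : ℕ) (x : KP → ℕ) :
    Function.update (rf c w t d x) Rg.T v = rf c w v d x := by
  funext r
  cases r <;> simp [Function.update, rf]

theorem rf_D (c w t d v : ℕ) (x : KP → ℕ) :
    Function.update (rf c w t d x) Rg.D v = rf c w t v x := by
  funext r
  cases r <;> simp [Function.update, rf]

theorem rf_X (c w t d v : ℕ) (x : KP → ℕ) (i : KP) :
    Function.update (rf c w t d x) (Rg.X i) v = rf c w t d (Function.update x i v) := by
  funext r
  cases r <;> simp [Function.update, rf]

/-! ### lists of registers -/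

/-- `incL l` adds to `X i` the number of occurrences of `i` in `l`. -/
theorem sem_incL (l : List KP) (c w t d : ℕ) (x : KP → ℕ) :
    (incL l).sem (rf c w t d x) = rf c w t d (fun i => x i + l.count i) := by
  induction l generalizing x with
  | nil => simp [incL, Cmd.sem]
  | cons i l ih =>
    change (incL l).sem (Function.update (rf c w t d x) (Rg.X i) (x i + 1)) = _
    rw [rf_X, ih]
    congr 1
    funext j
    rw [List.count_cons]
    by_cases h : j = i
    · subst h
      simp only [Function.update_self, beq_self_eq_true, if_true]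
      ring
    · rw [Function.update_of_ne h]
      have : ¬ (i == j) = true := by simpa using fun e => h e.symm
      simp [this]

theorem uses_incL (l : List KP) : (incL l).uses = Rg.X '' {i | i ∈ l} := by
  induction l with
  | nil => simp [incL, Cmd.uses]
  | cons i l ih =>
    change {Rg.X i} ∪ (incL l).uses = _
    rw [ih]
    ext r
    simp only [Set.mem_union, Set.mem_singleton_iff, Set.mem_image, Set.mem_setOf_eq,
      List.mem_cons]
    constructor
    · rintro (h | ⟨j, hj, h⟩)
      · exact ⟨i, Or.inl rfl, h.symm⟩
      · exact ⟨j, Or.inr hj, h⟩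
    · rintro ⟨j, hj | hj, h⟩
      · left; rw [← h, hj]
      · right; exact ⟨j, hj, h⟩

theorem WF_incL (l : List KP) : (incL l).WF := by
  induction l with
  | nil => trivial
  | cons i l ih => exact ⟨trivial, ih⟩

theorem WF_clrL (l : List KP) : (clrL l).WF := by
  induction l with
  | nil => trivial
  | cons i l ih => exact ⟨⟨fun h => h, trivial⟩, ih⟩

theorem D1_clr (c w t d : ℕ) (x : KP → ℕ) (i : KP) :
    (Cmd.wh (Rg.X i) Cmd.skip).sem (rf c w t d x) = rf c w t d (Function.update x i 0) := by
  have key : ∀ n (y : Rg KP → ℕ), ((Cmd.skip : Cmd (Rg KP)).sem)^[n] y = y := by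
    intro n
    induction n with
    | zero => intro y; rfl
    | succ n ih => intro y; rw [Function.iterate_succ_apply, ih]; rfl
  change ((Cmd.skip : Cmd (Rg KP)).sem)^[_] (Function.update (rf c w t d x) (Rg.X i) 0) = _
  rw [key, rf_X]

/-- `clrL l` sets `X i := 0` for all `i` in `l`. -/
theorem sem_clrL (l : List KP) (c w t d : ℕ) (x : KP → ℕ) :
    (clrL l).sem (rf c w t d x) = rf c w t d (fun i => if i ∈ l then 0 else x i) := by
  induction l generalizing x with
  | nil => simp [clrL, Cmd.sem]
  | cons i l ih =>
    change (clrL l).sem ((Cmd.wh (Rg.X i) Cmd.skip).sem (rf c w t d x)) = _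
    rw [D1_clr, ih]
    congr 1
    funext j
    by_cases h : j = i
    · subst h
      simp
    · rw [Function.update_of_ne h]
      simp [h]

theorem big_incL (l : List KP) (n : ℕ) (x : Rg KP → ℕ) : (incL l).Big n x := by
  induction l generalizing x with
  | nil => trivial
  | cons i l ih => exact ⟨trivial, ih _⟩

/-- The list has no duplicates (`List.Nodup`), so every register is cleared only once. -/
theorem big_clrL (l : List KP) (hl : l.Nodup) (n : ℕ) (c w t d : ℕ) (x : KP → ℕ)
    (h : ∀ i ∈ l, n ≤ x i ∧ 1 ≤ x i) : (clrL l).Big n (rf c w t d x) := by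
  induction l generalizing x with
  | nil => trivial
  | cons i l ih =>
    rw [List.nodup_cons] at hl
    refine ⟨⟨(h i List.mem_cons_self).1, (h i List.mem_cons_self).2, trivial⟩, ?_⟩
    change (clrL l).Big n ((Cmd.wh (Rg.X i) Cmd.skip).sem (rf c w t d x))
    rw [D1_clr]
    apply ih hl.2
    intro j hj
    have hne : j ≠ i := fun e => hl.1 (e ▸ hj)
    rw [Function.update_of_ne hne]
    exact h j (List.mem_cons_of_mem _ hj)

end

end Pool.Agent.LIN.MM
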