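import Pool.Agent.LIN.M.D1

/-!
# [LIN-MD2] semantics of the blocks of the machine, second part
-/

namespace Pool.Agent.LIN.MM

section

variable {KP : Type} [Fintype KP] [DecidableEq KP]

omit [Fintype KP] in
theorem WF_B1 (u : KP) : (B1 u).WF := by
  simp [B1, Cmd.WF, Cmd.uses]

omit [Fintype KP] in
theorem WF_B2 (u : KP) : (B2 u).WF := ⟨trivial, trivial⟩

omit [Fintype KP] in
theorem WF_B3 {P : Cmd KP} (h : P.WF) : (B3 P).WF :=
  Cmd.WF_map (fun i j hij => by injection hij) h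

theorem WF_B5 : (B5 (KP := KP)).WF := WF_clrL _

omit [Fintype KP] [DecidableEq KP] in
theorem WF_B6 : (B6 (KP := KP)).WF := by
  simp [B6, Cmd.WF, Cmd.uses]

theorem WF_B7 : (B7 (KP := KP)).WF := by
  simp [B7, Cmd.WF, Cmd.uses, uses_incL, WF_incL]

omit [Fintype KP] in
/-- One increment of `T`. -/
theorem md2_incT (c w t d : ℕ) (x : KP → ℕ) :
    (Cmd.inc Rg.T).sem (rf c w t d x) = rf c w (t + 1) d x := rf_T c w t d (t + 1) x

omit [Fintype KP] in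
theorem md2_incC (c w t d : ℕ) (x : KP → ℕ) :
    (Cmd.inc Rg.C).sem (rf c w t d x) = rf (c + 1) w t d x := rf_C c w t d (c + 1) x

omit [Fintype KP] in
theorem md2_incW (c w t d : ℕ) (x : KP → ℕ) :
    (Cmd.inc Rg.W).sem (rf c w t d x) = rf c (w + 1) t d x := rf_W c w t d (w + 1) x

omit [Fintype KP] in
theorem md2_incD (c w t d : ℕ) (x : KP → ℕ) :
    (Cmd.inc Rg.D).sem (rf c w t d x) = rf c w t (d + 1) x := rf_D c w t d (d + 1) x

omit [Fintype KP] in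
theorem md2_incX (c w t d : ℕ) (x : KP → ℕ) (u : KP) :
    (Cmd.inc (Rg.X u)).sem (rf c w t d x) = rf c w t d (Function.update x u (x u + 1)) :=
  rf_X c w t d (x u + 1) x u

omit [Fintype KP] in
/-- Iterations of a body. -/
theorem md2_iter (b : Cmd (Rg KP)) (F : ℕ → Rg KP → ℕ) (h : ∀ n, b.sem (F n) = F (n + 1)) (n : ℕ) :
    b.sem^[n] (F 0) = F n := by
  induction n with
  | zero => rfl
  | succ n ih => rw [Function.iterate_succ_apply', ih, h]

omit [Fintype KP] in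
/-- The loop `T := W`. -/
theorem md2_wT (n w : ℕ) : (Cmd.wh Rg.W (Cmd.inc Rg.T)).sem (rf (KP := KP) n w 0 0 (fun _ => 0)) =
    rf n 0 w 0 (fun _ => 0) := by
  show (Cmd.inc Rg.T).sem^[w] (Function.update (rf n w 0 0 (fun _ => 0)) Rg.W 0) = _
  rw [rf_W]
  exact md2_iter (Cmd.inc Rg.T) (fun k => rf n 0 k 0 (fun _ => 0))
    (fun k => md2_incT n 0 k 0 _) w

omit [Fintype KP] in
/-- The loop `W := 2 T`, `X u := 2 T`. -/
theorem md2_tW (u : KP) (n w : ℕ) : (Cmd.wh Rg.T (Cmd.seq (Cmd.inc Rg.W) (Cmd.seq (Cmd.inc Rg.W)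
    (Cmd.seq (Cmd.inc (Rg.X u)) (Cmd.inc (Rg.X u)))))).sem (rf n 0 w 0 (fun _ => 0)) =
    rf n (2 * w) 0 0 (Function.update (fun _ => 0) u (2 * w)) := by
  show (Cmd.seq (Cmd.inc Rg.W) (Cmd.seq (Cmd.inc Rg.W)
    (Cmd.seq (Cmd.inc (Rg.X u)) (Cmd.inc (Rg.X u))))).sem^[w]
    (Function.update (rf n 0 w 0 (fun _ => 0)) Rg.T 0) = _
  rw [rf_T]
  have h0 : rf n 0 0 0 (fun _ => 0) =
      rf n (2 * 0) 0 0 (Function.update (fun _ : KP => 0) u (2 * 0)) := by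
    rw [Nat.mul_zero, Function.update_eq_self_iff.2 rfl]
  rw [h0]
  refine md2_iter _ (fun k => rf n (2 * k) 0 0 (Function.update (fun _ : KP => 0) u (2 * k)))
    (fun k => ?_) w
  show (Cmd.inc (Rg.X u)).sem ((Cmd.inc (Rg.X u)).sem ((Cmd.inc Rg.W).sem ((Cmd.inc Rg.W).sem
    (rf n (2 * k) 0 0 (Function.update (fun _ : KP => 0) u (2 * k)))))) = _
  rw [md2_incW, md2_incW, md2_incX, md2_incX, Function.update_self, Function.update_idem,
    Function.update_self, Function.update_idem, (by ring : 2 * k + 1 + 1 = 2 * (k + 1))]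

omit [Fintype KP] in
/-- First loop: `T := W, W := 0` (induction on `w` for arbitrary `t`); second loop: adds `2 t` to
`W` and to `X u`. -/
theorem sem_B1 (u : KP) (n w : ℕ) :
    (B1 u).sem (rf n w 0 0 (fun _ => 0)) =
      rf (n + 1) (2 * w) 0 0 (Function.update (fun _ => 0) u (2 * w)) := by
  show (Cmd.inc Rg.C).sem ((Cmd.wh Rg.T (Cmd.seq (Cmd.inc Rg.W) (Cmd.seq (Cmd.inc Rg.W)
    (Cmd.seq (Cmd.inc (Rg.X u)) (Cmd.inc (Rg.X u)))))).sem
      ((Cmd.wh Rg.W (Cmd.inc Rg.T)).sem (rf n w 0 0 (fun _ => 0)))) = _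
  rw [md2_wT, md2_tW, md2_incC]

omit [Fintype KP] in
theorem sem_B2 (u : KP) (c w : ℕ) :
    (B2 u).sem (rf c w 0 0 (Function.update (fun _ => 0) u w)) =
      rf c (w + 1) 0 0 (Function.update (fun _ => 0) u (w + 1)) := by
  show (Cmd.inc (Rg.X u)).sem ((Cmd.inc Rg.W).sem _) = _
  rw [md2_incW, md2_incX, Function.update_self, Function.update_idem]

omit [Fintype KP] in
/-- `Cmd.sem_map`, `Cmd.sem_map_of_not_mem`. -/
theorem sem_B3 (P : Cmd KP) (c w t d : ℕ) (x : KP → ℕ) :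
    (B3 P).sem (rf c w t d x) = rf c w t d (P.sem x) := by
  funext r
  cases r with
  | C => exact Cmd.sem_map_of_not_mem P _ (by simp)
  | W => exact Cmd.sem_map_of_not_mem P _ (by simp)
  | T => exact Cmd.sem_map_of_not_mem P _ (by simp)
  | D => exact Cmd.sem_map_of_not_mem P _ (by simp)
  | X i => exact Cmd.sem_map (φ := Rg.X) (fun i j hij => by injection hij) P _ i

theorem sem_B5 (c w t d : ℕ) (x : KP → ℕ) :
    (B5 (KP := KP)).sem (rf c w t d x) = rf c w t d (fun _ => 0) := by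
  unfold B5
  rw [sem_clrL]
  congr 1
  funext i
  rw [if_pos (Finset.mem_toList.2 (Finset.mem_univ i))]

omit [Fintype KP] in
/-- First loop of `B6`. -/
theorem md2_b6 (c w : ℕ) (x : KP → ℕ) :
    (Cmd.wh Rg.C (Cmd.seq (Cmd.inc Rg.T) (Cmd.inc Rg.D))).sem (rf c w 0 0 x) = rf 0 w c c x := by
  show (Cmd.seq (Cmd.inc Rg.T) (Cmd.inc Rg.D)).sem^[c]
    (Function.update (rf c w 0 0 x) Rg.C 0) = _
  rw [rf_C]
  refine md2_iter _ (fun k => rf 0 w k k x) (fun k => ?_) c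
  show (Cmd.inc Rg.D).sem ((Cmd.inc Rg.T).sem (rf 0 w k k x)) = _
  rw [md2_incT, md2_incD]

omit [Fintype KP] in
theorem sem_B6 (c w : ℕ) (x : KP → ℕ) :
    (B6 (KP := KP)).sem (rf c w 0 0 x) = rf c w 0 c x := by
  show (Cmd.wh Rg.T (Cmd.inc Rg.C)).sem
    ((Cmd.wh Rg.C (Cmd.seq (Cmd.inc Rg.T) (Cmd.inc Rg.D))).sem (rf c w 0 0 x)) = _
  rw [md2_b6]
  show (Cmd.inc Rg.C).sem^[c] (Function.update (rf 0 w c c x) Rg.T 0) = _
  rw [rf_T]
  exact md2_iter (Cmd.inc Rg.C) (fun k => rf k w 0 c x) (fun k => md2_incC k w 0 c x) c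

/-- First loop of `B7`. -/
theorem md2_b7 (c w b : ℕ) :
    (Cmd.wh Rg.D (Cmd.seq (Cmd.inc Rg.T) (incL (Finset.univ : Finset KP).toList))).sem
      (rf c w 0 b (fun _ => 0)) = rf c w b 0 (fun _ => b) := by
  show (Cmd.seq (Cmd.inc Rg.T) (incL (Finset.univ : Finset KP).toList)).sem^[b]
    (Function.update (rf c w 0 b (fun _ => 0)) Rg.D 0) = _
  rw [rf_D]
  refine md2_iter _ (fun k => rf c w k 0 (fun _ => k)) (fun k => ?_) b
  show (incL (Finset.univ : Finset KP).toList).sem ((Cmd.inc Rg.T).sem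
    (rf c w k 0 (fun _ => k))) = _
  rw [md2_incT, sem_incL]
  congr 1
  funext i
  rw [List.count_eq_one_of_mem (Finset.nodup_toList _) (Finset.mem_toList.2 (Finset.mem_univ i))]

omit [Fintype KP] in
/-- Second loop of `B7`. -/
theorem md2_b7' (c w b : ℕ) :
    (Cmd.wh Rg.T (Cmd.inc Rg.D)).sem (rf (KP := KP) c w b 0 (fun _ => b)) =
      rf c w 0 b (fun _ => b) := by
  show (Cmd.inc Rg.D).sem^[b] (Function.update (rf c w b 0 (fun _ => b)) Rg.T 0) = _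
  rw [rf_T]
  exact md2_iter (Cmd.inc Rg.D) (fun k => rf c w 0 k (fun _ => b))
    (fun k => md2_incD c w 0 k _) b

/-- After the first loop `T = b`, `X i = b` (the list `univ.toList` contains every register once). -/
theorem sem_B7 (c w b : ℕ) :
    (B7 (KP := KP)).sem (rf c w 0 b (fun _ => 0)) = rf 0 w c (b + 1) (fun _ => b) := by
  show (Cmd.wh Rg.C (Cmd.inc Rg.T)).sem ((Cmd.inc Rg.D).sem ((Cmd.wh Rg.T (Cmd.inc Rg.D)).sem
    ((Cmd.wh Rg.D (Cmd.seq (Cmd.inc Rg.T) (incL (Finset.univ : Finset KP).toList))).sem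
      (rf c w 0 b (fun _ => 0))))) = _
  rw [md2_b7, md2_b7', md2_incD]
  show (Cmd.inc Rg.T).sem^[c] (Function.update (rf c w 0 (b + 1) (fun _ => b)) Rg.C 0) = _
  rw [rf_C]
  exact md2_iter (Cmd.inc Rg.T) (fun k => rf 0 w k (b + 1) (fun _ => b))
    (fun k => md2_incT 0 w k (b + 1) _) c

omit [Fintype KP] in
theorem big_B1 (u : KP) (d n w : ℕ) (h : d ≤ w) (h1 : 1 ≤ w) :
    (B1 u).Big d (rf n w 0 0 (fun _ => 0)) := by
  refine ⟨⟨h, h1, trivial⟩, ?_, trivial⟩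
  rw [md2_wT]
  exact ⟨h, h1, trivial, trivial, trivial, trivial⟩

omit [Fintype KP] in
theorem big_B2 (u : KP) (d : ℕ) (x : Rg KP → ℕ) : (B2 u).Big d x := ⟨trivial, trivial⟩

theorem big_B5 (n c w t d : ℕ) (x : KP → ℕ) (h : ∀ i, n ≤ x i ∧ 1 ≤ x i) :
    (B5 (KP := KP)).Big n (rf c w t d x) :=
  big_clrL _ (Finset.nodup_toList _) n c w t d x fun i _ => h i

omit [Fintype KP] in
theorem big_B6 (d c w : ℕ) (x : KP → ℕ) (h : d ≤ c) (h1 : 1 ≤ c) :
    (B6 (KP := KP)).Big d (rf c w 0 0 x) := by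
  refine ⟨⟨h, h1, trivial, trivial⟩, ?_⟩
  rw [md2_b6]
  exact ⟨h, h1, trivial⟩

theorem big_B7 (d c w b : ℕ) (h : d ≤ b) (h1 : 1 ≤ b) (h' : b ≤ c) :
    (B7 (KP := KP)).Big d (rf c w 0 b (fun _ => 0)) := by
  refine ⟨⟨h, h1, trivial, big_incL _ _ _⟩, ?_⟩
  rw [md2_b7]
  refine ⟨⟨h, h1, trivial⟩, trivial, ?_⟩
  rw [md2_b7', md2_incD]
  exact ⟨h.trans h', h1.trans h', trivial⟩

/-- The registers of `B3 P` are of the form `X i` (`Cmd.uses_map`). -/
theorem uses_B3 (P : Cmd KP) : (B3 P).uses ⊆ Set.range Rg.X := by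
  unfold B3
  rw [Cmd.uses_map]
  exact Set.image_subset_range _ _

end

end Pool.Agent.LIN.MM
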