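import Pool.Agent.LIN.M.D2
import Pool.Agent.LIN.M.C2

/-!
# [LIN-ME1] the real round
-/

namespace Pool.Agent.LIN.MM

section

variable {KP : Type} [Fintype KP] [DecidableEq KP]
variable (P : Cmd KP) (u o : KP) {N : ℕ} [NeZero N] (σ : Fin N → Option (Option (B3 P).Pos))
variable (Y : ℕ → Bool)

/-- Block `B1` (`go_cmd` with `e = St.b1`, the hypothesis on `prog` holds by `rfl`; `sem_B1`). -/
theorem go_guess (n : ℕ) : Go (prog P u o σ) Y (start P u Y n)
    (St.g, rf (n + 1) (2 * Wd Y n) 0 0 (Function.update (fun _ => 0) u (2 * Wd Y n)), n) := by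
  have h1 := go_cmd (prog := prog P u o σ) (Y := Y) (B1 u) (WF_B1 u) St.g St.b1 (fun p => rfl)
    (rf n (Wd Y n) 0 0 (fun _ => 0)) n
  rw [sem_B1] at h1
  exact h1

/-- The positions of `B1` (`big_visit`, `big_B1`, `lt_Wd` is in `A1`: here `d ≤ Wd Y n`,
`1 ≤ Wd Y n`). -/
theorem go_b1 (n d : ℕ) (hd : d ≤ Wd Y n) (h1 : 1 ≤ Wd Y n) (p : (B1 u).Pos) :
    (∃ y, Go (prog P u o σ) Y (start P u Y n) (St.b1 p, y, n)) ∧
      ∀ i z q, prog P u o σ (St.b1 p) = Ins.test i z q → ∀ v ≤ d,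
        ∃ y, Go (prog P u o σ) Y (start P u Y n) (St.b1 p, y, n) ∧ y i = v :=
  big_visit (prog := prog P u o σ) (Y := Y) d (B1 u) (WF_B1 u) St.g St.b1 (fun p => rfl)
    (rf n (Wd Y n) 0 0 (fun _ => 0)) n (big_B1 u d n (Wd Y n) hd h1) p

/-- The guess `true`. -/
theorem me1_true (c : Rg KP → ℕ) (n : ℕ) (h : Y n = true) :
    Go (prog P u o σ) Y (St.g, c, n)
      ((B2 u).entry ((B3 P).entry St.tst St.b3) St.b2, c, n + 1) := by
  refine Go.one ?_
  show some (if Y n = true then (B2 u).entry ((B3 P).entry St.tst St.b3) St.b2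
    else (B3 P).entry St.tst St.b3, c, n + 1) = _
  rw [if_pos h]

/-- The guess `false`. -/
theorem me1_false (c : Rg KP → ℕ) (n : ℕ) (h : ¬ Y n = true) :
    Go (prog P u o σ) Y (St.g, c, n) ((B3 P).entry St.tst St.b3, c, n + 1) := by
  refine Go.one ?_
  show some (if Y n = true then (B2 u).entry ((B3 P).entry St.tst St.b3) St.b2
    else (B3 P).entry St.tst St.b3, c, n + 1) = _
  rw [if_neg h]

/-- Both positions of `B2` are visited if the guess is `true`. -/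
theorem go_b2 (n : ℕ) (h : Y n = true) (p : (B2 u).Pos) :
    ∃ y, Go (prog P u o σ) Y (start P u Y n) (St.b2 p, y, n + 1) := by
  obtain ⟨⟨y, hy⟩, _⟩ := big_visit (prog := prog P u o σ) (Y := Y) 0 (B2 u) (WF_B2 u)
    ((B3 P).entry St.tst St.b3) St.b2 (fun p => rfl)
    (rf (n + 1) (2 * Wd Y n) 0 0 (Function.update (fun _ => 0) u (2 * Wd Y n))) (n + 1)
    (big_B2 u 0 _) p
  exact ⟨y, ((go_guess P u o σ Y n).trans' (me1_true P u o σ Y _ n h)).trans' hy⟩

/-- The entry of `B3`. -/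
theorem me1_b3 (n : ℕ) : Go (prog P u o σ) Y (start P u Y n)
    ((B3 P).entry St.tst St.b3, rf (n + 1) (Wd Y (n + 1)) 0 0
      (Function.update (fun _ => 0) u (Wd Y (n + 1))), n + 1) := by
  by_cases h : Y n = true
  · have hW : Wd Y (n + 1) = 2 * Wd Y n + 1 := by
      show 2 * Wd Y n + (Y n).toNat = _
      rw [h]
      rfl
    have h1 := go_cmd (prog := prog P u o σ) (Y := Y) (B2 u) (WF_B2 u)
      ((B3 P).entry St.tst St.b3) St.b2 (fun p => rfl)
      (rf (n + 1) (2 * Wd Y n) 0 0 (Function.update (fun _ => 0) u (2 * Wd Y n))) (n + 1)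
    rw [sem_B2] at h1
    rw [hW]
    exact ((go_guess P u o σ Y n).trans' (me1_true P u o σ Y _ n h)).trans' h1
  · have hW : Wd Y (n + 1) = 2 * Wd Y n := by
      show 2 * Wd Y n + (Y n).toNat = _
      rw [Bool.eq_false_iff.2 h]
      rfl
    rw [hW]
    exact (go_guess P u o σ Y n).trans' (me1_false P u o σ Y _ n h)

/-- After the guess: `B2` if `Y n = true`; entry of `B3` with `W = X u = Wd Y (n + 1)`; then `B3`
(`sem_B3`). -/
theorem go_tst {f : ℕ → ℕ} (hT : Tests P u o f) (n : ℕ) :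
    ∃ x : KP → ℕ, x o = f (Wd Y (n + 1)) ∧
      Go (prog P u o σ) Y (start P u Y n) (St.tst, rf (n + 1) (Wd Y (n + 1)) 0 0 x, n + 1) := by
  refine ⟨P.sem (Function.update (fun _ => 0) u (Wd Y (n + 1))), hT.2 _, ?_⟩
  have h1 := go_cmd (prog := prog P u o σ) (Y := Y) (B3 P) (WF_B3 hT.1) St.tst St.b3
    (fun p => rfl) (rf (n + 1) (Wd Y (n + 1)) 0 0
      (Function.update (fun _ => 0) u (Wd Y (n + 1)))) (n + 1)
  rw [sem_B3] at h1
  exact (me1_b3 P u o σ Y n).trans' h1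

/-- The test fails: dead. -/
theorem go_dead (c w k : ℕ) (x : KP → ℕ) (hx : x o ≠ 0) :
    ∃ c', Go (prog P u o σ) Y (St.tst, rf c w 0 0 x, k) c' ∧ nxg (prog P u o σ) Y c' = none := by
  have h1 : nxg (prog P u o σ) Y (St.tst, rf c w 0 0 x, k) =
      some (St.rA, Function.update (rf c w 0 0 x) (Rg.X o) (rf c w 0 0 x (Rg.X o) - 1), k) :=
    nxg_pos (prog := prog P u o σ) (q := St.tst) rfl _ k hx
  rw [rf_X] at h1
  exact ⟨_, Go.one h1, rfl⟩

/-- The test succeeds: `B5`, then `h`. -/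
theorem go_h (c w k : ℕ) (x : KP → ℕ) (hx : x o = 0) :
    Go (prog P u o σ) Y (St.tst, rf c w 0 0 x, k) (St.h, rf c w 0 0 (fun _ => 0), k) := by
  have h1 : nxg (prog P u o σ) Y (St.tst, rf c w 0 0 x, k) =
      some (B5.entry St.h St.b5, rf c w 0 0 x, k) :=
    nxg_zero (prog := prog P u o σ) (q := St.tst) rfl _ k hx
  have h2 := go_cmd (prog := prog P u o σ) (Y := Y) B5 WF_B5 St.h St.b5 (fun p => rfl)
    (rf c w 0 0 x) k
  rw [sem_B5] at h2
  exact (Go.one h1).trans' h2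

/-- `h` with `D = 0`: the entry of `B6`. -/
theorem me1_h (c w k : ℕ) (x : KP → ℕ) :
    Go (prog P u o σ) Y (St.h, rf c w 0 0 x, k) (B6.entry St.L St.b6, rf c w 0 0 x, k) :=
  Go.one (nxg_zero (prog := prog P u o σ) (q := St.h) rfl _ k rfl)

/-- `h` with `D = 0`: `B6`. -/
theorem go_L0 (c w k : ℕ) :
    Go (prog P u o σ) Y (St.h, rf c w 0 0 (fun _ => 0), k) (St.L, rf c w 0 c (fun _ => 0), k) := by
  have h2 := go_cmd (prog := prog P u o σ) (Y := Y) B6 WF_B6 St.L St.b6 (fun p => rfl)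
    (rf c w 0 0 (fun _ => 0)) k
  rw [sem_B6] at h2
  exact (me1_h P u o σ Y c w k _).trans' h2

/-- The positions of `B6`. -/
theorem go_b6 (c w k d : ℕ) (hd : d ≤ c) (h1 : 1 ≤ c) (p : (B6 (KP := KP)).Pos) :
    (∃ y, Go (prog P u o σ) Y (St.h, rf c w 0 0 (fun _ => 0), k) (St.b6 p, y, k)) ∧
      ∀ i z q, prog P u o σ (St.b6 p) = Ins.test i z q → ∀ v ≤ d,
        ∃ y, Go (prog P u o σ) Y (St.h, rf c w 0 0 (fun _ => 0), k) (St.b6 p, y, k) ∧ y i = v := by
  obtain ⟨⟨y, hy⟩, h2⟩ := big_visit (prog := prog P u o σ) (Y := Y) d B6 WF_B6 St.L St.b6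
    (fun p => rfl) (rf c w 0 0 (fun _ => 0)) k (big_B6 d c w _ hd h1) p
  have h0 := me1_h P u o σ Y c w k (fun _ => 0)
  refine ⟨⟨y, h0.trans' hy⟩, fun i z q hz v hv => ?_⟩
  obtain ⟨y', hy', hv'⟩ := h2 i z q hz v hv
  exact ⟨y', h0.trans' hy', hv'⟩

end

end Pool.Agent.LIN.MM
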