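import Pool.Agent.LIN.M.E2a

/-!
# [LIN-ME2b] the dummy calls (2)
-/

namespace Pool.Agent.LIN.MM

section

variable {KP : Type} [Fintype KP] [DecidableEq KP]
variable (P : Cmd KP) (u o : KP) {N : ℕ} [NeZero N] (σ : Fin N → Option (Option (B3 P).Pos))
variable (Y : ℕ → Bool)

theorem me2b_B5 (c w d k : ℕ) (x : KP → ℕ) :
    Go (prog P u o σ) Y (B5.entry St.h St.b5, rf c w 0 d x, k)
      (St.h, rf c w 0 d (fun _ => 0), k) := by
  have h := go_cmd (prog := prog P u o σ) (Y := Y) (B5 (KP := KP)) WF_B5 St.h St.b5 (fun _ => rfl)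
    (rf c w 0 d x) k
  rw [sem_B5] at h
  exact h

theorem me2b_rA1 (c w b k : ℕ) (x : KP → ℕ) :
    Go (prog P u o σ) Y (St.rA, rf c w 0 (b + 1) x, k) (St.b4, rf c w 0 b x, k) := by
  refine Go.one ?_
  rw [nxg_pos (q' := St.b4) (i := Rg.D) (z := none) rfl _ _ (Nat.succ_ne_zero b)]
  have : rf c w 0 (b + 1) x Rg.D - 1 = b := rfl
  rw [this, rf_D]

theorem me2b_rA2 (c w b k : ℕ) (x : KP → ℕ) :
    Go (prog P u o σ) Y (St.b4, rf c w 0 b x, k) (B5.entry St.h St.b5, rf c w 0 (b + 1) x, k) := by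
  refine Go.one ?_
  have h : prog P u o σ St.b4 = Ins.inc Rg.D (B5.entry St.h St.b5) := rfl
  rw [nxg_inc h]
  have : rf c w 0 b x Rg.D + 1 = b + 1 := rfl
  rw [this, rf_D]

/-- From `rA` with `D = b + 1` to `h`: `b4` restores `D`, `B5` clears the `X i`. -/
theorem go_rA (c w b k : ℕ) (x : KP → ℕ) :
    Go (prog P u o σ) Y (St.rA, rf c w 0 (b + 1) x, k) (St.h, rf c w 0 (b + 1) (fun _ => 0), k) ∧
    (∃ y, Go (prog P u o σ) Y (St.rA, rf c w 0 (b + 1) x, k) (St.b4, y, k)) :=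
  ⟨Go.trans' (me2b_rA1 P u o σ Y c w b k x)
    (Go.trans' (me2b_rA2 P u o σ Y c w b k x) (me2b_B5 P u o σ Y c w (b + 1) k x)),
    ⟨_, me2b_rA1 P u o σ Y c w b k x⟩⟩

/-- The positions of `B5` are visited from `rA` (with all `X i = b`). -/
theorem go_b5 (c w b k : ℕ) (h1 : 1 ≤ b) (p : (B5 (KP := KP)).Pos) :
    (∃ y, Go (prog P u o σ) Y (St.rA, rf c w 0 (b + 1) (fun _ => b), k) (St.b5 p, y, k)) ∧
      ∀ i z q, prog P u o σ (St.b5 p) = Ins.test i z q → ∀ v ≤ b,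
        ∃ y, Go (prog P u o σ) Y (St.rA, rf c w 0 (b + 1) (fun _ => b), k) (St.b5 p, y, k) ∧
          y i = v := by
  have h2 := Go.trans' (me2b_rA1 P u o σ Y c w b k (fun _ => b))
    (me2b_rA2 P u o σ Y c w b k (fun _ => b))
  have h3 := big_visit (prog := prog P u o σ) (Y := Y) b (B5 (KP := KP)) WF_B5 St.h St.b5
    (fun _ => rfl) (rf c w 0 (b + 1) (fun _ => b)) k
    (big_B5 b c w 0 (b + 1) (fun _ => b) (fun _ => ⟨le_refl b, h1⟩)) p
  obtain ⟨⟨y, hy⟩, h4⟩ := h3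
  refine ⟨⟨y, Go.trans' h2 hy⟩, fun i z q hq v hv => ?_⟩
  obtain ⟨y', hy', hv'⟩ := h4 i z q hq v hv
  exact ⟨y', Go.trans' h2 hy', hv'⟩

theorem me2b_tst (c w b k : ℕ) (x : KP → ℕ) :
    Go (prog P u o σ) Y (St.tst, rf c w 0 (b + 1) x, k)
      (St.h, rf c w 0 (b + 1) (fun _ => 0), k) := by
  by_cases hx : x o = 0
  · refine Go.trans' (Go.one ?_) (me2b_B5 P u o σ Y c w (b + 1) k x)
    exact nxg_zero (q' := B5.entry St.h St.b5) (i := Rg.X o) (p := some St.rA) rfl _ _ hx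
  · refine Go.trans' (Go.one ?_)
      (go_rA P u o σ Y c w b k (Function.update x o (x o - 1))).1
    rw [nxg_pos (q' := St.rA) (i := Rg.X o) (z := some (B5.entry St.h St.b5)) rfl _ _ hx]
    have : rf c w 0 (b + 1) x (Rg.X o) - 1 = x o - 1 := rfl
    rw [this, rf_X]

/-- From every target with `D = b + 1` and arbitrary `X i` to `h` (for a position of `B3 P`: `go_pos`
with `uses_B3`, so that `C, W, T, D` are unchanged, i.e. the registers are `rf c w 0 (b+1) x'`). -/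
theorem go_exit (hP : P.WF) (s : Option (Option (B3 P).Pos)) (c w b k : ℕ) (x : KP → ℕ) :
    Go (prog P u o σ) Y (tgt P u s, rf c w 0 (b + 1) x, k)
      (St.h, rf c w 0 (b + 1) (fun _ => 0), k) := by
  match s with
  | none => exact me2b_tst P u o σ Y c w b k x
  | some none => exact (go_rA P u o σ Y c w b k x).1
  | some (some p) =>
    obtain ⟨y, hy, hu⟩ := go_pos (prog := prog P u o σ) (Y := Y) (B3 P) (WF_B3 hP) St.tst St.b3
      (fun _ => rfl) p (rf c w 0 (b + 1) x) k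
    have hn : ∀ i, i ∉ Set.range (Rg.X (KP := KP)) → y i = rf c w 0 (b + 1) x i :=
      fun i hi => hu i fun h => hi (uses_B3 P h)
    have e : y = rf c w 0 (b + 1) (fun i => y (Rg.X i)) := by
      funext i
      cases i with
      | C => exact hn _ (by rintro ⟨j, hj⟩; cases hj)
      | W => exact hn _ (by rintro ⟨j, hj⟩; cases hj)
      | T => exact hn _ (by rintro ⟨j, hj⟩; cases hj)
      | D => exact hn _ (by rintro ⟨j, hj⟩; cases hj)
      | X i => rfl
    rw [e] at hy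
    exact Go.trans' hy (me2b_tst P u o σ Y c w b k _)

/-- One dummy call. -/
theorem go_dummy (hP : P.WF) (c w b k : ℕ) :
    Go (prog P u o σ) Y (St.L, rf c w 0 (b + 1) (fun _ => 0), k)
      (St.h, rf c w 0 (b + 1) (fun _ => 0), k) ∧
    Go (prog P u o σ) Y (St.L, rf c w 0 (b + 1) (fun _ => 0), k)
      (St.L, rf c w 0 b (fun _ => 0), k) := by
  have h1 := Go.trans' (go_target P u o σ Y c w b k)
    (go_exit P u o σ Y hP (σ (Fin.ofNat N c)) c w b k (fun _ => b))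
  refine ⟨h1, Go.trans' h1 (Go.one ?_)⟩
  rw [nxg_pos (q' := St.L) (i := Rg.D) (z := some (B6.entry St.L St.b6)) rfl _ _
    (Nat.succ_ne_zero b)]
  have : rf c w 0 (b + 1) (fun _ : KP => 0) Rg.D - 1 = b := rfl
  rw [this, rf_D]

/-- All dummy calls of a round. -/
theorem go_L (hP : P.WF) (c w b k : ℕ) (hb : b ≤ c) :
    Go (prog P u o σ) Y (St.L, rf c w 0 c (fun _ => 0), k) (St.L, rf c w 0 b (fun _ => 0), k) := by
  have h : ∀ j : ℕ, Go (prog P u o σ) Y (St.L, rf c w 0 (b + j) (fun _ => 0), k)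
      (St.L, rf c w 0 b (fun _ => 0), k) := by
    intro j
    induction j with
    | zero => exact Go.rfl' _
    | succ j ih => exact Go.trans' (go_dummy P u o σ Y hP c w (b + j) k).2 ih
  have h2 := h (c - b)
  rw [Nat.add_sub_cancel' hb] at h2
  exact h2

end

end Pool.Agent.LIN.MM
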