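import Pool.Agent.LIN.M.D2
import Pool.Agent.LIN.M.C2

/-!
# [LIN-ME2a] the dummy calls (1): dispatch
-/

namespace Pool.Agent.LIN.MM

section

variable {KP : Type} [Fintype KP] [DecidableEq KP]
variable (P : Cmd KP) (u o : KP) {N : ℕ} [NeZero N] (σ : Fin N → Option (Option (B3 P).Pos))
variable (Y : ℕ → Bool)

omit [Fintype KP] in
theorem e2a_fin (j : Fin N) (i : ℕ) : j + Fin.ofNat N (i + 1) = j + Fin.ofNat N i + 1 := by
  apply Fin.ext
  have h1 : (j + Fin.ofNat N (i + 1)).val = (j.val + (i + 1) % N) % N := rfl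
  have h2 : (j + Fin.ofNat N i + 1).val = ((j.val + i % N) % N + 1 % N) % N := by
    simp [Fin.val_add]
  have h3 : (j.val + i % N + 1) % N = (j.val + 1 + i) % N := by
    rw [Nat.add_right_comm, Nat.add_mod_mod]
  rw [h1, h2, Nat.add_mod_mod, Nat.add_mod_mod, Nat.mod_add_mod, h3, Nat.add_assoc, Nat.add_comm 1 i]

omit [Fintype KP] in
theorem e2a_fin0 (j : Fin N) : j + Fin.ofNat N 0 = j := by
  apply Fin.ext
  simp

/-- The dispatch loop (induction on `i`): every cycle `z j → y j → z (j + 1)` decreases `T` and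
increases `C`. -/
theorem go_z (c w t d k : ℕ) (x : KP → ℕ) (j : Fin N) (i : ℕ) (hi : i ≤ t) :
    Go (prog P u o σ) Y (St.z j, rf c w t d x, k)
      (St.z (j + (Fin.ofNat N i)), rf (c + i) w (t - i) d x, k) := by
  induction i with
  | zero =>
    rw [e2a_fin0]
    exact Go.rfl' _
  | succ i ih =>
    refine Go.trans' (ih (by omega)) ?_
    have h1 : nxg (prog P u o σ) Y (St.z (j + Fin.ofNat N i), rf (c + i) w (t - i) d x, k) =
        some (St.y (j + Fin.ofNat N i), Function.update (rf (c + i) w (t - i) d x) Rg.T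
          ((rf (c + i) w (t - i) d x) Rg.T - 1), k) :=
      nxg_pos (z := some (tgt P u (σ (j + Fin.ofNat N i)))) rfl _ _ (by
        show t - i ≠ 0
        omega)
    rw [rf_T] at h1
    have h2 : nxg (prog P u o σ) Y (St.y (j + Fin.ofNat N i), rf (c + i) w
        ((rf (c + i) w (t - i) d x) Rg.T - 1) d x, k) =
        some (St.z (j + Fin.ofNat N i + 1), Function.update (rf (c + i) w
        ((rf (c + i) w (t - i) d x) Rg.T - 1) d x) Rg.C (c + i + 1), k) :=
      nxg_inc (prog := prog P u o σ) (q := St.y (j + Fin.ofNat N i)) rfl _ _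
    rw [rf_C] at h2
    refine Go.trans' (Go.one h1) ?_
    have h3 : (rf (c + i) w (t - i) d x) Rg.T - 1 = t - (i + 1) := by
      show t - i - 1 = t - (i + 1)
      omega
    rw [h3] at h2 ⊢
    rw [e2a_fin, ← Nat.add_assoc]
    exact Go.one h2

theorem go_y (c w t d k : ℕ) (x : KP → ℕ) (j : Fin N) (i : ℕ) (hi : i < t) :
    ∃ y, Go (prog P u o σ) Y (St.z j, rf c w t d x, k) (St.y (j + (Fin.ofNat N i)), y, k) := by
  have h1 : nxg (prog P u o σ) Y (St.z (j + Fin.ofNat N i), rf (c + i) w (t - i) d x, k) =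
      some (St.y (j + Fin.ofNat N i), Function.update (rf (c + i) w (t - i) d x) Rg.T
        ((rf (c + i) w (t - i) d x) Rg.T - 1), k) :=
    nxg_pos (z := some (tgt P u (σ (j + Fin.ofNat N i)))) rfl _ _ (by
      show t - i ≠ 0
      omega)
  exact ⟨_, Go.trans' (go_z P u o σ Y c w t d k x j i hi.le) (Go.one h1)⟩

theorem e2a_L (c w b k : ℕ) :
    Go (prog P u o σ) Y (St.L, rf c w 0 (b + 1) (fun _ => 0), k)
      (B7.entry (St.z 0) St.b7, rf c w 0 b (fun _ => 0), k) := by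
  have h1 : nxg (prog P u o σ) Y (St.L, rf c w 0 (b + 1) (fun _ => 0), k) =
      some (B7.entry (St.z 0) St.b7, Function.update (rf c w 0 (b + 1) (fun _ => 0)) Rg.D
        ((rf c w 0 (b + 1) (fun _ => 0) : Rg KP → ℕ) Rg.D - 1), k) :=
    nxg_pos (z := some ((B1 u).entry St.g St.b1)) rfl _ _ (by
      show b + 1 ≠ 0
      omega)
  rw [rf_D] at h1
  exact Go.one h1

/-- Preparation of the dummy call with the data `b`: test of `D` at `L`, block `B7`
(`go_cmd`, `sem_B7`), state `z 0`. -/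
theorem go_z0 (c w b k : ℕ) :
    Go (prog P u o σ) Y (St.L, rf c w 0 (b + 1) (fun _ => 0), k)
      (St.z 0, rf 0 w c (b + 1) (fun _ => b), k) := by
  refine Go.trans' (e2a_L P u o σ Y c w b k) ?_
  have h := go_cmd (prog := prog P u o σ) (Y := Y) (B7 (KP := KP)) WF_B7 (St.z 0) St.b7
    (fun p => rfl) (rf c w 0 b (fun _ => 0)) k
  rwa [sem_B7] at h

/-- The positions of `B7`. -/
theorem go_b7 (c w b k d : ℕ) (h : d ≤ b) (h1 : 1 ≤ b) (h' : b ≤ c) (p : (B7 (KP := KP)).Pos) :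
    (∃ y, Go (prog P u o σ) Y (St.L, rf c w 0 (b + 1) (fun _ => 0), k) (St.b7 p, y, k)) ∧
      ∀ i z q, prog P u o σ (St.b7 p) = Ins.test i z q → ∀ v ≤ d,
        ∃ y, Go (prog P u o σ) Y (St.L, rf c w 0 (b + 1) (fun _ => 0), k) (St.b7 p, y, k) ∧
          y i = v := by
  have h2 := big_visit (prog := prog P u o σ) (Y := Y) d (B7 (KP := KP)) WF_B7 (St.z 0) St.b7
    (fun p => rfl) (rf c w 0 b (fun _ => 0)) k (big_B7 d c w b h h1 h') p
  obtain ⟨⟨y, hy⟩, h3⟩ := h2
  refine ⟨⟨y, Go.trans' (e2a_L P u o σ Y c w b k) hy⟩, fun i z q hp v hv => ?_⟩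
  obtain ⟨y', hy', hv'⟩ := h3 i z q hp v hv
  exact ⟨y', Go.trans' (e2a_L P u o σ Y c w b k) hy', hv'⟩

/-- The jump: target number `c mod N`, all `X i = b`, `D = b + 1` (`go_z0`, `go_z` with `i = t = c`,
`j = 0`, then the zero branch of the test at `z`). -/
theorem go_target (c w b k : ℕ) :
    Go (prog P u o σ) Y (St.L, rf c w 0 (b + 1) (fun _ => 0), k)
      (tgt P u (σ (Fin.ofNat N c)), rf c w 0 (b + 1) (fun _ => b), k) := by
  refine Go.trans' (go_z0 P u o σ Y c w b k) ?_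
  have h1 := go_z P u o σ Y 0 w c (b + 1) k (fun _ => b) 0 c le_rfl
  rw [Nat.zero_add, Nat.sub_self, zero_add] at h1
  refine Go.trans' h1 ?_
  exact Go.one (nxg_zero (p := some (St.y (Fin.ofNat N c))) rfl _ _ rfl)

end

end Pool.Agent.LIN.MM
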