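import Pool.Agent.LIN.M.F1a

/-!
# [LIN-MF1b] the ghost counter
-/

namespace Pool.Agent.LIN.MM

section

open Classical in
/-- The number of visits of the state `g` before time `n`. -/
noncomputable def cnt {Q K : Type} (g : Q) (r : ℕ → Cf Q K) : ℕ → ℕ
  | 0 => 0
  | n + 1 => cnt g r n + if (r n).1 = g then 1 else 0

variable {Q K : Type} [DecidableEq K] {prog : Q → Ins Q K} {g a b : Q}

private theorem f1_succ (r : ℕ → Cf Q K) (n : ℕ) :
    cnt g r (n + 1) = cnt g r n ∨ cnt g r (n + 1) = cnt g r n + 1 := by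
  show cnt g r n + _ = _ ∨ cnt g r n + _ = _
  split_ifs
  · exact Or.inr rfl
  · exact Or.inl rfl

private theorem f1_succ_pos (r : ℕ → Cf Q K) {n : ℕ} (h : (r n).1 = g) :
    cnt g r (n + 1) = cnt g r n + 1 := by
  rw [cnt, if_pos h]

private theorem f1_succ_neg (r : ℕ → Cf Q K) {n : ℕ} (h : ¬ (r n).1 = g) :
    cnt g r (n + 1) = cnt g r n := by
  rw [cnt, if_neg h, Nat.add_zero]

private theorem f1_mono (r : ℕ → Cf Q K) : Monotone (cnt g r) := by
  refine monotone_nat_of_le_succ fun n => ?_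
  rcases f1_succ (g := g) r n with h | h <;> omega

private theorem f1_lt (r : ℕ → Cf Q K) {n n' : ℕ} (h : (r n).1 = g) (hn : n < n') :
    cnt g r n < cnt g r n' := by
  have h1 := f1_succ_pos r h
  have h2 : cnt g r (n + 1) ≤ cnt g r n' := f1_mono r hn
  omega

/-- `cnt` is monotone, and strictly increases after a visit: the numbers of different visits are
different. -/
theorem cnt_inj (r : ℕ → Cf Q K) {n n' : ℕ} (h : (r n).1 = g) (h' : (r n').1 = g)
    (e : cnt g r n = cnt g r n') : n = n' := by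
  rcases Nat.lt_trichotomy n n' with h1 | h1 | h1
  · have := f1_lt r h h1
    omega
  · exact h1
  · have := f1_lt r h' h1
    omega

theorem cnt_le (r : ℕ → Cf Q K) (n : ℕ) : cnt g r n ≤ n := by
  induction n with
  | zero => exact le_rfl
  | succ n ih =>
    rcases f1_succ (g := g) r n with h | h <;> omega

private theorem f1_next (r : ℕ → Cf Q K) (t : ℕ) :
    ∀ n, (r (n + t)).1 = g → ∃ n', (r n').1 = g ∧ cnt g r n' = cnt g r n := by
  induction t with
  | zero => intro n h; exact ⟨n, h, rfl⟩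
  | succ t ih =>
    intro n h
    by_cases hn : (r n).1 = g
    · exact ⟨n, hn, rfl⟩
    · have e : n + (t + 1) = n + 1 + t := by omega
      rw [e] at h
      obtain ⟨n', h1, h2⟩ := ih (n + 1) h
      exact ⟨n', h1, h2.trans (f1_succ_neg r hn)⟩

/-- If `g` is visited infinitely often then every number is the number of a visit. -/
theorem cnt_surj (r : ℕ → Cf Q K) (h : ∀ N, ∃ n ≥ N, (r n).1 = g) (k : ℕ) :
    ∃ n, (r n).1 = g ∧ cnt g r n = k := by
  have key : ∀ m, ∃ n, (r n).1 = g ∧ cnt g r n = cnt g r m := by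
    intro m
    obtain ⟨n, hn, hg⟩ := h m
    obtain ⟨t, rfl⟩ := Nat.exists_eq_add_of_le hn
    exact f1_next r t m hg
  induction k with
  | zero => exact key 0
  | succ k ih =>
    obtain ⟨n, h1, h2⟩ := ih
    obtain ⟨n', h3, h4⟩ := key (n + 1)
    exact ⟨n', h3, by rw [h4, f1_succ_pos r h1, h2]⟩

private theorem f1_step (hg : prog g = Ins.guess a b)
    (hu : ∀ q, q ≠ g → ∀ a' b', prog q ≠ Ins.guess a' b') (Y : ℕ → Bool) {c c' : Gf Q K}
    (h : nxg prog Y c = some c') :
    StepN prog (c.1, c.2.1) (c'.1, c'.2.1) ∧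
    ((c.1 = g → c'.2.2 = c.2.2 + 1) ∧ (¬ c.1 = g → c'.2.2 = c.2.2)) ∧
    (c.1 = g → c'.1 = if Y c.2.2 = true then b else a) := by
  obtain ⟨q, x, k⟩ := c
  obtain ⟨q', x', k'⟩ := c'
  unfold nxg at h
  unfold StepN
  dsimp only at h ⊢
  by_cases hq : q = g
  · subst hq
    rw [hg] at h ⊢
    dsimp only at h ⊢
    have h1 := Option.some.inj h
    have h2 : (if Y k = true then b else a) = q' := congrArg Prod.fst h1
    have h3 : x = x' := congrArg (fun c => c.2.1) h1
    have h4 : k + 1 = k' := congrArg (fun c => c.2.2) h1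
    refine ⟨⟨?_, h3.symm⟩, ⟨fun _ => h4.symm, fun h => absurd rfl h⟩, fun _ => h2.symm⟩
    by_cases hY : Y k = true
    · rw [if_pos hY] at h2; exact Or.inr h2.symm
    · rw [if_neg hY] at h2; exact Or.inl h2.symm
  · have hu' := hu q hq
    cases hp : prog q with
    | inc i p =>
      rw [hp] at h
      dsimp only at h ⊢
      have h1 := Option.some.inj h
      have h2 : p = q' := congrArg Prod.fst h1
      have h3 : Function.update x i (x i + 1) = x' := congrArg (fun c => c.2.1) h1
      have h4 : k = k' := congrArg (fun c => c.2.2) h1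
      exact ⟨⟨h2.symm, h3.symm⟩, ⟨fun h => absurd h hq, fun _ => h4.symm⟩, fun h => absurd h hq⟩
    | test i z p =>
      rw [hp] at h
      dsimp only at h ⊢
      by_cases hx : x i = 0
      · rw [if_pos hx] at h
        obtain ⟨w, hw, h1⟩ := Option.map_eq_some_iff.mp h
        have h2 : w = q' := congrArg Prod.fst h1
        have h3 : x = x' := congrArg (fun c => c.2.1) h1
        have h4 : k = k' := congrArg (fun c => c.2.2) h1
        subst h2
        exact ⟨Or.inl ⟨hx, hw, h3.symm⟩, ⟨fun h => absurd h hq, fun _ => h4.symm⟩,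
          fun h => absurd h hq⟩
      · rw [if_neg hx] at h
        obtain ⟨w, hw, h1⟩ := Option.map_eq_some_iff.mp h
        have h2 : w = q' := congrArg Prod.fst h1
        have h3 : Function.update x i (x i - 1) = x' := congrArg (fun c => c.2.1) h1
        have h4 : k = k' := congrArg (fun c => c.2.2) h1
        subst h2
        exact ⟨Or.inr ⟨Nat.pos_of_ne_zero hx, hw, h3.symm⟩,
          ⟨fun h => absurd h hq, fun _ => h4.symm⟩, fun h => absurd h hq⟩
    | guess a' b' => exact absurd hp (hu' a' b')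

/-- A run with ghost counter is a nondeterministic run, and the ghost counter is `cnt`. -/
theorem ghost_proj (hg : prog g = Ins.guess a b)
    (hu : ∀ q, q ≠ g → ∀ a' b', prog q ≠ Ins.guess a' b') (Y : ℕ → Bool) (r : ℕ → Gf Q K)
    (h0 : (r 0).2.2 = 0) (hr : ∀ m, nxg prog Y (r m) = some (r (m + 1))) :
    (∀ m, StepN prog ((r m).1, (r m).2.1) ((r (m + 1)).1, (r (m + 1)).2.1)) ∧
    (∀ m, (r m).2.2 = cnt g (fun j => ((r j).1, (r j).2.1)) m) ∧
    ∀ m, (r m).1 = g → (r (m + 1)).1 = if Y (r m).2.2 = true then b else a := by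
  refine ⟨fun m => (f1_step hg hu Y (hr m)).1, fun m => ?_, fun m => (f1_step hg hu Y (hr m)).2.2⟩
  induction m with
  | zero => exact h0
  | succ m ih =>
    obtain ⟨-, ⟨h1, h2⟩, -⟩ := f1_step hg hu Y (hr m)
    by_cases hm : (r m).1 = g
    · rw [h1 hm, ih, f1_succ_pos _ hm]
    · rw [h2 hm, ih, f1_succ_neg _ hm]

/-- Every nondeterministic run is the run of some sequence of guesses `Y`:
`Y k = true` iff there is `n` with `(r n).1 = g`, `cnt g r n = k`, `(r (n + 1)).1 = b` (`cnt_inj`). -/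
theorem ghost_lift (hg : prog g = Ins.guess a b)
    (hu : ∀ q, q ≠ g → ∀ a' b', prog q ≠ Ins.guess a' b') (r : ℕ → Cf Q K)
    (hr : ∀ m, StepN prog (r m) (r (m + 1))) :
    ∃ Y : ℕ → Bool, ∀ m, nxg prog Y ((r m).1, (r m).2, cnt g r m) =
      some ((r (m + 1)).1, (r (m + 1)).2, cnt g r (m + 1)) := by
  classical
  refine ⟨fun k => decide (∃ n, (r n).1 = g ∧ cnt g r n = k ∧ (r (n + 1)).1 = b), fun m => ?_⟩
  have hm := hr m
  unfold StepN at hm
  unfold nxg
  dsimp only
  by_cases hq : (r m).1 = g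
  · rw [hq, hg] at hm
    rw [f1_succ_pos r hq]
    rw [hq, hg]
    dsimp only at hm ⊢
    obtain ⟨h1, h2⟩ := hm
    rw [h2]
    by_cases hY : decide (∃ n, (r n).1 = g ∧ cnt g r n = cnt g r m ∧ (r (n + 1)).1 = b) = true
    · rw [if_pos hY]
      obtain ⟨n, h3, h4, h5⟩ := of_decide_eq_true hY
      have h6 : n = m := cnt_inj r h3 hq h4
      subst h6
      rw [h5]
    · rw [if_neg hY]
      have h7 : ¬ (r (m + 1)).1 = b := by
        intro h8
        exact hY (decide_eq_true ⟨m, hq, rfl, h8⟩)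
      rw [h1.resolve_right h7]
  · rw [f1_succ_neg r hq]
    cases hp : prog (r m).1 with
    | inc i p =>
      rw [hp] at hm
      dsimp only at hm ⊢
      rw [hm.1, hm.2]
    | test i z p =>
      rw [hp] at hm
      dsimp only at hm ⊢
      rcases hm with ⟨h1, h2, h3⟩ | ⟨h1, h2, h3⟩
      · rw [if_pos h1, h2, h3]
        rfl
      · rw [if_neg (Nat.pos_iff_ne_zero.mp h1), h2, h3]
        rfl
    | guess a' b' => exact absurd hp (hu _ hq a' b')

/-- The run up to time `n` depends only on the first `n` guesses. -/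
theorem ghost_cont (hg : prog g = Ins.guess a b)
    (hu : ∀ q, q ≠ g → ∀ a' b', prog q ≠ Ins.guess a' b') {Y Y' : ℕ → Bool} {r r' : ℕ → Gf Q K}
    (h0 : (r 0).2.2 = 0) (h : r 0 = r' 0) (hr : ∀ m, nxg prog Y (r m) = some (r (m + 1)))
    (hr' : ∀ m, nxg prog Y' (r' m) = some (r' (m + 1))) (n : ℕ) (hY : ∀ k < n, Y k = Y' k) :
    ∀ j ≤ n, r j = r' j := by
  intro j
  induction j with
  | zero => intro _; exact h
  | succ j ih =>
    intro hj
    have e := ih (by omega)
    have h1 := hr j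
    have h2 := hr' j
    rw [← e] at h2
    have hc : (r j).2.2 < n := by
      have h3 := (ghost_proj hg hu Y r h0 hr).2.1 j
      have h4 := cnt_le (g := g) (fun j => ((r j).1, (r j).2.1)) j
      omega
    have key : nxg prog Y (r j) = nxg prog Y' (r j) := by
      unfold nxg
      cases hp : prog (r j).1 with
      | inc i p => rfl
      | test i z p => rfl
      | guess a' b' =>
        dsimp only
        rw [hY _ hc]
    rw [key, h2] at h1
    exact (Option.some.inj h1).symm

/-- The guesses are determined by the run (if `g` is visited infinitely often). -/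
theorem ghost_inj (hab : a ≠ b) (hg : prog g = Ins.guess a b)
    (hu : ∀ q, q ≠ g → ∀ a' b', prog q ≠ Ins.guess a' b') {Y Y' : ℕ → Bool} {r r' : ℕ → Gf Q K}
    (h0 : (r 0).2.2 = 0) (h0' : (r' 0).2.2 = 0)
    (hr : ∀ m, nxg prog Y (r m) = some (r (m + 1)))
    (hr' : ∀ m, nxg prog Y' (r' m) = some (r' (m + 1)))
    (h : ∀ m, ((r m).1, (r m).2.1) = ((r' m).1, (r' m).2.1))
    (hi : ∀ N, ∃ n ≥ N, (r n).1 = g) : Y = Y' := by
  obtain ⟨-, h1, h2⟩ := ghost_proj hg hu Y r h0 hr
  obtain ⟨-, h1', h2'⟩ := ghost_proj hg hu Y' r' h0' hr'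
  have hf : (fun j => ((r j).1, (r j).2.1)) = fun j => ((r' j).1, (r' j).2.1) := funext h
  funext k
  obtain ⟨n, hn, hk⟩ := cnt_surj (fun j => ((r j).1, (r j).2.1)) hi k
  have hk1 : (r n).2.2 = k := (h1 n).trans hk
  have hk2 : (r' n).2.2 = k := by
    rw [h1' n, ← hf]
    exact hk
  have hn1 : (r n).1 = g := hn
  have hn2 : (r' n).1 = g := (congrArg Prod.fst (h n)).symm.trans hn1
  have e1 := h2 n hn1
  have e2 := h2' n hn2
  rw [hk1] at e1
  rw [hk2] at e2
  have e3 : (r (n + 1)).1 = (r' (n + 1)).1 := (Prod.ext_iff.mp (h (n + 1))).1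
  rw [e1, e2] at e3
  by_cases hy : Y k = true
  · by_cases hy' : Y' k = true
    · rw [hy, hy']
    · rw [if_pos hy, if_neg hy'] at e3
      exact absurd e3.symm hab
  · by_cases hy' : Y' k = true
    · rw [if_neg hy, if_pos hy'] at e3
      exact absurd e3 hab
    · rw [Bool.not_eq_true] at hy hy'
      rw [hy, hy']

end

end Pool.Agent.LIN.MM
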