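import Pool.Agent.LIN.M.E1
import Pool.Agent.LIN.M.E2
import Pool.Agent.LIN.M.F1
import Pool.Agent.LIN.M.A1

/-!
# [LIN-ME3] the orbits of the machine
-/

namespace Pool.Agent.LIN.MM

section

variable {KP : Type} [Fintype KP] [DecidableEq KP]
variable (P : Cmd KP) (u o : KP) {N : ℕ} [NeZero N] (σ : Fin N → Option (Option (B3 P).Pos))
variable (Y : ℕ → Bool) {f : ℕ → ℕ}

/-- Up to the dummy call number `b` (`b ≤ n + 1`) of the round `n`: `go_tst`, `go_h`, `go_L0`, `go_L`. -/
theorem go_toL (hT : Tests P u o f) (n : ℕ) (hn : f (Wd Y (n + 1)) = 0) (b : ℕ) (hb : b ≤ n + 1) :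
    Go (prog P u o σ) Y (start P u Y n)
      (St.L, rf (n + 1) (Wd Y (n + 1)) 0 b (fun _ => 0), n + 1) := by
  obtain ⟨x, hx, h1⟩ := go_tst P u o σ Y hT n
  have h2 := go_h P u o σ Y (n + 1) (Wd Y (n + 1)) (n + 1) x (hx.trans hn)
  have h3 := go_L0 P u o σ Y (n + 1) (Wd Y (n + 1)) (n + 1)
  have h4 := go_L P u o σ Y hT.1 (n + 1) (Wd Y (n + 1)) b (n + 1) hb
  exact Relation.ReflTransGen.trans h1
    (Relation.ReflTransGen.trans h2 (Relation.ReflTransGen.trans h3 h4))

theorem go_toh (hT : Tests P u o f) (n : ℕ) (hn : f (Wd Y (n + 1)) = 0) :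
    Go (prog P u o σ) Y (start P u Y n)
      (St.h, rf (n + 1) (Wd Y (n + 1)) 0 0 (fun _ => 0), n + 1) := by
  obtain ⟨x, hx, h1⟩ := go_tst P u o σ Y hT n
  have h2 := go_h P u o σ Y (n + 1) (Wd Y (n + 1)) (n + 1) x (hx.trans hn)
  exact Relation.ReflTransGen.trans h1 h2

/-- One complete round, at least one step because the ghost counters are different. -/
theorem go_round (hT : Tests P u o f) (n : ℕ) (hn : f (Wd Y (n + 1)) = 0) :
    Relation.TransGen (fun c c' => nxg (prog P u o σ) Y c = some c')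
      (start P u Y n) (start P u Y (n + 1)) := by
  have h1 := go_toL P u o σ Y hT n hn 0 (Nat.zero_le _)
  refine Relation.TransGen.tail' h1 ?_
  rfl

/-- If `Y` is in the class there is an infinite orbit through all `start P u Y n` (`orbit`). -/
theorem core_exists (hT : Tests P u o f) (hY : CF f Y) :
    ∃ (r : ℕ → Gf (St P u N) (Rg KP)), r 0 = start P u Y 0 ∧
      ∀ m, nxg (prog P u o σ) Y (r m) = some (r (m + 1)) := by
  obtain ⟨r, τ, h0, h1, _, _⟩ := orbit (nxg (prog P u o σ) Y) (start P u Y)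
    (fun n => go_round P u o σ Y hT n (hY n))
  exact ⟨r, h0, h1⟩

/-- [LIN-ME3] the test succeeds on an infinite orbit -/
theorem me3_zero (hT : Tests P u o f) (r : ℕ → Gf (St P u N) (Rg KP))
    (hr : ∀ m, nxg (prog P u o σ) Y (r m) = some (r (m + 1))) {m n : ℕ}
    (h : r m = start P u Y n) : f (Wd Y (n + 1)) = 0 := by
  by_contra hne
  obtain ⟨x, hx, h1⟩ := go_tst P u o σ Y hT n
  obtain ⟨c', h2, h3⟩ := go_dead P u o σ Y (n + 1) (Wd Y (n + 1)) (n + 1) x (by rw [hx]; exact hne)
  have h4 : Relation.ReflTransGen (fun c c' => nxg (prog P u o σ) Y c = some c') (r m) c' := by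
    rw [h]
    exact Relation.ReflTransGen.trans h1 h2
  obtain ⟨t, ht⟩ := orbit_hit hr h4
  have h5 := hr (m + t)
  rw [ht, h3] at h5
  exact absurd h5.symm (Option.some_ne_none _)

/-- [LIN-ME3] the orbit goes through all starting configurations -/
theorem me3_key (hT : Tests P u o f) (r : ℕ → Gf (St P u N) (Rg KP))
    (h0 : r 0 = start P u Y 0) (hr : ∀ m, nxg (prog P u o σ) Y (r m) = some (r (m + 1)))
    (n : ℕ) : ∃ m, r m = start P u Y n := by
  induction n with
  | zero => exact ⟨0, h0⟩
  | succ n ih =>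
    obtain ⟨m, hm⟩ := ih
    have h1 := go_round P u o σ Y hT n (me3_zero P u o σ Y hT r hr hm)
    have h2 := h1.to_reflTransGen
    rw [← hm] at h2
    obtain ⟨t, ht⟩ := orbit_hit hr h2
    exact ⟨m + t, ht⟩

/-- [LIN-ME3] one step increases the ghost counter by at most one -/
theorem me3_ghost {Q K : Type} [DecidableEq K] (prog : Q → Ins Q K) (Y : ℕ → Bool) (c c' : Gf Q K)
    (h : nxg prog Y c = some c') : c'.2.2 ≤ c.2.2 + 1 := by
  unfold nxg at h
  cases hp : prog c.1 with
  | inc i q =>
    rw [hp] at h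
    have h1 := Option.some.inj h
    rw [← h1]
    exact Nat.le_succ _
  | test i z p =>
    rw [hp] at h
    simp only at h
    split_ifs at h with hi
    · cases z with
      | none => exact absurd h.symm (Option.some_ne_none _)
      | some q =>
        have h1 := Option.some.inj h
        rw [← h1]
        exact Nat.le_succ _
    · cases p with
      | none => exact absurd h.symm (Option.some_ne_none _)
      | some q =>
        have h1 := Option.some.inj h
        rw [← h1]
        exact Nat.le_succ _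
  | guess a b =>
    rw [hp] at h
    have h1 := Option.some.inj h
    rw [← h1]

/-- An infinite orbit shows that `Y` is in the class: by (strong) induction on `n` the orbit goes
through `start P u Y n` and `f (Wd Y (n + 1)) = 0`, otherwise `go_tst` and `go_dead` give a dead
configuration on the orbit (`orbit_hit`). -/
theorem core_class (hT : Tests P u o f) (r : ℕ → Gf (St P u N) (Rg KP))
    (h0 : r 0 = start P u Y 0) (hr : ∀ m, nxg (prog P u o σ) Y (r m) = some (r (m + 1))) :
    CF f Y := by
  intro n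
  obtain ⟨m, hm⟩ := me3_key P u o σ Y hT r h0 hr n
  exact me3_zero P u o σ Y hT r hr hm

/-- Everything that is reached from `start P u Y n` for arbitrarily large `n` occurs infinitely often
on the orbit: `r` goes through `start P u Y n` at a time `≥ n` (the ghost counter of `start P u Y n` is
`n` and `(r m).2.2 ≤ m`). -/
theorem hit_inf (hT : Tests P u o f) (hY : CF f Y) (r : ℕ → Gf (St P u N) (Rg KP))
    (h0 : r 0 = start P u Y 0) (hr : ∀ m, nxg (prog P u o σ) Y (r m) = some (r (m + 1)))
    (Pr : Gf (St P u N) (Rg KP) → Prop)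
    (h : ∀ M, ∃ n ≥ M, ∃ c, Go (prog P u o σ) Y (start P u Y n) c ∧ Pr c) :
    ∀ M, ∃ m ≥ M, Pr (r m) := by
  intro M
  obtain ⟨n, hn, c, hc, hPc⟩ := h M
  obtain ⟨m, hm⟩ := me3_key P u o σ Y hT r h0 hr n
  have hg : ∀ j, (r j).2.2 ≤ j := by
    intro j
    induction j with
    | zero => rw [h0]; exact le_refl _
    | succ j ih => exact (me3_ghost _ Y _ _ (hr j)).trans (Nat.succ_le_succ ih)
  have h1 : n ≤ m := by
    have h2 := hg m
    rw [hm] at h2
    exact h2
  have h3 : Relation.ReflTransGen (fun c c' => nxg (prog P u o σ) Y c = some c') (r m) c := by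
    rw [hm]
    exact hc
  obtain ⟨t, ht⟩ := orbit_hit hr h3
  exact ⟨m + t, by omega, by rw [ht]; exact hPc⟩

end

end Pool.Agent.LIN.MM
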