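import Pool.Agent.LIN.M.E4a

/-!
# [LIN-ME4c] richness of the machine, state by state (3)
-/

namespace Pool.Agent.LIN.MM

section

variable {KP : Type} [Fintype KP] [DecidableEq KP]

variable (P : Cmd KP) (u o : KP) {N : ℕ} [NeZero N] (σ : Fin N → Option (Option (B3 P).Pos))
variable (Y : ℕ → Bool) {f : ℕ → ℕ}

/-- from a hit for every value to the richness condition -/
theorem me4c_block {q : St P u N} {i : Rg KP} {z p : Option (St P u N)}
    (hq : prog P u o σ q = Ins.test i z p)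
    (h : ∀ v, Hit P u o σ Y (fun c => c.1 = q ∧ c.2.1 i = v)) : Ok P u o σ Y q := by
  apply ok_of_block
  · intro a b e
    rw [hq] at e
    cases e
  · intro M
    obtain ⟨n, hn, c, hc, h1, -⟩ := h 0 M
    exact ⟨n, hn, c, hc, h1⟩
  · intro i' z' p' e v
    rw [hq] at e
    cases e
    exact h v

theorem me4c_h (hT : Tests P u o f) (hY : CF f Y) (v : ℕ) :
    Hit P u o σ Y (fun c => c.1 = St.h ∧ c.2.1 Rg.D = v) := by
  intro M
  cases v with
  | zero => exact ⟨M, le_rfl, _, go_toh P u o σ Y hT M (hY M), rfl, rfl⟩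
  | succ v =>
    exact ⟨M + v + 1, by omega, _,
      (go_toL P u o σ Y hT (M + v + 1) (hY _) (v + 1) (by omega)).trans'
        (go_dummy P u o σ Y hT.1 _ _ v _).1, rfl, rfl⟩

theorem me4c_z (hT : Tests P u o f) (hY : CF f Y) (j : Fin N) (v : ℕ) :
    Hit P u o σ Y (fun c => c.1 = St.z j ∧ c.2.1 Rg.T = v) := by
  intro M
  have hN : 0 < N := Nat.pos_of_ne_zero (NeZero.ne N)
  obtain ⟨i, hi⟩ : ∃ i, i = j.val + N * (M + 1) := ⟨_, rfl⟩
  have hiM : M + 1 ≤ i := by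
    rw [hi]
    calc M + 1 = 1 * (M + 1) := (one_mul _).symm
      _ ≤ N * (M + 1) := Nat.mul_le_mul_right _ hN
      _ ≤ j.val + N * (M + 1) := Nat.le_add_left _ _
  obtain ⟨n, hn⟩ : ∃ n, n + 1 = v + i := ⟨v + i - 1, by omega⟩
  have hj : (0 : Fin N) + Fin.ofNat N i = j := by
    rw [zero_add]
    apply Fin.ext
    show i % N = j.val
    rw [hi, Nat.add_mul_mod_self_left]
    exact Nat.mod_eq_of_lt j.isLt
  have h1 := go_toL P u o σ Y hT n (hY n) 1 (by omega)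
  have h2 := go_z0 P u o σ Y (n + 1) (Wd Y (n + 1)) 0 (n + 1)
  have h3 := go_z P u o σ Y 0 (Wd Y (n + 1)) (n + 1) (0 + 1) (n + 1) (fun _ => 0) 0 i (by omega)
  rw [hj] at h3
  refine ⟨n, by omega, _, h1.trans' (h2.trans' h3), rfl, ?_⟩
  show n + 1 - i = v
  omega

theorem me4c_y (hT : Tests P u o f) (hY : CF f Y) (j : Fin N) :
    Hit P u o σ Y (fun c => c.1 = St.y j) := by
  intro M
  have hN : 0 < N := Nat.pos_of_ne_zero (NeZero.ne N)
  obtain ⟨i, hi⟩ : ∃ i, i = j.val + N * M := ⟨_, rfl⟩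
  have hiM : M ≤ i := by
    rw [hi]
    calc M = 1 * M := (one_mul _).symm
      _ ≤ N * M := Nat.mul_le_mul_right _ hN
      _ ≤ j.val + N * M := Nat.le_add_left _ _
  have hj : (0 : Fin N) + Fin.ofNat N i = j := by
    rw [zero_add]
    apply Fin.ext
    show i % N = j.val
    rw [hi, Nat.add_mul_mod_self_left]
    exact Nat.mod_eq_of_lt j.isLt
  have h1 := go_toL P u o σ Y hT i (hY i) 1 (by omega)
  have h2 := go_z0 P u o σ Y (i + 1) (Wd Y (i + 1)) 0 (i + 1)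
  obtain ⟨y, h3⟩ := go_y P u o σ Y 0 (Wd Y (i + 1)) (i + 1) (0 + 1) (i + 1) (fun _ => 0) 0 i
    (by omega)
  rw [hj] at h3
  exact ⟨i, hiM, _, h1.trans' (h2.trans' h3), rfl⟩

/-- Value `0`: `go_toh`; value `b + 1`: `go_toL` with `b + 1`, then `go_dummy`. -/
theorem ok_h (hT : Tests P u o f) (hY : CF f Y) : Ok P u o σ Y St.h := by
  exact me4c_block P u o σ Y rfl (me4c_h P u o σ Y hT hY)

theorem ok_b6 (hT : Tests P u o f) (hY : CF f Y) (p : (B6 (KP := KP)).Pos) :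
    Ok P u o σ Y (St.b6 p) := by
  have key : ∀ M v : ℕ, ∃ n ≥ M, v ≤ n + 1 ∧
      Go (prog P u o σ) Y (start P u Y n)
        (St.h, rf (n + 1) (Wd Y (n + 1)) 0 0 (fun _ => 0), n + 1) := fun M v =>
    ⟨M + v, by omega, by omega, go_toh P u o σ Y hT (M + v) (hY _)⟩
  apply ok_of_block
  · intro a b
    exact code_ne_guess _ _ _ _ _ _
  · intro M
    obtain ⟨n, hn, -, hg⟩ := key M 0
    obtain ⟨y, hy⟩ := (go_b6 P u o σ Y (n + 1) (Wd Y (n + 1)) (n + 1) 0 (by omega) (by omega) p).1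
    exact ⟨n, hn, _, hg.trans' hy, rfl⟩
  · intro i z q e v M
    obtain ⟨n, hn, hv, hg⟩ := key M v
    obtain ⟨y, hy, hyv⟩ := (go_b6 P u o σ Y (n + 1) (Wd Y (n + 1)) (n + 1) v hv (by omega) p).2
      i z q e v le_rfl
    exact ⟨n, hn, _, hg.trans' hy, rfl, hyv⟩

/-- `go_toL` with all `b`. -/
theorem ok_L (hT : Tests P u o f) (hY : CF f Y) : Ok P u o σ Y St.L := by
  refine me4c_block P u o σ Y rfl fun v M => ?_
  exact ⟨M + v, by omega, _, go_toL P u o σ Y hT (M + v) (hY _) v (by omega), rfl, rfl⟩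

/-- `go_toL` with `b + 1`, `go_b7`. -/
theorem ok_b7 (hT : Tests P u o f) (hY : CF f Y) (p : (B7 (KP := KP)).Pos) :
    Ok P u o σ Y (St.b7 p) := by
  have key : ∀ M v : ℕ, ∃ n ≥ M, v + 1 ≤ n + 1 ∧
      Go (prog P u o σ) Y (start P u Y n)
        (St.L, rf (n + 1) (Wd Y (n + 1)) 0 (v + 1 + 1) (fun _ => 0), n + 1) := fun M v =>
    ⟨M + v + 1, by omega, by omega, go_toL P u o σ Y hT (M + v + 1) (hY _) (v + 1 + 1) (by omega)⟩
  apply ok_of_block
  · intro a b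
    exact code_ne_guess _ _ _ _ _ _
  · intro M
    obtain ⟨n, hn, hv, hg⟩ := key M 0
    obtain ⟨y, hy⟩ := (go_b7 P u o σ Y (n + 1) (Wd Y (n + 1)) (0 + 1) (n + 1) 0 (by omega)
      (by omega) hv p).1
    exact ⟨n, hn, _, hg.trans' hy, rfl⟩
  · intro i z q e v M
    obtain ⟨n, hn, hv, hg⟩ := key M v
    obtain ⟨y, hy, hyv⟩ := (go_b7 P u o σ Y (n + 1) (Wd Y (n + 1)) (v + 1) (n + 1) v (by omega)
      (by omega) hv p).2 i z q e v le_rfl
    exact ⟨n, hn, _, hg.trans' hy, rfl, hyv⟩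

/-- `go_toL` with `b = 0`.. `go_z0`, `go_z`: the state `z j` with `T = v` is reached in the round `n`
for `n + 1 = v + i` with `i = j mod N`. -/
theorem ok_z (hT : Tests P u o f) (hY : CF f Y) (j : Fin N) : Ok P u o σ Y (St.z j) := by
  exact me4c_block P u o σ Y rfl (me4c_z P u o σ Y hT hY j)

theorem ok_y (hT : Tests P u o f) (hY : CF f Y) (j : Fin N) : Ok P u o σ Y (St.y j) := by
  apply ok_of_block
  · intro a b e
    cases e
  · exact me4c_y P u o σ Y hT hY j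
  · intro i z q e
    cases e

end

end Pool.Agent.LIN.MM
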