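import Pool.Agent.LIN.M.E4b
import Pool.Agent.LIN.M.E4c

/-!
# [LIN-ME4d] richness of the machine
-/

namespace Pool.Agent.LIN.MM

section

variable {KP : Type} [Fintype KP] [DecidableEq KP]

variable (P : Cmd KP) (u o : KP) {N : ℕ} [NeZero N] (σ : Fin N → Option (Option (B3 P).Pos))
variable (Y : ℕ → Bool) {f : ℕ → ℕ}

theorem ok_all (hσ : Function.Surjective σ) (hT : Tests P u o f) (hY : CF f Y) (hb : Bal Y)
    (q : St P u N) : Ok P u o σ Y q := by
  cases q with
  | b1 p => exact ok_b1 P u o σ Y p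
  | g => exact ok_g P u o σ Y hb
  | b2 p => exact ok_b2 P u o σ Y hb p
  | b3 p => exact ok_b3 P u o σ Y hσ hT hY p
  | tst => exact ok_tst P u o σ Y hσ hT hY
  | rA => exact ok_rA P u o σ Y hσ hT hY
  | b4 => exact ok_b4 P u o σ Y hσ hT hY
  | b5 p => exact ok_b5 P u o σ Y hσ hT hY p
  | h => exact ok_h P u o σ Y hT hY
  | b6 p => exact ok_b6 P u o σ Y hT hY p
  | L => exact ok_L P u o σ Y hT hY
  | b7 p => exact ok_b7 P u o σ Y hT hY p
  | z j => exact ok_z P u o σ Y hT hY j
  | y j => exact ok_y P u o σ Y hT hY j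

/-- Richness of every orbit (`hit_inf`, `ok_all`; for the guess state the next state is given by
`Y` at the ghost counter). -/
theorem core_rich (hσ : Function.Surjective σ) (hT : Tests P u o f) (hY : CF f Y) (hb : Bal Y)
    (r : ℕ → Gf (St P u N) (Rg KP)) (h0 : r 0 = start P u Y 0)
    (hr : ∀ m, nxg (prog P u o σ) Y (r m) = some (r (m + 1))) :
    RichN (prog P u o σ) (fun n => ((r n).1, (r n).2.1)) := by
  intro q
  obtain ⟨hq1, hq2⟩ := ok_all P u o σ Y hσ hT hY hb q
  have H : ∀ Pr, Hit P u o σ Y Pr → ∀ M, ∃ m ≥ M, Pr (r m) := fun Pr h =>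
    hit_inf P u o σ Y hT hY r h0 hr Pr h
  refine ⟨H _ hq1, ?_⟩
  have hnx : ∀ a b, prog P u o σ q = Ins.guess a b → ∀ n, (r n).1 = q →
      (r (n + 1)).1 = if Y (r n).2.2 = true then b else a := by
    intro a b hp n hn
    have h := hr n
    unfold nxg at h
    rw [hn, hp] at h
    simp only [Option.some.injEq] at h
    rw [← h]
  revert hq2 hnx
  generalize prog P u o σ q = I
  intro hq2 hnx
  cases I with
  | inc i p => trivial
  | test i z p =>
    refine ⟨fun hz M => ?_, fun hp d hd M => ?_⟩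
    · exact H _ (hq2.1 hz) M
    · exact H _ (hq2.2 hp d hd) M
  | guess a b =>
    refine ⟨fun M => ?_, fun M => ?_⟩
    · obtain ⟨m, hm, h1, h2⟩ := H _ hq2.1 M
      refine ⟨m, hm, h1, ?_⟩
      have h3 := hnx a b rfl m h1
      rw [h2] at h3
      simpa using h3
    · obtain ⟨m, hm, h1, h2⟩ := H _ hq2.2 M
      refine ⟨m, hm, h1, ?_⟩
      have h3 := hnx a b rfl m h1
      rw [h2] at h3
      simpa using h3

end

end Pool.Agent.LIN.MM
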