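import Pool.Agent.LIN.M.E3

/-!
# [LIN-ME4a] richness of the machine, state by state (1)
-/

namespace Pool.Agent.LIN.MM

/-- compiled commands contain no guesses -/
theorem me4a_code_ne {Q K : Type} (c : Cmd K) (ex : Q) (e : c.Pos → Q) (p : c.Pos) (a b : Q) :
    c.code ex e p ≠ Ins.guess a b := by
  induction c generalizing ex with
  | skip => exact Empty.elim p
  | inc i =>
    intro h
    exact absurd h (by simp [Cmd.code])
  | seq c d ihc ihd =>
    rcases p with p | p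
    · exact ihc _ _ p
    · exact ihd _ _ p
  | wh i c ih =>
    rcases p with _ | p
    · intro h
      exact absurd h (by simp [Cmd.code])
    · exact ih _ _ p

section

variable {KP : Type} [Fintype KP] [DecidableEq KP]

/-- `Pr` holds for configurations reached from `start P u Y n` for arbitrarily large `n`. -/
def Hit (P : Cmd KP) (u o : KP) {N : ℕ} [NeZero N] (σ : Fin N → Option (Option (B3 P).Pos))
    (Y : ℕ → Bool) (Pr : Gf (St P u N) (Rg KP) → Prop) : Prop :=
  ∀ M, ∃ n ≥ M, ∃ c, Go (prog P u o σ) Y (start P u Y n) c ∧ Pr c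

/-- The richness condition for the state `q`. -/
def Ok (P : Cmd KP) (u o : KP) {N : ℕ} [NeZero N] (σ : Fin N → Option (Option (B3 P).Pos))
    (Y : ℕ → Bool) (q : St P u N) : Prop :=
  Hit P u o σ Y (fun c => c.1 = q) ∧
    match prog P u o σ q with
    | Ins.inc _ _ => True
    | Ins.test i z p =>
        (z.isSome = true → Hit P u o σ Y (fun c => c.1 = q ∧ c.2.1 i = 0)) ∧
        (p.isSome = true → ∀ d ≥ 1, Hit P u o σ Y (fun c => c.1 = q ∧ c.2.1 i = d))
    | Ins.guess _ _ =>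
        Hit P u o σ Y (fun c => c.1 = q ∧ Y c.2.2 = false) ∧
        Hit P u o σ Y (fun c => c.1 = q ∧ Y c.2.2 = true)

variable (P : Cmd KP) (u o : KP) {N : ℕ} [NeZero N] (σ : Fin N → Option (Option (B3 P).Pos))
variable (Y : ℕ → Bool) {f : ℕ → ℕ}

/-- Sufficient: for every `v` the state `q` is hit, and if it is a test of `i` then with `i = v`. -/
theorem ok_of_block (q : St P u N) (hq : ∀ a b, prog P u o σ q ≠ Ins.guess a b)
    (h : Hit P u o σ Y (fun c => c.1 = q))
    (h' : ∀ i z p, prog P u o σ q = Ins.test i z p →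
      ∀ v, Hit P u o σ Y (fun c => c.1 = q ∧ c.2.1 i = v)) : Ok P u o σ Y q := by
  refine ⟨h, ?_⟩
  rcases hpr : prog P u o σ q with ⟨i, q'⟩ | ⟨i, z, p⟩ | ⟨a, b⟩
  · trivial
  · exact ⟨fun _ => h' i z p hpr 0, fun _ d _ => h' i z p hpr d⟩
  · exact absurd hpr (hq a b)

/-- `go_b1` for `n ≥ M` with `Wd Y n ≥ d` (`lt_Wd`). -/
theorem ok_b1 (p : (B1 u).Pos) : Ok P u o σ Y (St.b1 p) := by
  refine ok_of_block P u o σ Y _ (fun a b => me4a_code_ne (B1 u) _ _ p a b) ?_ ?_
  · intro M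
    obtain ⟨⟨y, hy⟩, -⟩ := go_b1 P u o σ Y M 0 (Nat.zero_le _)
      ((Nat.succ_le_succ (Nat.zero_le M)).trans (lt_Wd Y M)) p
    exact ⟨M, le_rfl, _, hy, rfl⟩
  · intro i z q hpr v M
    have h1 : max M v < Wd Y (max M v) := lt_Wd Y _
    obtain ⟨-, h2⟩ := go_b1 P u o σ Y (max M v) v ((le_max_right M v).trans h1.le)
      ((Nat.succ_le_succ (Nat.zero_le _)).trans h1) p
    obtain ⟨y, hy, hyv⟩ := h2 i z q hpr v le_rfl
    exact ⟨max M v, le_max_left _ _, _, hy, rfl, hyv⟩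

/-- `go_guess`; `Y` is balanced. -/
theorem ok_g (hb : Bal Y) : Ok P u o σ Y St.g := by
  refine ⟨fun M => ⟨M, le_rfl, _, go_guess P u o σ Y M, rfl⟩, fun M => ?_, fun M => ?_⟩
  · obtain ⟨n, hn, hY⟩ := hb.2 M
    exact ⟨n, hn, _, go_guess P u o σ Y n, rfl, hY⟩
  · obtain ⟨n, hn, hY⟩ := hb.1 M
    exact ⟨n, hn, _, go_guess P u o σ Y n, rfl, hY⟩

/-- `go_b2` for the infinitely many `n` with `Y n = true`; no tests in `B2`. -/
theorem ok_b2 (hb : Bal Y) (p : (B2 u).Pos) : Ok P u o σ Y (St.b2 p) := by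
  refine ok_of_block P u o σ Y _ (fun a b => me4a_code_ne (B2 u) _ _ p a b) ?_ ?_
  · intro M
    obtain ⟨n, hn, hY⟩ := hb.1 M
    obtain ⟨y, hy⟩ := go_b2 P u o σ Y n hY p
    exact ⟨n, hn, _, hy, rfl⟩
  · intro i z q hpr v
    exfalso
    rcases p with ⟨⟩ | ⟨⟩
    · exact absurd hpr (by simp [prog, B2, Cmd.code])
    · exact absurd hpr (by simp [prog, B2, Cmd.code])

/-- The targets: for every target `s` and all `v` there are infinitely many `n` such that the
configuration `(tgt P u s, D = v + 1, all X i = v)` is reached from `start P u Y n`: `n + 1 = j mod N`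
with `σ j = s`, `go_toL` with `b = v + 1 ≤ n + 1`, `go_target`. -/
theorem hit_target (hσ : Function.Surjective σ) (hT : Tests P u o f) (hY : CF f Y)
    (s : Option (Option (B3 P).Pos)) (v : ℕ) :
    Hit P u o σ Y (fun c => c.1 = tgt P u s ∧ ∃ c' w, c.2.1 = rf c' w 0 (v + 1) (fun _ => v)) := by
  intro M
  obtain ⟨j, hj⟩ := hσ s
  have hN : 1 ≤ N := Nat.one_le_iff_ne_zero.2 (NeZero.ne N)
  obtain ⟨n, hn⟩ : ∃ n, n + 1 = j.val + N * (M + v + 1) := by
    refine ⟨j.val + N * (M + v + 1) - 1, ?_⟩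
    have h1 : 1 ≤ N * (M + v + 1) := Nat.mul_pos hN (Nat.succ_pos _)
    omega
  have hge : M + v + 1 ≤ n + 1 := by
    rw [hn]
    have h1 : 1 * (M + v + 1) ≤ N * (M + v + 1) := Nat.mul_le_mul_right _ hN
    omega
  have hfin : Fin.ofNat N (n + 1) = j := by
    apply Fin.ext
    show (n + 1) % N = j.val
    rw [hn, Nat.add_mul_mod_self_left, Nat.mod_eq_of_lt j.2]
  have h1 := go_toL P u o σ Y hT n (hY n) (v + 1) (by omega)
  have h2 := go_target P u o σ Y (n + 1) (Wd Y (n + 1)) v (n + 1)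
  rw [hfin, hj] at h2
  exact ⟨n, by omega, _, h1.trans h2, rfl, n + 1, Wd Y (n + 1), rfl⟩

end

end Pool.Agent.LIN.MM
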