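import Pool.Agent.LIN.M.E4a

/-!
# [LIN-ME4b] richness of the machine, state by state (2)
-/

namespace Pool.Agent.LIN.MM

section

variable {KP : Type} [Fintype KP] [DecidableEq KP]

variable (P : Cmd KP) (u o : KP) {N : ℕ} [NeZero N] (σ : Fin N → Option (Option (B3 P).Pos))
variable (Y : ℕ → Bool) {f : ℕ → ℕ}

theorem e4b_mono {Pr Pr' : Gf (St P u N) (Rg KP) → Prop} (h : Hit P u o σ Y Pr) (hp : ∀ c, Pr c → Pr' c) :
    Hit P u o σ Y Pr' := by
  intro M
  obtain ⟨n, hn, c, hc, hc'⟩ := h M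
  exact ⟨n, hn, c, hc, hp c hc'⟩

theorem e4b_go {Pr Pr' : Gf (St P u N) (Rg KP) → Prop} (h : Hit P u o σ Y Pr)
    (hp : ∀ c, Pr c → ∃ c', Go (prog P u o σ) Y c c' ∧ Pr' c') : Hit P u o σ Y Pr' := by
  intro M
  obtain ⟨n, hn, c, hc, hc'⟩ := h M
  obtain ⟨c', h1, h2⟩ := hp c hc'
  exact ⟨n, hn, c', hc.trans h1, h2⟩

/-- `hit_target`; the tests in the code of `B3` are tests of registers `X i` (`code_map_test`). -/
theorem ok_b3 (hσ : Function.Surjective σ) (hT : Tests P u o f) (hY : CF f Y)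
    (p : (B3 P).Pos) : Ok P u o σ Y (St.b3 p) := by
  apply ok_of_block
  · intro a b
    exact code_ne_guess (B3 P) _ _ p a b
  · exact e4b_mono P u o σ Y (hit_target P u o σ Y hσ hT hY (some (some p)) 0) fun c hc => hc.1
  · intro i z q hi v
    obtain ⟨j, rfl⟩ := code_map_test Rg.X P _ _ p i z q hi
    refine e4b_mono P u o σ Y (hit_target P u o σ Y hσ hT hY (some (some p)) v) ?_
    rintro c ⟨hc, c', w, hw⟩
    refine ⟨hc, ?_⟩
    rw [hw]
    rfl

theorem ok_tst (hσ : Function.Surjective σ) (hT : Tests P u o f) (hY : CF f Y) :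
    Ok P u o σ Y St.tst := by
  apply ok_of_block
  · intro a b h
    cases h
  · exact e4b_mono P u o σ Y (hit_target P u o σ Y hσ hT hY none 0) fun c hc => hc.1
  · intro i z q hi v
    have hi' : Ins.test (Rg.X o) (some (B5.entry St.h St.b5)) (some St.rA) = Ins.test i z q := hi
    injection hi' with h1 h2 h3
    subst h1
    refine e4b_mono P u o σ Y (hit_target P u o σ Y hσ hT hY none v) ?_
    rintro c ⟨hc, c', w, hw⟩
    refine ⟨hc, ?_⟩
    rw [hw]
    rfl

/-- `D = v + 1` for every `v`; the zero branch does not exist. -/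
theorem ok_rA (hσ : Function.Surjective σ) (hT : Tests P u o f) (hY : CF f Y) :
    Ok P u o σ Y St.rA := by
  refine ⟨e4b_mono P u o σ Y (hit_target P u o σ Y hσ hT hY (some none) 0) fun c hc => hc.1, ?_⟩
  show ((none : Option (St P u N)).isSome = true → _) ∧ ((some St.b4 : Option (St P u N)).isSome = true → _)
  refine ⟨fun h => absurd h (by simp), fun _ d hd => ?_⟩
  refine e4b_mono P u o σ Y (hit_target P u o σ Y hσ hT hY (some none) (d - 1)) ?_
  rintro c ⟨hc, c', w, hw⟩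
  refine ⟨hc, ?_⟩
  rw [hw]
  show d - 1 + 1 = d
  omega

theorem ok_b4 (hσ : Function.Surjective σ) (hT : Tests P u o f) (hY : CF f Y) :
    Ok P u o σ Y St.b4 := by
  refine ⟨?_, trivial⟩
  refine e4b_go P u o σ Y (hit_target P u o σ Y hσ hT hY (some none) 0) ?_
  rintro ⟨q, r, k⟩ ⟨hc, c', w, hw⟩
  simp only at hc hw
  subst hc hw
  obtain ⟨y, hy⟩ := (go_rA P u o σ Y c' w 0 k (fun _ => 0)).2
  exact ⟨_, hy, rfl⟩

/-- `hit_target` with the target `rA` (`some none`) and `go_b5`. -/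
theorem ok_b5 (hσ : Function.Surjective σ) (hT : Tests P u o f) (hY : CF f Y)
    (p : (B5 (KP := KP)).Pos) : Ok P u o σ Y (St.b5 p) := by
  apply ok_of_block
  · intro a b
    exact code_ne_guess (B5 (KP := KP)) _ _ p a b
  · refine e4b_go P u o σ Y (hit_target P u o σ Y hσ hT hY (some none) 1) ?_
    rintro ⟨q, r, k⟩ ⟨hc, c', w, hw⟩
    simp only at hc hw
    subst hc hw
    obtain ⟨y, hy⟩ := (go_b5 P u o σ Y c' w 1 k le_rfl p).1
    exact ⟨_, hy, rfl⟩
  · intro i z q hi v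
    refine e4b_go P u o σ Y (hit_target P u o σ Y hσ hT hY (some none) (v + 1)) ?_
    rintro ⟨q', r, k⟩ ⟨hc, c', w, hw⟩
    simp only at hc hw
    subst hc hw
    obtain ⟨y, hy, hy'⟩ := (go_b5 P u o σ Y c' w (v + 1) k (by omega) p).2 i z q hi v (by omega)
    exact ⟨_, hy, rfl, hy'⟩

end

end Pool.Agent.LIN.MM
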