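import Pool.Agent.LIN.M.M0

/-!
# [LIN-MF1a] orbits of deterministic partial maps
-/

namespace Pool.Agent.LIN.MM

theorem F1a_trans {α : Type} (nx : α → Option α) {a b : α}
    (h : Relation.TransGen (fun c c' => nx c = some c') a b) :
    ∃ t : ℕ, 1 ≤ t ∧ (fun a => (nx a).getD a)^[t] a = b ∧ ∀ j < t,
      nx ((fun a => (nx a).getD a)^[j] a) = some ((fun a => (nx a).getD a)^[j + 1] a) := by
  induction h with
  | single h =>
    refine ⟨1, le_rfl, ?_, fun j hj => ?_⟩
    · show (nx a).getD a = _
      rw [h]
      rfl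
    · obtain rfl : j = 0 := by omega
      show nx a = some ((nx a).getD a)
      rw [h]
      rfl
  | tail _ h ih =>
    obtain ⟨t, ht, h1, h2⟩ := ih
    refine ⟨t + 1, by omega, ?_, fun j hj => ?_⟩
    · rw [Function.iterate_succ_apply', h1, h]
      rfl
    · rcases Nat.lt_succ_iff_lt_or_eq.1 hj with hj | hj
      · exact h2 j hj
      · subst hj
        rw [Function.iterate_succ_apply', h1, h]
        rfl

/-- An infinite orbit through the points `s 0, s 1, ...`. Proof: let `F a = (nx a).getD a`; a chain
`a →⁺ b` gives `t ≥ 1` with `F^[t] a = b` and all intermediate steps valid; `r m = F^[m] (s 0)`,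
`τ (n + 1) = τ n + t n`. -/
theorem orbit {α : Type} (nx : α → Option α) (s : ℕ → α)
    (h : ∀ n, Relation.TransGen (fun c c' => nx c = some c') (s n) (s (n + 1))) :
    ∃ (r : ℕ → α) (τ : ℕ → ℕ), r 0 = s 0 ∧ (∀ m, nx (r m) = some (r (m + 1))) ∧
      StrictMono τ ∧ ∀ n, r (τ n) = s n := by
  choose t ht1 ht2 ht3 using fun n => F1a_trans nx (h n)
  set F : α → α := fun a => (nx a).getD a with hF
  let τ : ℕ → ℕ := fun n => ∑ i ∈ Finset.range n, t i
  have hτs : ∀ n, τ (n + 1) = τ n + t n := fun n => Finset.sum_range_succ t n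
  have hmono : StrictMono τ := strictMono_nat_of_lt_succ fun n => by
    rw [hτs]
    have := ht1 n
    omega
  have hrτ : ∀ n, F^[τ n] (s 0) = s n := by
    intro n
    induction n with
    | zero => rfl
    | succ n ih => rw [hτs, add_comm, Function.iterate_add_apply, ih, ht2]
  have hstep : ∀ n, ∀ m < τ n, nx (F^[m] (s 0)) = some (F^[m + 1] (s 0)) := by
    intro n
    induction n with
    | zero =>
      intro m hm
      exact absurd hm (Nat.not_lt_zero m)
    | succ n ih =>
      intro m hm
      rcases lt_or_ge m (τ n) with h1 | h1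
      · exact ih m h1
      · obtain ⟨j, rfl⟩ := Nat.exists_eq_add_of_le h1
        rw [hτs] at hm
        have h2 := ht3 n j (by omega)
        have e1 : F^[τ n + j] (s 0) = F^[j] (s n) := by
          rw [add_comm, Function.iterate_add_apply, hrτ]
        have e2 : F^[τ n + j + 1] (s 0) = F^[j + 1] (s n) := by
          have : τ n + j + 1 = (j + 1) + τ n := by omega
          rw [this, Function.iterate_add_apply, hrτ]
        rw [e1, e2]
        exact h2
  refine ⟨fun m => F^[m] (s 0), τ, rfl, fun m => ?_, hmono, hrτ⟩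
  exact hstep (m + 1) m (hmono.le_apply (x := m + 1))

/-- Determinism: everything reached from a point of the orbit is on the orbit. -/
theorem orbit_hit {α : Type} {nx : α → Option α} {r : ℕ → α}
    (hr : ∀ m, nx (r m) = some (r (m + 1))) {m : ℕ} {c : α}
    (h : Relation.ReflTransGen (fun c c' => nx c = some c') (r m) c) : ∃ t, r (m + t) = c := by
  induction h with
  | refl => exact ⟨0, rfl⟩
  | tail _ h ih =>
    obtain ⟨t, ht⟩ := ih
    refine ⟨t + 1, ?_⟩
    have h1 := hr (m + t)
    rw [ht, h] at h1
    exact (Option.some.inj h1).symm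

/-- Two orbits from the same point are equal. -/
theorem orbit_unique {α : Type} {nx : α → Option α} {r r' : ℕ → α}
    (hr : ∀ m, nx (r m) = some (r (m + 1))) (hr' : ∀ m, nx (r' m) = some (r' (m + 1)))
    (h : r 0 = r' 0) : r = r' := by
  funext m
  induction m with
  | zero => exact h
  | succ m ih =>
    have h1 := hr m
    have h2 := hr' m
    rw [ih, h2] at h1
    exact (Option.some.inj h1).symm

end Pool.Agent.LIN.MM
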