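import Pool.Agent.LIN.M.F1

/-!
# [LIN-MF2] computable sequences of guesses and computable runs, first direction
-/

namespace Pool.Agent.LIN.MM

/-- A function on `Fin n × α` is computable if all its sections are: use
`List.Vector.ofFn`: `f q x = (List.Vector.ofFn fun q => f q x).get q`
(`Computable.vector_ofFn`, `Computable.vector_get`). -/
theorem computable_finite {α β : Type} [Primcodable α] [Primcodable β] {n : ℕ}
    (f : Fin n → α → β) (h : ∀ q, Computable (f q)) :
    Computable (fun p : Fin n × α => f p.1 p.2) := by
  have h1 : Computable (fun a : α => List.Vector.ofFn fun i => f i a) := Computable.vector_ofFn h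
  have h2 : Computable (fun p : Fin n × α => (List.Vector.ofFn fun i => f i p.2).get p.1) :=
    Computable.vector_get.comp (h1.comp Computable.snd) Computable.fst
  refine h2.of_eq fun p => ?_
  rw [List.Vector.get_ofFn]

/-- The total step function of a machine with a bit `β` for the guesses (dead: unchanged). -/
def tstep (m : Mach) (β : Bool) (c : m.Config) : m.Config :=
  match m.prog c.1 with
  | Instr.inc i q => (q, Function.update c.2 i (c.2 i + 1))
  | Instr.test i z p =>
      if c.2 i = 0 then (z.getD c.1, c.2)
      else (p.getD c.1, Function.update c.2 i (c.2 i - 1))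
  | Instr.guess a b => (if β = true then b else a, c.2)

/-- updates of register contents are primitive recursive -/
theorem mf2_update {α : Type} [Primcodable α] {k : ℕ} (i : Fin k) {x : α → Fin k → ℕ}
    {v : α → ℕ} (hx : Primrec x) (hv : Primrec v) :
    Primrec (fun a => Function.update (x a) i (v a)) := by
  apply Primrec.fin_curry.2
  have h1 : Primrec (fun p : α × Fin k => if p.2 = i then v p.1 else x p.1 p.2) :=
    Primrec.ite (Primrec.eq.comp Primrec.snd (Primrec.const i)) (hv.comp Primrec.fst)
      (Primrec.fin_app.comp (hx.comp Primrec.fst) Primrec.snd)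
  refine h1.of_eq fun p => ?_
  show _ = Function.update (x p.1) i (v p.1) p.2
  rw [Function.update_apply]

/-- `computable_finite`: for fixed `q` the instruction is fixed; `Function.update` on `Fin k → ℕ` is
computable: `Function.update x i v = fun j => if j = i then v else x j` (`Primrec.fin_lam`/
`Computable.vector_ofFn` and `Primcodable.finArrow`; `Primrec.fin_app`). -/
theorem computable_tstep (m : Mach) : Computable (fun p : Bool × m.Config => tstep m p.1 p.2) := by
  have key : ∀ q : Fin m.nQ, Computable (fun p : Bool × (Fin m.k → ℕ) => tstep m p.1 (q, p.2)) := by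
    intro q
    apply Primrec.to_comp
    cases hq : m.prog q with
    | inc i q' =>
      have h1 : Primrec (fun p : Bool × (Fin m.k → ℕ) =>
          (q', Function.update p.2 i (p.2 i + 1))) :=
        (Primrec.const q').pair (mf2_update i Primrec.snd
          (Primrec.succ.comp (Primrec.fin_app.comp Primrec.snd (Primrec.const i))))
      refine h1.of_eq fun p => ?_
      unfold tstep
      simp only [hq]
    | test i z p' =>
      have h1 : Primrec (fun p : Bool × (Fin m.k → ℕ) => if p.2 i = 0 then (z.getD q, p.2)
          else (p'.getD q, Function.update p.2 i (p.2 i - 1))) := by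
        have hi : Primrec (fun p : Bool × (Fin m.k → ℕ) => p.2 i) :=
          Primrec.fin_app.comp Primrec.snd (Primrec.const i)
        refine Primrec.ite (Primrec.eq.comp hi (Primrec.const 0))
          ((Primrec.const _).pair Primrec.snd) ((Primrec.const _).pair ?_)
        exact mf2_update i Primrec.snd (Primrec.pred.comp hi)
      refine h1.of_eq fun p => ?_
      unfold tstep
      simp only [hq]
    | guess a b =>
      have h1 : Primrec (fun p : Bool × (Fin m.k → ℕ) => (if p.1 = true then b else a, p.2)) :=
        (Primrec.ite (Primrec.eq.comp Primrec.fst (Primrec.const true)) (Primrec.const b)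
          (Primrec.const a)).pair Primrec.snd
      refine h1.of_eq fun p => ?_
      unfold tstep
      simp only [hq]
  have h2 := computable_finite (fun q (p : Bool × (Fin m.k → ℕ)) => tstep m p.1 (q, p.2)) key
  exact (h2.comp ((Computable.fst.comp Computable.snd).pair
    (Computable.fst.pair (Computable.snd.comp Computable.snd)))).of_eq fun p => rfl

/-- A run that follows a computable `Y` is computable: recursion on `n` for the pair `(r n, cnt n)`
with `r (n + 1) = tstep m (Y (cnt n)) (r n)` (`Computable.nat_rec`). -/
theorem computable_run (m : Mach) (g a b : Fin m.nQ) (hg : m.prog g = Instr.guess a b)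
    (hu : ∀ q, q ≠ g → ∀ a' b', m.prog q ≠ Instr.guess a' b') (Y : ℕ → Bool)
    (r : ℕ → m.Config) (hr : ∀ n, m.Step (r n) (r (n + 1)))
    (hf : ∀ n, (r n).1 = g → (r (n + 1)).1 = if Y (cnt g r n) = true then b else a)
    (hY : Computable Y) : Computable (fun n => (((r n).1 : Fin m.nQ) : ℕ)) := by
  classical
  -- one step
  have hstep : ∀ n, r (n + 1) = tstep m (Y (cnt g r n)) (r n) := by
    intro n
    have h1 := hr n
    unfold Mach.Step at h1
    unfold tstep
    cases hq : m.prog (r n).1 with
    | inc i q =>
      simp only [hq] at h1 ⊢
      exact Prod.ext h1.1 h1.2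
    | test i z p =>
      simp only [hq] at h1 ⊢
      rcases h1 with ⟨h1, h2, h3⟩ | ⟨h1, h2, h3⟩
      · rw [if_pos h1]
        apply Prod.ext
        · show (r (n + 1)).1 = z.getD (r n).1
          rw [h2]
          rfl
        · exact h3
      · rw [if_neg h1.ne']
        apply Prod.ext
        · show (r (n + 1)).1 = p.getD (r n).1
          rw [h2]
          rfl
        · exact h3
    | guess a' b' =>
      simp only [hq] at h1 ⊢
      have hg1 : (r n).1 = g := by
        by_contra hne
        exact hu _ hne a' b' hq
      rw [hg1, hg] at hq
      injection hq with h3 h4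
      apply Prod.ext
      · show (r (n + 1)).1 = if Y (cnt g r n) = true then b' else a'
        rw [hf n hg1, h3, h4]
      · exact h1.2
  -- the recursion
  let s : ℕ → m.Config × ℕ := fun n => Nat.rec (r 0, 0) (fun _ c =>
    (tstep m (Y c.2) c.1, c.2 + if c.1.1 = g then 1 else 0)) n
  have hs : ∀ n, s n = (r n, cnt g r n) := by
    intro n
    induction n with
    | zero => rfl
    | succ n ih =>
      have h1 : s (n + 1) = (tstep m (Y (s n).2) (s n).1,
        (s n).2 + if (s n).1.1 = g then 1 else 0) := rfl
      rw [h1, ih, hstep n]
      apply Prod.ext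
      · rfl
      · show (cnt g r n + if (r n).1 = g then 1 else 0) = cnt g r (n + 1)
        rw [cnt]
        split_ifs <;> rfl
  have hsc : Computable s := by
    have h2 : Computable (fun x : Fin m.nQ => if x = g then 1 else 0) :=
      (Primrec.ite (Primrec.eq.comp Primrec.id (Primrec.const g)) (Primrec.const 1)
        (Primrec.const 0)).to_comp
    have h1 : Computable (fun c : m.Config × ℕ => tstep m (Y c.2) c.1) := by
      have := (computable_tstep m).comp
        ((hY.comp (Computable.snd (α := m.Config) (β := ℕ))).pair
          (Computable.fst (α := m.Config) (β := ℕ)))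
      exact this
    have h4 : Computable (fun c : m.Config × ℕ => if c.1.1 = g then 1 else 0) :=
      h2.comp (Computable.fst.comp Computable.fst)
    have h3 : Computable (fun c : m.Config × ℕ => c.2 + if c.1.1 = g then 1 else 0) :=
      Computable₂.comp (f := fun x y : ℕ => x + y) Primrec.nat_add.to_comp Computable.snd h4
    have h5 : Computable (fun c : m.Config × ℕ =>
        (tstep m (Y c.2) c.1, c.2 + if c.1.1 = g then 1 else 0)) := h1.pair h3
    have h6 : Computable₂ (fun (_ : ℕ) (p : ℕ × (m.Config × ℕ)) =>
        (tstep m (Y p.2.2) p.2.1, p.2.2 + if p.2.1.1 = g then 1 else 0)) :=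
      h5.comp (Computable.snd.comp Computable.snd)
    exact Computable.nat_rec Computable.id (Computable.const _) h6
  have hfin : Computable (fun n => (((s n).1.1 : Fin m.nQ) : ℕ)) :=
    Primrec.fin_val.to_comp.comp (Computable.fst.comp (Computable.fst.comp hsc))
  refine hfin.of_eq fun n => ?_
  rw [hs n]

end Pool.Agent.LIN.MM
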