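import Pool.Agent.LIN.M.F1

/-!
# [LIN-MF3] computable sequences of guesses and computable runs, second direction
-/

namespace Pool.Agent.LIN.MM

theorem f3_cnt (s : ℕ → ℕ) (hs : Computable s) (v : ℕ) : Computable (fun n : ℕ =>
    (Nat.rec (motive := fun _ => ℕ) 0 (fun y IH => IH + cond (s y == v) 1 0) n : ℕ)) := by
  have h1 : Computable₂ (fun (_ : ℕ) (p : ℕ × ℕ) => p.2 + cond (s p.1 == v) 1 0) := by
    refine (Primrec.nat_add.to_comp).comp (Computable.snd.comp Computable.snd) ?_
    refine Computable.cond ?_ (Computable.const 1) (Computable.const 0)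
    exact (Primrec.beq.to_comp).comp (hs.comp (Computable.fst.comp Computable.snd))
      (Computable.const v)
  exact Computable.nat_rec Computable.id (Computable.const 0) h1

theorem f3_find (s c : ℕ → ℕ) (hs : Computable s) (hc : Computable c) (v : ℕ)
    (h : ∀ k, ∃ n, s n = v ∧ c n = k) : ∃ N : ℕ → ℕ, Computable N ∧
      ∀ k, s (N k) = v ∧ c (N k) = k := by
  have h2 : ComputablePred (fun p : ℕ × ℕ => s p.2 = v ∧ c p.2 = p.1) := by
    refine ComputablePred.computable_iff.2 ⟨fun p => (s p.2 == v) && (c p.2 == p.1), ?_, ?_⟩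
    · refine (Primrec.and.to_comp).comp ?_ ?_
      · exact (Primrec.beq.to_comp).comp (hs.comp Computable.snd) (Computable.const v)
      · exact (Primrec.beq.to_comp).comp (hc.comp Computable.snd) Computable.fst
    · funext p
      simp
  exact ⟨_, Computable.find (P := fun k n => s n = v ∧ c n = k) h2 h, fun k => Nat.find_spec (h k)⟩

/-- If the sequence of the states is computable then so is `Y`: `cnt g r n` is computable from the
states (`Computable.nat_rec`), and for given `k` the least `n` with `(r n).1 = g` and
`cnt g r n = k` is found by unbounded search (`Partrec.rfind`, it exists by `hk`); then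
`Y k = true` iff `(r (n + 1)).1 = b`. -/
theorem computable_guess (m : Mach) (g a b : Fin m.nQ) (hab : a ≠ b) (Y : ℕ → Bool)
    (r : ℕ → m.Config)
    (hf : ∀ n, (r n).1 = g → (r (n + 1)).1 = if Y (cnt g r n) = true then b else a)
    (hk : ∀ k, ∃ n, (r n).1 = g ∧ cnt g r n = k)
    (hs : Computable (fun n => (((r n).1 : Fin m.nQ) : ℕ))) : Computable Y := by
  set s : ℕ → ℕ := fun n => (((r n).1 : Fin m.nQ) : ℕ) with hsdef
  have hc : Computable (cnt g r) := by
    refine (f3_cnt s hs g.val).of_eq fun n => ?_
    induction n with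
    | zero => rfl
    | succ n ih =>
      have h1 : (Nat.rec (motive := fun _ => ℕ) 0
          (fun y IH => IH + cond (s y == g.val) 1 0) (n + 1) : ℕ) =
          (Nat.rec (motive := fun _ => ℕ) 0
          (fun y IH => IH + cond (s y == g.val) 1 0) n : ℕ) + cond (s n == g.val) 1 0 := rfl
      have h2 : cnt g r (n + 1) =
        cnt g r n + @ite ℕ ((r n).1 = g) (Classical.propDecidable _) 1 0 := rfl
      rw [h1, ih, h2]
      congr 1
      by_cases hg : (r n).1 = g
      · have : (s n == g.val) = true := by
          rw [beq_iff_eq, hsdef]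
          exact congrArg Fin.val hg
        rw [this, if_pos hg]
        rfl
      · have : (s n == g.val) = false := by
          rw [beq_eq_false_iff_ne]
          exact fun h => hg (Fin.ext h)
        rw [this, if_neg hg]
        rfl
  obtain ⟨N, hN, hN2⟩ := f3_find s (cnt g r) hs hc g.val (by
    intro k
    obtain ⟨n, h1, h2⟩ := hk k
    exact ⟨n, congrArg Fin.val h1, h2⟩)
  have h3 : Computable (fun k => s (N k + 1) == b.val) :=
    (Primrec.beq.to_comp).comp (hs.comp (Computable.succ.comp hN)) (Computable.const b.val)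
  refine h3.of_eq fun k => ?_
  obtain ⟨h4, h5⟩ := hN2 k
  have h6 := hf (N k) (Fin.ext h4)
  rw [h5] at h6
  cases hY : Y k with
  | true =>
    rw [hY, if_pos rfl] at h6
    rw [beq_iff_eq]
    exact congrArg Fin.val h6
  | false =>
    rw [hY, if_neg (by simp)] at h6
    rw [beq_eq_false_iff_ne]
    intro h7
    apply hab
    rw [← h6]
    exact Fin.ext h7

end Pool.Agent.LIN.MM
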