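import Pool.Agent.LIN.M.A1

/-!
# [LIN-MF4] compactness: a continuous injective code of a closed class has a uniformly continuous
inverse
-/

namespace Pool.Agent.LIN.MM

theorem F4_pre {x : ℕ → ℕ → Bool} {a : ℕ → Bool} (h : Filter.Tendsto x Filter.atTop (nhds a))
    (m : ℕ) : ∀ᶠ k in Filter.atTop, pre (x k) m = pre a m := by
  have h1 : ∀ i, ∀ᶠ k in Filter.atTop, x k i = a i := by
    intro i
    have := (tendsto_pi_nhds.1 h) i
    rw [nhds_discrete, Filter.tendsto_pure] at this
    exact this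
  have h2 : ∀ᶠ k in Filter.atTop, ∀ i ∈ Finset.range m, x k i = a i :=
    (Filter.eventually_all_finset (Finset.range m)).2 fun i _ => h1 i
  filter_upwards [h2] with k hk
  unfold pre
  apply List.map_congr_left
  intro i hi
  exact hk i (by simpa using hi)

/-- Suppose not: for some `n` and all `N` there are `X N`, `Y N` in the class whose codes agree up to
`N` but `pre (X N) n ≠ pre (Y N) n`. The class is closed in `ℕ → Bool`, hence compact
(`pre X m` depends continuously on `X`); the sets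
`K N = {(X, Y) | (∀ j ≤ N, s X j = s Y j) ∧ pre X.1 n ≠ pre Y.1 n}` are closed (by `hc` the condition
`s X j = s Y j` depends on finitely many places), decreasing and nonempty, so their intersection is
nonempty (`IsCompact.nonempty_iInter_of_directed_nonempty_isCompact_isClosed`), which contradicts
`hi`. -/
theorem unif {A : Type} (R : List Bool → Prop) (s : Cls R → ℕ → A)
    (hc : ∀ n, ∃ N, ∀ X Y : Cls R, pre X.1 N = pre Y.1 N → ∀ j ≤ n, s X j = s Y j)
    (hi : ∀ X Y : Cls R, (∀ j, s X j = s Y j) → X = Y) (n : ℕ) :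
    ∃ N, ∀ X Y : Cls R, (∀ j ≤ N, s X j = s Y j) → pre X.1 n = pre Y.1 n := by
  by_contra hne
  push Not at hne
  choose X Y hs hp using hne
  obtain ⟨⟨a, b⟩, φ, hφ, hlim⟩ := CompactSpace.tendsto_subseq
    (fun N => (((X N).1, (Y N).1) : (ℕ → Bool) × (ℕ → Bool)))
  have ha : Filter.Tendsto (fun k => (X (φ k)).1) Filter.atTop (nhds a) :=
    (continuous_fst.tendsto _).comp hlim
  have hb : Filter.Tendsto (fun k => (Y (φ k)).1) Filter.atTop (nhds b) :=
    (continuous_snd.tendsto _).comp hlim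
  have hRa : ∀ m, R (pre a m) := by
    intro m
    obtain ⟨k, hk⟩ := (F4_pre ha m).exists
    rw [← hk]
    exact (X (φ k)).2 m
  have hRb : ∀ m, R (pre b m) := by
    intro m
    obtain ⟨k, hk⟩ := (F4_pre hb m).exists
    rw [← hk]
    exact (Y (φ k)).2 m
  have hab : (⟨a, hRa⟩ : Cls R) = ⟨b, hRb⟩ := by
    apply hi
    intro j
    obtain ⟨N, hN⟩ := hc j
    obtain ⟨k, ⟨h1, h2⟩, h3⟩ := (((F4_pre ha N).and (F4_pre hb N)).and
      (Filter.eventually_ge_atTop j)).exists
    rw [← hN (X (φ k)) ⟨a, hRa⟩ h1 j le_rfl, ← hN (Y (φ k)) ⟨b, hRb⟩ h2 j le_rfl]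
    exact hs (φ k) j (h3.trans (hφ.id_le k))
  obtain ⟨k, h1, h2⟩ := ((F4_pre ha n).and (F4_pre hb n)).exists
  apply hp (φ k)
  rw [h1, h2]
  have := congrArg Subtype.val hab
  simp only at this
  rw [this]

end Pool.Agent.LIN.MM
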