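import Pool.Agent.LIN.M.F1

/-!
# [LIN-MG1] transport from abstract machines to `Mach`
-/

namespace Pool.Agent.LIN.MM

/-- Renaming of an instruction. -/
def Ins.toInstr {Q K : Type} {n k : ℕ} (s : Q ≃ Fin n) (t : K ≃ Fin k) : Ins Q K → Instr (Fin n) k
  | Ins.inc i q => Instr.inc (t i) (s q)
  | Ins.test i z p => Instr.test (t i) (z.map s) (p.map s)
  | Ins.guess a b => Instr.guess (s a) (s b)

/-- The machine. -/
abbrev toMach {Q K : Type} {n k : ℕ} (s : Q ≃ Fin n) (t : K ≃ Fin k) (prog : Q → Ins Q K) :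
    Mach where
  nQ := n
  k := k
  prog := fun q => (prog (s.symm q)).toInstr s t

section

variable {Q K : Type} [DecidableEq K] {n k : ℕ} (s : Q ≃ Fin n) (t : K ≃ Fin k)
  (prog : Q → Ins Q K)

omit [DecidableEq K] in
/-- The state `s q` of the machine. -/
theorem prog_toMach (q : Q) : (toMach s t prog).prog (s q) = (prog q).toInstr s t := by
  change (prog (s.symm (s q))).toInstr s t = _
  rw [Equiv.symm_apply_apply]

/-- The renaming of the configurations. -/
def toC (c : Cf Q K) : (toMach s t prog).Config := (s c.1, fun i => c.2 (t.symm i))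

/-- The inverse renaming. -/
def ofC (c : (toMach s t prog).Config) : Cf Q K := (s.symm c.1, fun i => c.2 (t i))

omit [DecidableEq K] in
theorem toC_ofC (c : (toMach s t prog).Config) : toC s t prog (ofC s t prog c) = c := by
  refine Prod.ext (s.apply_symm_apply c.1) ?_
  funext i
  show c.2 (t (t.symm i)) = c.2 i
  rw [Equiv.apply_symm_apply]

omit [DecidableEq K] in
theorem ofC_toC (c : Cf Q K) : ofC s t prog (toC s t prog c) = c := by
  refine Prod.ext (s.symm_apply_apply c.1) ?_
  funext i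
  show c.2 (t.symm (t i)) = c.2 i
  rw [Equiv.symm_apply_apply]

/-- Update of a renamed register. -/
theorem mg1_upd (x : K → ℕ) (i : K) (v : ℕ) :
    Function.update (fun j : Fin k => x (t.symm j)) (t i) v =
      fun j => Function.update x i v (t.symm j) := by
  funext j
  by_cases h : j = t i
  · subst h
    rw [Function.update_self, Equiv.symm_apply_apply, Function.update_self]
  · rw [Function.update_of_ne h, Function.update_of_ne]
    intro h'
    exact h (by rw [← h', Equiv.apply_symm_apply])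

omit [DecidableEq K] in
theorem mg1_inj (x y : K → ℕ) : ((fun j : Fin k => x (t.symm j)) = fun j => y (t.symm j)) ↔
    x = y := by
  constructor
  · intro h
    funext i
    have := congrFun h (t i)
    simpa using this
  · rintro rfl
    rfl

omit [DecidableEq K] in
theorem mg1_map (z : Option Q) (q : Q) : z.map s = some (s q) ↔ z = some q := by
  cases z with
  | none => simp
  | some p => simp

/-- `prog_toMach`; the update of the register `t i`: `Function.update` at `t i` evaluated at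
`i' = t j`. -/
theorem step_toMach (c c' : Cf Q K) :
    (toMach s t prog).Step (toC s t prog c) (toC s t prog c') ↔ StepN prog c c' := by
  have hp := prog_toMach s t prog c.1
  unfold Mach.Step StepN
  have h1 : (toC s t prog c).1 = s c.1 := rfl
  rw [h1, hp]
  cases h : prog c.1 with
  | inc i q =>
    show (s c'.1 = s q ∧ (fun j => c'.2 (t.symm j)) =
      Function.update (fun j => c.2 (t.symm j)) (t i) (c.2 (t.symm (t i)) + 1)) ↔
      (c'.1 = q ∧ c'.2 = Function.update c.2 i (c.2 i + 1))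
    rw [Equiv.symm_apply_apply, mg1_upd, mg1_inj t c'.2 (Function.update c.2 i (c.2 i + 1)),
      s.apply_eq_iff_eq]
  | test i z p =>
    show ((c.2 (t.symm (t i)) = 0 ∧ z.map s = some (s c'.1) ∧
        (fun j => c'.2 (t.symm j)) = (fun j => c.2 (t.symm j))) ∨
      (0 < c.2 (t.symm (t i)) ∧ p.map s = some (s c'.1) ∧
        (fun j => c'.2 (t.symm j)) =
          Function.update (fun j => c.2 (t.symm j)) (t i) (c.2 (t.symm (t i)) - 1))) ↔
      ((c.2 i = 0 ∧ z = some c'.1 ∧ c'.2 = c.2) ∨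
      (0 < c.2 i ∧ p = some c'.1 ∧ c'.2 = Function.update c.2 i (c.2 i - 1)))
    rw [Equiv.symm_apply_apply, mg1_upd, mg1_inj t c'.2 (Function.update c.2 i (c.2 i - 1)),
      mg1_inj t c'.2 c.2, mg1_map, mg1_map]
  | guess a b =>
    show ((s c'.1 = s a ∨ s c'.1 = s b) ∧ (fun j => c'.2 (t.symm j)) = (fun j => c.2 (t.symm j))) ↔
      ((c'.1 = a ∨ c'.1 = b) ∧ c'.2 = c.2)
    rw [mg1_inj t c'.2 c.2, s.apply_eq_iff_eq, s.apply_eq_iff_eq]

theorem rich_toMach (r : ℕ → Cf Q K) (h : RichN prog r) :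
    (toMach s t prog).Rich (fun j => toC s t prog (r j)) := by
  intro q'
  obtain ⟨q, rfl⟩ := s.surjective q'
  obtain ⟨h1, h2⟩ := h q
  refine ⟨fun N => ?_, ?_⟩
  · obtain ⟨n, hn, hq⟩ := h1 N
    exact ⟨n, hn, congrArg s hq⟩
  · rw [prog_toMach s t prog q]
    cases hp : prog q with
    | inc i q1 => exact trivial
    | test i z p =>
      rw [hp] at h2
      have h2 : (z.isSome = true → ∀ N, ∃ n ≥ N, (r n).1 = q ∧ (r n).2 i = 0) ∧
        (p.isSome = true → ∀ d ≥ 1, ∀ N, ∃ n ≥ N, (r n).1 = q ∧ (r n).2 i = d) := h2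
      show ((z.map s).isSome = true → ∀ N, ∃ n ≥ N, s (r n).1 = s q ∧
          (r n).2 (t.symm (t i)) = 0) ∧
        ((p.map s).isSome = true → ∀ d ≥ 1, ∀ N, ∃ n ≥ N, s (r n).1 = s q ∧
          (r n).2 (t.symm (t i)) = d)
      rw [Option.isSome_map, Option.isSome_map]
      refine ⟨fun hz N => ?_, fun hp' d hd N => ?_⟩
      · obtain ⟨n, hn, hq, h3⟩ := h2.1 hz N
        exact ⟨n, hn, congrArg s hq, by rw [Equiv.symm_apply_apply]; exact h3⟩
      · obtain ⟨n, hn, hq, h3⟩ := h2.2 hp' d hd N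
        exact ⟨n, hn, congrArg s hq, by rw [Equiv.symm_apply_apply]; exact h3⟩
    | guess a b =>
      rw [hp] at h2
      have h2 : (∀ N, ∃ n ≥ N, (r n).1 = q ∧ (r (n + 1)).1 = a) ∧
        (∀ N, ∃ n ≥ N, (r n).1 = q ∧ (r (n + 1)).1 = b) := h2
      show (∀ N, ∃ n ≥ N, s (r n).1 = s q ∧ s (r (n + 1)).1 = s a) ∧
        (∀ N, ∃ n ≥ N, s (r n).1 = s q ∧ s (r (n + 1)).1 = s b)
      refine ⟨fun N => ?_, fun N => ?_⟩
      · obtain ⟨n, hn, hq, h3⟩ := h2.1 N
        exact ⟨n, hn, congrArg s hq, congrArg s h3⟩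
      · obtain ⟨n, hn, hq, h3⟩ := h2.2 N
        exact ⟨n, hn, congrArg s hq, congrArg s h3⟩

omit [DecidableEq K] in
theorem cnt_toMach (g : Q) (r : ℕ → Cf Q K) (j : ℕ) :
    cnt (Q := Fin (toMach s t prog).nQ) (K := Fin (toMach s t prog).k) (s g)
      (fun j => toC s t prog (r j)) j = cnt g r j := by
  classical
  induction j with
  | zero => rfl
  | succ j ih =>
    unfold cnt
    rw [ih]
    have h1 : ((toC s t prog (r j)).1 = s g) ↔ ((r j).1 = g) := by
      show (s (r j).1 = s g) ↔ _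
      exact s.apply_eq_iff_eq
    by_cases h : (r j).1 = g
    · rw [if_pos h, if_pos (h1.2 h)]
    · rw [if_neg h, if_neg (fun h' => h (h1.1 h'))]

/-- The runs correspond. -/
theorem runE (c0 : Cf Q K) :
    ∃ e : {r : ℕ → Cf Q K // r 0 = c0 ∧ ∀ j, StepN prog (r j) (r (j + 1))} ≃
      (toMach s t prog).Run (toC s t prog c0), ∀ r j, (e r).1 j = toC s t prog (r.1 j) := by
  refine ⟨⟨fun r => ⟨fun j => toC s t prog (r.1 j), congrArg (toC s t prog) r.2.1, fun j =>
    (step_toMach s t prog _ _).2 (r.2.2 j)⟩, fun r => ⟨fun j => ofC s t prog (r.1 j), ?_,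
      fun j => ?_⟩, fun r => ?_, fun r => ?_⟩, fun r j => rfl⟩
  · have h1 : r.1 0 = toC s t prog c0 := r.2.1
    show ofC s t prog (r.1 0) = c0
    rw [h1, ofC_toC]
  · have h1 : (toMach s t prog).Step (r.1 j) (r.1 (j + 1)) := r.2.2 j
    show StepN prog (ofC s t prog (r.1 j)) (ofC s t prog (r.1 (j + 1)))
    rw [← step_toMach s t prog, toC_ofC, toC_ofC]
    exact h1
  · apply Subtype.ext
    funext j
    exact ofC_toC s t prog _
  · apply Subtype.ext
    funext j
    exact toC_ofC s t prog _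

end

end Pool.Agent.LIN.MM
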