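import Pool.Agent.LIN.M.D0
import Pool.Agent.LIN.M.C2

/-!
# [LIN-MH0] finiteness, the guess state
-/

namespace Pool.Agent.LIN.MM

theorem mh0_entry {K Q : Type} (c : Cmd K) (ex : Q) (e : c.Pos → Q) :
    c.entry ex e = ex ∨ ∃ p, c.entry ex e = e p := by
  induction c generalizing ex with
  | skip => exact Or.inl rfl
  | inc i => exact Or.inr ⟨(), rfl⟩
  | seq c d ihc ihd =>
    rcases ihc (d.entry ex (fun p => e (Sum.inr p))) (fun p => e (Sum.inl p)) with h | ⟨p, h⟩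
    · rcases ihd ex (fun p => e (Sum.inr p)) with h' | ⟨p, h'⟩
      · exact Or.inl (h.trans h')
      · exact Or.inr ⟨Sum.inr p, h.trans h'⟩
    · exact Or.inr ⟨Sum.inl p, h⟩
  | wh i c _ => exact Or.inr ⟨none, rfl⟩

section finite

theorem finite_pos {K : Type} (c : Cmd K) : Finite c.Pos := by
  induction c with
  | skip =>
    show Finite Empty
    infer_instance
  | inc i =>
    show Finite Unit
    infer_instance
  | seq c d ihc ihd =>
    show Finite (c.Pos ⊕ d.Pos)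
    infer_instance
  | wh i c ihc =>
    show Finite (Option c.Pos)
    infer_instance

theorem finite_rg {KP : Type} [Fintype KP] : Finite (Rg KP) := by
  let f : Fin 4 ⊕ KP → Rg KP := fun a => match a with
    | Sum.inl 0 => Rg.C
    | Sum.inl 1 => Rg.W
    | Sum.inl 2 => Rg.T
    | Sum.inl 3 => Rg.D
    | Sum.inr i => Rg.X i
  apply Finite.of_surjective f
  intro r
  cases r with
  | C => exact ⟨Sum.inl 0, rfl⟩
  | W => exact ⟨Sum.inl 1, rfl⟩
  | T => exact ⟨Sum.inl 2, rfl⟩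
  | D => exact ⟨Sum.inl 3, rfl⟩
  | X i => exact ⟨Sum.inr i, rfl⟩

/-- Surjection from (or injection into) a sum of finite types. -/
theorem finite_st {KP : Type} [Fintype KP] [DecidableEq KP] (P : Cmd KP) (u : KP) (N : ℕ) :
    Finite (St P u N) := by
  have h1 : Finite (B1 u).Pos := finite_pos _
  have h2 : Finite (B2 u).Pos := finite_pos _
  have h3 : Finite (B3 P).Pos := finite_pos _
  have h5 : Finite (B5 (KP := KP)).Pos := finite_pos _
  have h6 : Finite (B6 (KP := KP)).Pos := finite_pos _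
  have h7 : Finite (B7 (KP := KP)).Pos := finite_pos _
  let f : ((B1 u).Pos ⊕ (B2 u).Pos) ⊕ ((B3 P).Pos ⊕ (B5 (KP := KP)).Pos) ⊕
      ((B6 (KP := KP)).Pos ⊕ (B7 (KP := KP)).Pos) ⊕ (Fin N ⊕ Fin N) ⊕ Fin 6 → St P u N :=
    fun a => match a with
    | Sum.inl (Sum.inl p) => St.b1 p
    | Sum.inl (Sum.inr p) => St.b2 p
    | Sum.inr (Sum.inl (Sum.inl p)) => St.b3 p
    | Sum.inr (Sum.inl (Sum.inr p)) => St.b5 p
    | Sum.inr (Sum.inr (Sum.inl (Sum.inl p))) => St.b6 p
    | Sum.inr (Sum.inr (Sum.inl (Sum.inr p))) => St.b7 p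
    | Sum.inr (Sum.inr (Sum.inr (Sum.inl (Sum.inl j)))) => St.z j
    | Sum.inr (Sum.inr (Sum.inr (Sum.inl (Sum.inr j)))) => St.y j
    | Sum.inr (Sum.inr (Sum.inr (Sum.inr 0))) => St.g
    | Sum.inr (Sum.inr (Sum.inr (Sum.inr 1))) => St.tst
    | Sum.inr (Sum.inr (Sum.inr (Sum.inr 2))) => St.rA
    | Sum.inr (Sum.inr (Sum.inr (Sum.inr 3))) => St.b4
    | Sum.inr (Sum.inr (Sum.inr (Sum.inr 4))) => St.h
    | Sum.inr (Sum.inr (Sum.inr (Sum.inr 5))) => St.L
  apply Finite.of_surjective f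
  intro r
  cases r with
  | b1 p => exact ⟨Sum.inl (Sum.inl p), rfl⟩
  | b2 p => exact ⟨Sum.inl (Sum.inr p), rfl⟩
  | b3 p => exact ⟨Sum.inr (Sum.inl (Sum.inl p)), rfl⟩
  | b5 p => exact ⟨Sum.inr (Sum.inl (Sum.inr p)), rfl⟩
  | b6 p => exact ⟨Sum.inr (Sum.inr (Sum.inl (Sum.inl p))), rfl⟩
  | b7 p => exact ⟨Sum.inr (Sum.inr (Sum.inl (Sum.inr p))), rfl⟩
  | z j => exact ⟨Sum.inr (Sum.inr (Sum.inr (Sum.inl (Sum.inl j)))), rfl⟩
  | y j => exact ⟨Sum.inr (Sum.inr (Sum.inr (Sum.inl (Sum.inr j)))), rfl⟩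
  | g => exact ⟨Sum.inr (Sum.inr (Sum.inr (Sum.inr 0))), rfl⟩
  | tst => exact ⟨Sum.inr (Sum.inr (Sum.inr (Sum.inr 1))), rfl⟩
  | rA => exact ⟨Sum.inr (Sum.inr (Sum.inr (Sum.inr 2))), rfl⟩
  | b4 => exact ⟨Sum.inr (Sum.inr (Sum.inr (Sum.inr 3))), rfl⟩
  | h => exact ⟨Sum.inr (Sum.inr (Sum.inr (Sum.inr 4))), rfl⟩
  | L => exact ⟨Sum.inr (Sum.inr (Sum.inr (Sum.inr 5))), rfl⟩

end finite

section

variable {KP : Type} [Fintype KP] [DecidableEq KP]
variable (P : Cmd KP) (u o : KP) {N : ℕ} [NeZero N] (σ : Fin N → Option (Option (B3 P).Pos))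
variable {f : ℕ → ℕ}

/-- The initial configuration. -/
def c00 : Cf (St P u N) (Rg KP) := ((B1 u).entry St.g St.b1, rf 0 1 0 0 (fun _ => 0))

omit [DecidableEq KP] in
theorem prog_g : prog P u o σ St.g =
    Ins.guess ((B3 P).entry St.tst St.b3) ((B2 u).entry ((B3 P).entry St.tst St.b3) St.b2) := rfl

/-- The two outcomes of the guess are different states (`entry` of `B3` is a state `b3 p` or `tst`:
prove by induction on the command that `c.entry ex e` is `ex` or some `e p`). -/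
theorem outcomes_ne : ((B3 P).entry (St.tst : St P u N) St.b3) ≠
    ((B2 u).entry ((B3 P).entry St.tst St.b3) St.b2) := by
  have h2 : (B2 u).entry ((B3 P).entry (St.tst : St P u N) St.b3) St.b2 = St.b2 (Sum.inl ()) := rfl
  rw [h2]
  rcases mh0_entry (B3 P) (St.tst : St P u N) St.b3 with h | ⟨p, h⟩
  · rw [h]
    intro h'
    cases h'
  · rw [h]
    intro h'
    cases h'

/-- `g` is the only guess state (`code_ne_guess`). -/
theorem guess_unique (q : St P u N) (hq : q ≠ St.g) (a b : St P u N) :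
    prog P u o σ q ≠ Ins.guess a b := by
  cases q with
  | g => exact (hq rfl).elim
  | b1 p => exact code_ne_guess _ _ _ _ _ _
  | b2 p => exact code_ne_guess _ _ _ _ _ _
  | b3 p => exact code_ne_guess _ _ _ _ _ _
  | b5 p => exact code_ne_guess _ _ _ _ _ _
  | b6 p => exact code_ne_guess _ _ _ _ _ _
  | b7 p => exact code_ne_guess _ _ _ _ _ _
  | z j => exact fun h => Ins.noConfusion rfl rfl (heq_of_eq h)
  | y j => exact fun h => Ins.noConfusion rfl rfl (heq_of_eq h)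
  | tst => exact fun h => Ins.noConfusion rfl rfl (heq_of_eq h)
  | rA => exact fun h => Ins.noConfusion rfl rfl (heq_of_eq h)
  | b4 => exact fun h => Ins.noConfusion rfl rfl (heq_of_eq h)
  | h => exact fun h => Ins.noConfusion rfl rfl (heq_of_eq h)
  | L => exact fun h => Ins.noConfusion rfl rfl (heq_of_eq h)

end

end Pool.Agent.LIN.MM
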