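import Pool.Agent.LIN.M.E4
import Pool.Agent.LIN.M.H0

/-!
# [LIN-MH1] the runs of the abstract machine
-/

namespace Pool.Agent.LIN.MM

section

variable {KP : Type} [Fintype KP] [DecidableEq KP]
variable (P : Cmd KP) (u o : KP) {N : ℕ} [NeZero N] (σ : Fin N → Option (Option (B3 P).Pos))
variable {f : ℕ → ℕ}

/-- The bijection between the class and the runs of the abstract machine. `Ψ Y` is the projection
of the orbit of `core_exists` (`ghost_proj`); surjective: `ghost_lift` and `core_class`; injective: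
`ghost_inj`; richness: `core_rich`; continuity: `ghost_cont`. -/
theorem abs_core (hσ : Function.Surjective σ) (hT : Tests P u o f) (hb : ∀ Y, CF f Y → Bal Y) :
    ∃ Ψ : {Y : ℕ → Bool // CF f Y} ≃ {r : ℕ → Cf (St P u N) (Rg KP) // r 0 = c00 P u ∧
        ∀ j, StepN (prog P u o σ) (r j) (r (j + 1))},
      (∀ r : {r : ℕ → Cf (St P u N) (Rg KP) // r 0 = c00 P u ∧
        ∀ j, StepN (prog P u o σ) (r j) (r (j + 1))}, RichN (prog P u o σ) r.1) ∧
      (∀ n, ∀ Y Y' : {Y : ℕ → Bool // CF f Y}, (∀ k < n, Y.1 k = Y'.1 k) →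
        ∀ j ≤ n, (Ψ Y).1 j = (Ψ Y').1 j) ∧
      (∀ Y n, ((Ψ Y).1 n).1 = St.g → ((Ψ Y).1 (n + 1)).1 =
        if Y.1 (cnt St.g (Ψ Y).1 n) = true then (B2 u).entry ((B3 P).entry St.tst St.b3) St.b2
        else (B3 P).entry St.tst St.b3) := by
  have hg := prog_g P u o σ
  have hu : ∀ q : St P u N, q ≠ St.g → ∀ a' b', prog P u o σ q ≠ Ins.guess a' b' :=
    fun q hq a' b' => guess_unique P u o σ q hq a' b'
  have hab := outcomes_ne (N := N) P u
  have hex : ∀ Y : {Y : ℕ → Bool // CF f Y}, ∃ r : ℕ → Gf (St P u N) (Rg KP),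
      r 0 = start P u Y.1 0 ∧ ∀ m, nxg (prog P u o σ) Y.1 (r m) = some (r (m + 1)) :=
    fun Y => core_exists P u o σ Y.1 hT Y.2
  choose R hR0 hR using hex
  have h20 : ∀ Y : {Y : ℕ → Bool // CF f Y}, (R Y 0).2.2 = 0 := by
    intro Y
    rw [hR0]
    rfl
  have hproj := fun Y : {Y : ℕ → Bool // CF f Y} => ghost_proj hg hu Y.1 (R Y) (h20 Y) (hR Y)
  have hrich := fun Y : {Y : ℕ → Bool // CF f Y} =>
    core_rich P u o σ Y.1 hσ hT Y.2 (hb Y.1 Y.2) (R Y) (hR0 Y) (hR Y)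
  let Φ : {Y : ℕ → Bool // CF f Y} → {r : ℕ → Cf (St P u N) (Rg KP) // r 0 = c00 P u ∧
        ∀ j, StepN (prog P u o σ) (r j) (r (j + 1))} := fun Y =>
    ⟨fun m => ((R Y m).1, (R Y m).2.1), by
      refine ⟨?_, (hproj Y).1⟩
      show ((R Y 0).1, (R Y 0).2.1) = c00 P u
      rw [hR0]
      rfl⟩
  have hΦ : ∀ Y m, (Φ Y).1 m = ((R Y m).1, (R Y m).2.1) := fun Y m => rfl
  have hinj : Function.Injective Φ := by
    intro Y Y' h
    apply Subtype.ext
    refine ghost_inj hab hg hu (h20 Y) (h20 Y') (hR Y) (hR Y') (fun m => ?_) ?_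
    · rw [← hΦ, ← hΦ, h]
    · exact (hrich Y St.g).1
  have hsurj : Function.Surjective Φ := by
    intro r
    obtain ⟨Y, hY⟩ := ghost_lift hg hu r.1 r.2.2
    obtain ⟨r', hr'⟩ : ∃ r' : ℕ → Gf (St P u N) (Rg KP),
        r' = fun m => ((r.1 m).1, (r.1 m).2, cnt St.g r.1 m) := ⟨_, rfl⟩
    have h0 : r' 0 = start P u Y 0 := by
      rw [hr']
      show ((r.1 0).1, (r.1 0).2, cnt St.g r.1 0) = _
      rw [r.2.1]
      rfl
    have h1 : ∀ m, nxg (prog P u o σ) Y (r' m) = some (r' (m + 1)) := by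
      intro m
      rw [hr']
      exact hY m
    have hC : CF f Y := core_class P u o σ Y hT r' h0 h1
    refine ⟨⟨Y, hC⟩, ?_⟩
    have h2 : ∀ m, R ⟨Y, hC⟩ m = r' m := by
      intro m
      induction m with
      | zero => rw [hR0, h0]
      | succ m ih =>
        have h3 := hR ⟨Y, hC⟩ m
        have h4 := h1 m
        rw [ih] at h3
        exact Option.some_injective _ (h3.symm.trans h4)
    apply Subtype.ext
    funext m
    rw [hΦ, h2, hr']
  refine ⟨Equiv.ofBijective Φ ⟨hinj, hsurj⟩, ?_, ?_, ?_⟩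
  · intro r
    obtain ⟨Y, rfl⟩ := hsurj r
    exact hrich Y
  · intro n Y Y' h j hj
    show (Φ Y).1 j = (Φ Y').1 j
    have h5 : R Y 0 = R Y' 0 := by
      rw [hR0, hR0]
      rfl
    have h6 := ghost_cont hg hu (h20 Y) h5 (hR Y) (hR Y') n h j hj
    rw [hΦ, hΦ, h6]
  · intro Y n h
    have h7 := (hproj Y).2.2 n h
    rw [(hproj Y).2.1 n] at h7
    exact h7

end

end Pool.Agent.LIN.MM
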