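import Pool.Agent.LIN.M.H1
import Pool.Agent.LIN.M.B5
import Pool.Agent.LIN.M.F2
import Pool.Agent.LIN.M.F3
import Pool.Agent.LIN.M.G1

/-!
# [LIN-MH2] the machine of a test function
-/

namespace Pool.Agent.LIN.MM

/-- `cnt` depends only on the states. -/
theorem mh2_cnt_congr {Q K : Type} {g : Q} {r r' : ℕ → Cf Q K} (h : ∀ j, (r j).1 = (r' j).1)
    (n : ℕ) : cnt g r n = cnt g r' n := by
  classical
  induction n with
  | zero => rfl
  | succ n ih =>
    unfold cnt
    rw [ih, h n]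

/-- The states of a run determine the guesses. -/
theorem guess_det {m : Mach} {g a b : Fin m.nQ} (hab : a ≠ b) {Y Y' : ℕ → Bool}
    {r r' : ℕ → m.Config}
    (hf : ∀ n, (r n).1 = g → (r (n + 1)).1 = if Y (cnt g r n) = true then b else a)
    (hf' : ∀ n, (r' n).1 = g → (r' (n + 1)).1 = if Y' (cnt g r' n) = true then b else a)
    (hi : ∀ N, ∃ n ≥ N, (r n).1 = g) (h : ∀ j, (r j).1 = (r' j).1) : Y = Y' := by
  funext k
  obtain ⟨n, hn, hk⟩ := cnt_surj (g := g) r hi k
  have h1 := hf n hn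
  have h2 := hf' n (by rw [← h n]; exact hn)
  rw [← mh2_cnt_congr h n, hk, ← h (n + 1)] at h2
  rw [hk, h2] at h1
  cases h3 : Y k <;> cases h4 : Y' k <;> simp_all

/-- From `tests_of_primrec`, `abs_core` (with `N = card (Option (Option (B3 P).Pos))` and `σ` the
inverse of the numbering), `finite_st`, `finite_rg`, the transport (`runE`, `step_toMach`,
`rich_toMach`, `cnt_toMach`, `prog_toMach`), `computable_run`, `computable_guess` (`cnt_surj`),
`guess_det`. -/
theorem mach_core {f : ℕ → ℕ} (hf : Primrec f) (hb : ∀ Y, CF f Y → Bal Y) :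
    ∃ (m : Mach) (c0 : m.Config) (Ψ : {Y : ℕ → Bool // CF f Y} ≃ m.Run c0),
      (∀ r : m.Run c0, m.Rich r.1) ∧
      (∀ n, ∀ Y Y' : {Y : ℕ → Bool // CF f Y}, (∀ k < n, Y.1 k = Y'.1 k) →
        ∀ j ≤ n, (Ψ Y).1 j = (Ψ Y').1 j) ∧
      (∀ Y Y', (∀ j, ((Ψ Y).1 j).1 = ((Ψ Y').1 j).1) → Y = Y') ∧
      (∀ Y, Computable Y.1 ↔ Computable (fun n => (((Ψ Y).1 n).1 : ℕ))) := by
  classical
  obtain ⟨KP, i1, i2, P, u, o, hT⟩ := tests_of_primrec hf
  have : Finite (B3 P).Pos := finite_pos _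
  have : Finite (Option (Option (B3 P).Pos)) := inferInstance
  obtain ⟨N, ⟨σ0⟩⟩ := Finite.exists_equiv_fin (Option (Option (B3 P).Pos))
  have : NeZero N := ⟨by
    rintro rfl
    exact Fin.elim0 (σ0 none)⟩
  obtain ⟨Ψ0, hR, hC, hG⟩ := abs_core P u o (σ0.symm) σ0.symm.surjective hT hb
  have : Finite (St P u N) := finite_st P u N
  have : Finite (Rg KP) := finite_rg
  obtain ⟨nQ, ⟨s⟩⟩ := Finite.exists_equiv_fin (St P u N)
  obtain ⟨k, ⟨t⟩⟩ := Finite.exists_equiv_fin (Rg KP)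
  obtain ⟨e, he⟩ := runE s t (prog P u o σ0.symm) (c00 P u)
  have hΨ : ∀ Y j, ((Ψ0.trans e) Y).1 j = toC s t (prog P u o σ0.symm) ((Ψ0 Y).1 j) := fun Y j =>
    he (Ψ0 Y) j
  have hrich : ∀ r : (toMach s t (prog P u o σ0.symm)).Run (toC s t (prog P u o σ0.symm) (c00 P u)),
      (toMach s t (prog P u o σ0.symm)).Rich r.1 := by
    intro r
    have h1 : r.1 = fun j => toC s t (prog P u o σ0.symm) ((e.symm r).1 j) := by
      funext j
      rw [← he, Equiv.apply_symm_apply]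
    rw [h1]
    exact rich_toMach s t _ _ (hR (e.symm r))
  -- the guesses
  have hguess : ∀ Y n, (((Ψ0.trans e) Y).1 n).1 = s St.g → (((Ψ0.trans e) Y).1 (n + 1)).1 =
      if Y.1 (cnt (Q := Fin (toMach s t (prog P u o σ0.symm)).nQ)
        (K := Fin (toMach s t (prog P u o σ0.symm)).k) (s St.g) ((Ψ0.trans e) Y).1 n) = true
      then s ((B2 u).entry ((B3 P).entry St.tst St.b3) St.b2)
      else s ((B3 P).entry St.tst St.b3) := by
    intro Y n hn
    rw [hΨ] at hn ⊢
    have h1 : ((Ψ0 Y).1 n).1 = St.g := s.injective hn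
    have h2 := hG Y n h1
    have h3 : ((Ψ0.trans e) Y).1 = fun j => toC s t (prog P u o σ0.symm) ((Ψ0 Y).1 j) :=
      funext fun j => hΨ Y j
    rw [h3, cnt_toMach]
    show s ((Ψ0 Y).1 (n + 1)).1 = _
    rw [h2]
    split_ifs <;> rfl
  have hne : s ((B3 P).entry St.tst St.b3) ≠
      s ((B2 u).entry ((B3 P).entry St.tst St.b3) St.b2) := fun h =>
    outcomes_ne P u (N := N) (s.injective h)
  have hinf : ∀ Y N', ∃ n ≥ N', (((Ψ0.trans e) Y).1 n).1 = s St.g := fun Y =>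
    (hrich ((Ψ0.trans e) Y) (s St.g)).1
  refine ⟨toMach s t (prog P u o σ0.symm), toC s t (prog P u o σ0.symm) (c00 P u), Ψ0.trans e,
    hrich, fun n Y Y' h j hj => ?_, fun Y Y' h => ?_, fun Y => ⟨fun hY => ?_, fun hY => ?_⟩⟩
  · rw [hΨ, hΨ, hC n Y Y' h j hj]
  · exact Subtype.ext (guess_det hne (hguess Y) (hguess Y') (hinf Y) h)
  · refine computable_run (toMach s t (prog P u o σ0.symm)) (s St.g)
      (s ((B3 P).entry St.tst St.b3)) (s ((B2 u).entry ((B3 P).entry St.tst St.b3) St.b2))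
      ?_ ?_ Y.1 _ ((Ψ0.trans e) Y).2.2 (hguess Y) hY
    · rw [prog_toMach, prog_g]
      rfl
    · intro q hq a' b' hq'
      have h1 : s.symm q ≠ St.g := fun h => hq (by rw [← h, Equiv.apply_symm_apply])
      have h2 := guess_unique P u o σ0.symm (s.symm q) h1
      have h3 : ((prog P u o σ0.symm) (s.symm q)).toInstr s t = Instr.guess a' b' := hq'
      cases h4 : (prog P u o σ0.symm) (s.symm q) with
      | inc i q => rw [h4] at h3; simp [Ins.toInstr] at h3
      | test i z p => rw [h4] at h3; simp [Ins.toInstr] at h3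
      | guess a b => exact h2 a b h4
  · exact computable_guess (toMach s t (prog P u o σ0.symm)) (s St.g)
      (s ((B3 P).entry St.tst St.b3)) (s ((B2 u).entry ((B3 P).entry St.tst St.b3) St.b2))
      hne Y.1 _ (hguess Y) (fun k => cnt_surj (g := s St.g) _ (hinf Y) k) hY

end Pool.Agent.LIN.MM
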