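import Pool.Agent.LIN.M.H2
import Pool.Agent.LIN.M.A3
import Pool.Agent.LIN.M.F4

/-!
# [LIN] block M, final theorem
-/

namespace Pool.Agent.LIN

open MM

/-- Block M. -/
theorem machineStatement : MachineStatement := by
  intro R hR
  obtain ⟨f, hf, e, hb, he⟩ := classEquiv R hR
  obtain ⟨m, c0, Ψ, hrich, hcont, hinj, hcomp⟩ := mach_core hf hb
  have hc : ∀ n, ∃ N, ∀ X Y : Cls R, pre X.1 N = pre Y.1 N →
      ∀ j ≤ n, (Ψ (e X)).1 j = (Ψ (e Y)).1 j := by
    intro n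
    refine ⟨n, fun X Y h j hj => hcont n _ _ (fun k hk => ?_) j hj⟩
    rw [he X, he Y]
    have h' := (pre_eq_iff X.1 Y.1 n).1 h
    unfold dbl
    rw [h' (k / 2) (by omega)]
  refine ⟨m, c0, e.trans Ψ, hrich, hc, ?_, ?_⟩
  · refine unif R (fun X j => ((Ψ (e X)).1 j).1) (fun n => ?_) (fun X Y h => ?_)
    · obtain ⟨N, hN⟩ := hc n
      exact ⟨N, fun X Y h j hj => by
        change ((Ψ (e X)).1 j).1 = ((Ψ (e Y)).1 j).1
        rw [hN X Y h j hj]⟩
    · exact e.injective (hinj _ _ h)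
  · intro X
    rw [dbl_computable, ← he X]
    exact hcomp (e X)

end Pool.Agent.LIN
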