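import Pool.Agent.LIN.Iface

/-!
# [LIN] block M (machines), general definitions

Abstract machines with states `Q` and registers `K`, a ghost counter counts the guesses;
structured commands `Cmd K` and their compilation.
-/

namespace Pool.Agent.LIN.MM

/-- Instructions (as `Instr`, registers in an arbitrary type). -/
inductive Ins (Q K : Type) : Type
  | inc (i : K) (q : Q)
  | test (i : K) (z p : Option Q)
  | guess (a b : Q)

/-- Configurations: state and registers. -/
abbrev Cf (Q K : Type) : Type := Q × (K → ℕ)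

/-- Configurations with the ghost counter (number of guesses made). -/
abbrev Gf (Q K : Type) : Type := Q × (K → ℕ) × ℕ

section step

variable {Q K : Type} [DecidableEq K]

/-- One nondeterministic step (as `Mach.Step`). -/
def StepN (prog : Q → Ins Q K) (c c' : Cf Q K) : Prop :=
  match prog c.1 with
  | Ins.inc i q => c'.1 = q ∧ c'.2 = Function.update c.2 i (c.2 i + 1)
  | Ins.test i z p =>
      (c.2 i = 0 ∧ z = some c'.1 ∧ c'.2 = c.2) ∨
      (0 < c.2 i ∧ p = some c'.1 ∧ c'.2 = Function.update c.2 i (c.2 i - 1))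
  | Ins.guess a b => (c'.1 = a ∨ c'.1 = b) ∧ c'.2 = c.2

/-- One step where the `k`-th guess has the outcome `Y k`. -/
def nxg (prog : Q → Ins Q K) (Y : ℕ → Bool) (c : Gf Q K) : Option (Gf Q K) :=
  match prog c.1 with
  | Ins.inc i q => some (q, Function.update c.2.1 i (c.2.1 i + 1), c.2.2)
  | Ins.test i z p =>
      if c.2.1 i = 0 then z.map (fun q => (q, c.2.1, c.2.2))
      else p.map (fun q => (q, Function.update c.2.1 i (c.2.1 i - 1), c.2.2))
  | Ins.guess a b => some (if Y c.2.2 = true then b else a, c.2.1, c.2.2 + 1)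

/-- `Go prog Y c c'`: the configuration `c'` is reached from `c`. -/
def Go (prog : Q → Ins Q K) (Y : ℕ → Bool) : Gf Q K → Gf Q K → Prop :=
  Relation.ReflTransGen (fun c c' => nxg prog Y c = some c')

/-- Rich sequences (as `Mach.Rich`). -/
def RichN (prog : Q → Ins Q K) (r : ℕ → Cf Q K) : Prop :=
  ∀ q : Q, (∀ N, ∃ n ≥ N, (r n).1 = q) ∧
    match prog q with
    | Ins.inc _ _ => True
    | Ins.test i z p =>
        (z.isSome = true → ∀ N, ∃ n ≥ N, (r n).1 = q ∧ (r n).2 i = 0) ∧
        (p.isSome = true → ∀ d ≥ 1, ∀ N, ∃ n ≥ N, (r n).1 = q ∧ (r n).2 i = d)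
    | Ins.guess a b =>
        (∀ N, ∃ n ≥ N, (r n).1 = q ∧ (r (n + 1)).1 = a) ∧
        (∀ N, ∃ n ≥ N, (r n).1 = q ∧ (r (n + 1)).1 = b)

end step

/-! ### commands -/

/-- Structured commands; `wh i c` is `while i > 0 do (i := i - 1; c)`. -/
inductive Cmd (K : Type) : Type
  | skip : Cmd K
  | inc (i : K) : Cmd K
  | seq (c d : Cmd K) : Cmd K
  | wh (i : K) (c : Cmd K) : Cmd K

namespace Cmd

variable {K : Type}

/-- The registers that occur in a command. -/
def uses : Cmd K → Set K
  | skip => ∅
  | inc i => {i}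
  | seq c d => c.uses ∪ d.uses
  | wh i c => {i} ∪ c.uses

/-- Well formed: the loop register does not occur in the body. -/
def WF : Cmd K → Prop
  | skip => True
  | inc _ => True
  | seq c d => c.WF ∧ d.WF
  | wh i c => i ∉ c.uses ∧ c.WF

/-- Renaming of the registers. -/
def map {K' : Type} (φ : K → K') : Cmd K → Cmd K'
  | skip => skip
  | inc i => inc (φ i)
  | seq c d => seq (c.map φ) (d.map φ)
  | wh i c => wh (φ i) (c.map φ)

/-- Semantics. -/
def sem [DecidableEq K] : Cmd K → (K → ℕ) → (K → ℕ)
  | skip, x => x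
  | inc i, x => Function.update x i (x i + 1)
  | seq c d, x => d.sem (c.sem x)
  | wh i c, x => (c.sem)^[x i] (Function.update x i 0)

/-- Positions (states of the compiled command). -/
def Pos : Cmd K → Type
  | skip => Empty
  | inc _ => Unit
  | seq c d => c.Pos ⊕ d.Pos
  | wh _ c => Option c.Pos

/-- The entry state of the compiled command, `ex` = exit state, `e` = embedding of the
positions. -/
def entry {Q : Type} : (c : Cmd K) → (ex : Q) → (e : c.Pos → Q) → Q
  | skip, ex, _ => ex
  | inc _, _, e => e ()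
  | seq c d, ex, e => c.entry (d.entry ex (fun p => e (Sum.inr p))) (fun p => e (Sum.inl p))
  | wh _ _, _, e => e none

/-- The compiled command. -/
def code {Q : Type} : (c : Cmd K) → (ex : Q) → (e : c.Pos → Q) → c.Pos → Ins Q K
  | skip, _, _, p => Empty.elim p
  | inc i, ex, _, _ => Ins.inc i ex
  | seq c d, ex, e, Sum.inl p =>
      c.code (d.entry ex (fun p => e (Sum.inr p))) (fun p => e (Sum.inl p)) p
  | seq _ d, ex, e, Sum.inr p => d.code ex (fun p => e (Sum.inr p)) p
  | wh i c, ex, e, none =>
      Ins.test i (some ex) (some (c.entry (e none) (fun p => e (some p))))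
  | wh _ c, _, e, some p => c.code (e none) (fun p => e (some p)) p

/-- Every loop of the command is entered (at least once) with a value `≥ d` and `≥ 1` when the
command is started with the registers `x`. -/
def Big [DecidableEq K] (d : ℕ) : Cmd K → (K → ℕ) → Prop
  | skip, _ => True
  | inc _, _ => True
  | seq c e, x => c.Big d x ∧ e.Big d (c.sem x)
  | wh i c, x => d ≤ x i ∧ 1 ≤ x i ∧ c.Big d (Function.update x i (x i - 1))

end Cmd

/-! ### words -/

/-- The number with the binary expansion `1 X(0) X(1) .. X(n-1)`. -/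
def Wd (X : ℕ → Bool) : ℕ → ℕ
  | 0 => 1
  | n + 1 => 2 * Wd X n + (X n).toNat

/-- The class of the test function `f`. -/
def CF (f : ℕ → ℕ) (Y : ℕ → Bool) : Prop := ∀ n, f (Wd Y (n + 1)) = 0

/-- Both bits occur infinitely often. -/
def Bal (Y : ℕ → Bool) : Prop :=
  (∀ N, ∃ n ≥ N, Y n = true) ∧ (∀ N, ∃ n ≥ N, Y n = false)

/-- `f` (of `n` variables) is computed by a well formed command with inputs `inl i`, output
`inr none` and scratch registers `inr (some s)`, whatever the contents of the output and scratch
registers are at the start; the inputs are preserved. -/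
def Computes {n : ℕ} (f : List.Vector ℕ n → ℕ) : Prop :=
  ∃ (S : Type) (_ : Fintype S) (_ : DecidableEq S) (c : Cmd (Fin n ⊕ Option S)), c.WF ∧
    ∀ x, (∀ i, c.sem x (Sum.inl i) = x (Sum.inl i)) ∧
      c.sem x (Sum.inr none) = f (List.Vector.ofFn fun i => x (Sum.inl i))

end Pool.Agent.LIN.MM
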